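import Pool.Agent.Lib.MP_327cb1_an_h41.Refl

/-!
# The Grothendieck property of `Lip₀` passes to separable spaces crudely finitely representable
-/

open Filter Topology

namespace Pool.Agent.LipSR

open Pool.Agent.LipL1

/-- Hahn–Banach extension along an isomorphic embedding. -/
theorem extend_along {V W : Type*} [NormedAddCommGroup V] [NormedSpace ℝ V]
    [NormedAddCommGroup W] [NormedSpace ℝ W] (S : V →L[ℝ] W) {K : ℝ}
    (hS : ∀ v, ‖v‖ ≤ K * ‖S v‖) (Ψ : V →L[ℝ] ℝ) : ∃ Φ : W →L[ℝ] ℝ, ∀ v, Φ (S v) = Ψ v := by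
  have hinj : Function.Injective S.toLinearMap := by
    intro a b hab
    have hab' : S a = S b := hab
    have h1 := hS (a - b)
    rw [map_sub, hab', sub_self, norm_zero, mul_zero] at h1
    rw [← sub_eq_zero]
    exact norm_le_zero_iff.1 h1
  let e : V ≃ₗ[ℝ] LinearMap.range S.toLinearMap := LinearEquiv.ofInjective S.toLinearMap hinj
  have he : ∀ v : V, ((e v : LinearMap.range S.toLinearMap) : W) = S v := fun v => rfl
  let ψ : LinearMap.range S.toLinearMap →L[ℝ] ℝ := LinearMap.mkContinuous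
    (Ψ.toLinearMap.comp e.symm.toLinearMap) (‖Ψ‖ * K) (fun s => by
      have h1 : (Ψ.toLinearMap.comp e.symm.toLinearMap) s = Ψ (e.symm s) := rfl
      rw [h1]
      have h2 := Ψ.le_opNorm (e.symm s)
      have h3 := hS (e.symm s)
      have h4 : S (e.symm s) = (s : W) := by rw [← he, LinearEquiv.apply_symm_apply]
      rw [h4] at h3
      have h5 := mul_le_mul_of_nonneg_left h3 (norm_nonneg Ψ)
      have h7 : ‖(s : W)‖ = ‖s‖ := rfl
      rw [h7] at h5
      rw [mul_assoc]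
      exact h2.trans h5)
  obtain ⟨χ, hχ1, -⟩ := exists_extension_norm_eq (LinearMap.range S.toLinearMap) ψ
  refine ⟨χ, fun v => ?_⟩
  have h1 := hχ1 (e v)
  rw [he] at h1
  rw [h1]
  change Ψ (e.symm (e v)) = Ψ v
  rw [LinearEquiv.symm_apply_apply]

/-- The Grothendieck property passes to quotients. -/
theorem grothendieck_quotient {X Y : Type*} [NormedAddCommGroup X] [NormedSpace ℝ X]
    [NormedAddCommGroup Y] [NormedSpace ℝ Y] (hX : IsGrothendieck X) (Q : X →L[ℝ] Y) {K : ℝ}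
    (hQ : ∀ g : Y, ∃ f : X, ‖f‖ ≤ K * ‖g‖ ∧ Q f = g) : IsGrothendieck Y := by
  intro y hy Ψ
  let S : (Y →L[ℝ] ℝ) →L[ℝ] (X →L[ℝ] ℝ) := LinearMap.mkContinuous
    { toFun := fun h => h.comp Q
      map_add' := fun a b => rfl
      map_smul' := fun c a => rfl } ‖Q‖ (fun h => by
        rw [mul_comm]
        exact h.opNorm_comp_le Q)
  have hSap : ∀ h, S h = h.comp Q := fun h => rfl
  have hK : ∀ h : Y →L[ℝ] ℝ, ‖h‖ ≤ K.toNNReal * ‖S h‖ := by
    intro h
    refine h.opNorm_le_bound (by positivity) fun g => ?_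
    obtain ⟨f, hf1, hf2⟩ := hQ g
    have h1 := (S h).le_opNorm f
    rw [hSap, ContinuousLinearMap.comp_apply, hf2] at h1
    refine h1.trans ?_
    have h2 : ‖f‖ ≤ K.toNNReal * ‖g‖ :=
      hf1.trans (mul_le_mul_of_nonneg_right (Real.le_coe_toNNReal K) (norm_nonneg g))
    have h3 := mul_le_mul_of_nonneg_left h2 (norm_nonneg (h.comp Q))
    rw [hSap]
    calc ‖h.comp Q‖ * ‖f‖ ≤ ‖h.comp Q‖ * (K.toNNReal * ‖g‖) := h3
      _ = K.toNNReal * ‖h.comp Q‖ * ‖g‖ := by ring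
  obtain ⟨Φ, hΦ⟩ := extend_along S hK Ψ
  have h1 := hX (fun n => S (y n)) (fun v => hy (Q v)) Φ
  simpa only [hΦ] using h1

section

variable {E : Type*} [NormedAddCommGroup E] [NormedSpace ℝ E]
variable {F : Type*} [NormedAddCommGroup F] [NormedSpace ℝ F]

/-- Radii for a sequence `d`. -/
noncomputable def rad (d : ℕ → F) (N : ℕ) : ℝ := 1 + ∑ j ∈ Finset.range (N + 1), ‖d j‖

/-- Positions for a sequence `d`. -/
noncomputable def pos (d : ℕ → F) (N : ℕ) : ℝ := 4 * ∑ j ∈ Finset.range (N + 1), rad d j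

omit [NormedSpace ℝ F] in
theorem rad_pos (d : ℕ → F) (N : ℕ) : 0 < rad d N := by unfold rad; positivity

omit [NormedSpace ℝ F] in
theorem rad_mono (d : ℕ → F) {M N : ℕ} (h : M ≤ N) : rad d M ≤ rad d N := by
  unfold rad
  apply add_le_add le_rfl
  apply Finset.sum_le_sum_of_subset_of_nonneg
  · intro j hj
    rw [Finset.mem_range] at hj ⊢
    omega
  · intro j _ _; exact norm_nonneg _

omit [NormedSpace ℝ F] in
theorem le_rad (d : ℕ → F) {i N : ℕ} (h : i ≤ N) : ‖d i‖ ≤ rad d N := by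
  unfold rad
  have := Finset.single_le_sum (f := fun j => ‖d j‖) (s := Finset.range (N + 1))
    (fun j _ => norm_nonneg _) (Finset.mem_range.2 (Nat.lt_succ_of_le h))
  linarith

omit [NormedSpace ℝ F] in
theorem pos_succ (d : ℕ → F) (N : ℕ) : pos d (N + 1) = pos d N + 4 * rad d (N + 1) := by
  unfold pos
  rw [Finset.sum_range_succ _ (N + 1)]
  ring

omit [NormedSpace ℝ F] in
theorem pos_mono (d : ℕ → F) {M N : ℕ} (h : M ≤ N) : pos d M ≤ pos d N := by
  induction N, h using Nat.le_induction with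
  | base => exact le_rfl
  | succ N _ ih =>
    rw [pos_succ]
    have := rad_pos d (N + 1)
    linarith

omit [NormedSpace ℝ F] in
theorem le_pos (d : ℕ → F) (N : ℕ) : 4 * rad d N ≤ pos d N := by
  unfold pos
  have := Finset.single_le_sum (f := fun j => rad d j) (s := Finset.range (N + 1))
    (fun j _ => (rad_pos d j).le) (Finset.mem_range.2 (Nat.lt_succ_self N))
  linarith

omit [NormedSpace ℝ F] in
theorem pos_sub (d : ℕ → F) {M N : ℕ} (h : M < N) : 4 * rad d N ≤ pos d N - pos d M := by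
  obtain ⟨N, rfl⟩ : ∃ N', N = N' + 1 := ⟨N - 1, by omega⟩
  rw [pos_succ]
  have := pos_mono d (Nat.lt_succ_iff.1 h)
  linarith

theorem norm_pos_smul {u₀ : E} (hu₀ : ‖u₀‖ = 1) {r : ℝ} (hr : 0 ≤ r) : ‖r • u₀‖ = r := by
  rw [norm_smul, hu₀, mul_one, Real.norm_eq_abs, abs_of_nonneg hr]

/-- Lift of a Lipschitz function on `F` to `E` along far apart copies of finite subsets. -/
theorem exists_lift_copies {u₀ : E} (hu₀ : ‖u₀‖ = 1) (d : ℕ → F) (t : ℕ → ℕ → E) {C : ℝ}
    (hC : 1 ≤ C) (ht1 : ∀ N, ∀ i ≤ N, ‖t N i‖ ≤ ‖d i‖)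
    (ht2 : ∀ N, ∀ i ≤ N, ∀ j ≤ N, ‖d i - d j‖ ≤ C * ‖t N i - t N j‖) (g : Lip0 F) :
    ∃ f : Lip0 E, ‖f‖ ≤ C * ‖g‖ ∧ ∀ N, ∀ i ≤ N, f (pos d N • u₀ + t N i) = g (d i) := by
  have hg0 := norm_nonneg g
  have hgd : ∀ i, |g (d i)| ≤ ‖g‖ * ‖d i‖ := fun i => g.abs_apply_le (d i)
  have hCg : ‖g‖ ≤ C * ‖g‖ := by nlinarith
  have hcase : ∀ M N i j : ℕ, M < N → i ≤ M → j ≤ N →
      |g (d i) - g (d j)| ≤ C * ‖g‖ * ‖(pos d M • u₀ + t M i) - (pos d N • u₀ + t N j)‖ := by
    intro M N i j hMN hi hj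
    have h1 := pos_sub d hMN
    have h2 := rad_mono d hMN.le
    have h3 := le_rad d hi
    have h4 := le_rad d hj
    have h5 := ht1 M i hi
    have h6 := ht1 N j hj
    have h7 : |g (d i) - g (d j)| ≤ ‖g‖ * (‖d i‖ + ‖d j‖) := by
      rw [mul_add]
      exact (abs_sub _ _).trans (add_le_add (hgd i) (hgd j))
    have e : (pos d N - pos d M) • u₀ =
        (pos d N • u₀ + t N j) - (pos d M • u₀ + t M i) + (t M i - t N j) := by
      rw [sub_smul]; abel
    have h8 : pos d N - pos d M ≤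
        ‖(pos d M • u₀ + t M i) - (pos d N • u₀ + t N j)‖ + (‖t M i‖ + ‖t N j‖) := by
      have h9 : ‖(pos d N - pos d M) • u₀‖ = pos d N - pos d M :=
        norm_pos_smul hu₀ (by have := rad_pos d N; linarith)
      rw [← h9, e]
      refine (norm_add_le _ _).trans (add_le_add ?_ (norm_sub_le _ _))
      rw [norm_sub_rev]
    have h10 : ‖d i‖ + ‖d j‖ ≤ ‖(pos d M • u₀ + t M i) - (pos d N • u₀ + t N j)‖ := by linarith
    calc |g (d i) - g (d j)| ≤ ‖g‖ * (‖d i‖ + ‖d j‖) := h7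
      _ ≤ ‖g‖ * ‖(pos d M • u₀ + t M i) - (pos d N • u₀ + t N j)‖ :=
          mul_le_mul_of_nonneg_left h10 hg0
      _ ≤ _ := mul_le_mul_of_nonneg_right hCg (norm_nonneg _)
  have hzero : ∀ N i : ℕ, i ≤ N → |g (d i)| ≤ C * ‖g‖ * ‖pos d N • u₀ + t N i‖ := by
    intro N i hi
    have h1 := le_pos d N
    have h2 := le_rad d hi
    have h3 := ht1 N i hi
    have h4 : pos d N ≤ ‖pos d N • u₀ + t N i‖ + ‖t N i‖ := by
      have h5 : ‖pos d N • u₀‖ = pos d N :=
        norm_pos_smul hu₀ (by have := rad_pos d N; linarith)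
      have e : pos d N • u₀ = (pos d N • u₀ + t N i) - t N i := by abel
      calc pos d N = ‖(pos d N • u₀ + t N i) - t N i‖ := by rw [← e, h5]
        _ ≤ _ := norm_sub_le _ _
    have h6 := rad_pos d N
    have h7 : ‖d i‖ ≤ ‖pos d N • u₀ + t N i‖ := by linarith
    calc |g (d i)| ≤ ‖g‖ * ‖d i‖ := hgd i
      _ ≤ ‖g‖ * ‖pos d N • u₀ + t N i‖ := mul_le_mul_of_nonneg_left h7 hg0
      _ ≤ _ := mul_le_mul_of_nonneg_right hCg (norm_nonneg _)
  let I := Option {q : ℕ × ℕ // q.2 ≤ q.1}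
  let P : I → E := fun o => match o with
    | none => 0
    | some q => pos d q.1.1 • u₀ + t q.1.1 q.1.2
  let v : I → ℝ := fun o => match o with
    | none => 0
    | some q => g (d q.1.2)
  have hK0 : 0 ≤ C * ‖g‖ := by positivity
  obtain ⟨f, hf1, hf2⟩ := extend_family P v (K := C * ‖g‖) hK0 (by
    intro a b
    match a, b with
    | none, none => simp [v]
    | none, some q =>
      simp only [v, P, zero_sub, abs_neg, norm_neg]
      exact hzero _ _ q.2
    | some q, none =>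
      simp only [v, P, sub_zero]
      exact hzero _ _ q.2
    | some q, some q' =>
      simp only [v, P]
      rcases lt_trichotomy q.1.1 q'.1.1 with h | h | h
      · exact hcase _ _ _ _ h q.2 q'.2
      · rw [h, add_sub_add_left_eq_sub]
        have h1 := ht2 q'.1.1 q.1.2 (h ▸ q.2) q'.1.2 q'.2
        calc |g (d q.1.2) - g (d q'.1.2)| ≤ ‖g‖ * ‖d q.1.2 - d q'.1.2‖ :=
              g.abs_sub_le_norm _ _
          _ ≤ ‖g‖ * (C * ‖t q'.1.1 q.1.2 - t q'.1.1 q'.1.2‖) :=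
              mul_le_mul_of_nonneg_left h1 hg0
          _ = _ := by ring
      · rw [abs_sub_comm, norm_sub_rev]
        exact hcase _ _ _ _ h q'.2 q.2)
  have hf0 : f 0 = 0 := hf2 none
  refine ⟨⟨f, hf0, C * ‖g‖, hf1⟩, Lip0.norm_le hK0 hf1, fun N i hi => ?_⟩
  exact hf2 (some ⟨(N, i), hi⟩)

/-- For separable `F` crudely finitely representable in `E`, `Lip₀(F)` is a quotient of
`Lip₀(E)`. -/
theorem exists_quotient [TopologicalSpace.SeparableSpace F] [Nontrivial F]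
    (hF : CrudelyFinRep F E) :
    ∃ (Q : Lip0 E →L[ℝ] Lip0 F) (K : ℝ), ∀ g : Lip0 F, ∃ f : Lip0 E, ‖f‖ ≤ K * ‖g‖ ∧ Q f = g := by
  classical
  obtain ⟨C₀, hC₀⟩ := hF
  set C := max C₀ 1 with hCdef
  have hC1 : 1 ≤ C := le_max_right _ _
  have hC : ∀ G : Submodule ℝ F, FiniteDimensional ℝ G →
      ∃ T : G →ₗ[ℝ] E, ∀ g : G, ‖T g‖ ≤ ‖g‖ ∧ ‖g‖ ≤ C * ‖T g‖ := by
    intro G hG
    obtain ⟨T, hT⟩ := hC₀ G hG
    exact ⟨T, fun g => ⟨(hT g).1, (hT g).2.trans
      (mul_le_mul_of_nonneg_right (le_max_left _ _) (norm_nonneg _))⟩⟩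
  -- a unit vector
  obtain ⟨u₀, hu₀⟩ : ∃ u₀ : E, ‖u₀‖ = 1 := by
    obtain ⟨v, hv⟩ := exists_ne (0 : F)
    obtain ⟨T, hT⟩ := hC (Submodule.span ℝ {v}) (FiniteDimensional.span_singleton ℝ v)
    have h1 := (hT ⟨v, Submodule.mem_span_singleton_self v⟩).2
    have h2 : ‖T ⟨v, Submodule.mem_span_singleton_self v⟩‖ ≠ 0 := by
      intro h
      rw [h, mul_zero] at h1
      have h3 : ‖v‖ ≤ 0 := h1
      exact hv (norm_le_zero_iff.1 h3)
    exact ⟨‖T ⟨v, Submodule.mem_span_singleton_self v⟩‖⁻¹ • T ⟨v, Submodule.mem_span_singleton_self v⟩,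
      by rw [norm_smul, norm_inv, norm_norm, inv_mul_cancel₀ h2]⟩
  -- the dense sequence, starting with zero
  obtain ⟨d₀, hd₀⟩ := TopologicalSpace.exists_dense_seq F
  let d : ℕ → F := fun i => match i with
    | 0 => 0
    | i + 1 => d₀ i
  have hd0 : d 0 = 0 := rfl
  have hds : ∀ i, d (i + 1) = d₀ i := fun i => rfl
  -- the copies
  have hcop : ∀ N : ℕ, ∃ T : Submodule.span ℝ (d '' (Finset.range (N + 1) : Set ℕ)) →ₗ[ℝ] E,
      ∀ g, ‖T g‖ ≤ ‖g‖ ∧ ‖g‖ ≤ C * ‖T g‖ := fun N =>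
    hC _ (FiniteDimensional.span_of_finite ℝ ((Finset.range (N + 1)).finite_toSet.image d))
  choose T hT using hcop
  have hmem : ∀ N i, i ≤ N → d i ∈ Submodule.span ℝ (d '' (Finset.range (N + 1) : Set ℕ)) :=
    fun N i hi => Submodule.subset_span ⟨i, by simpa using Nat.lt_succ_of_le hi, rfl⟩
  let t : ℕ → ℕ → E := fun N i => if h : i ≤ N then T N ⟨d i, hmem N i h⟩ else 0
  have ht : ∀ N i (h : i ≤ N), t N i = T N ⟨d i, hmem N i h⟩ := fun N i h => dif_pos h
  have ht1 : ∀ N, ∀ i ≤ N, ‖t N i‖ ≤ ‖d i‖ := fun N i hi => by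
    rw [ht N i hi]; exact (hT N _).1
  have hsub : ∀ N i (hi : i ≤ N) j (hj : j ≤ N), t N i - t N j =
      T N (⟨d i, hmem N i hi⟩ - ⟨d j, hmem N j hj⟩) := by
    intro N i hi j hj
    rw [ht N i hi, ht N j hj, ← map_sub]
  have ht2 : ∀ N, ∀ i ≤ N, ∀ j ≤ N, ‖d i - d j‖ ≤ C * ‖t N i - t N j‖ := by
    intro N i hi j hj
    rw [hsub N i hi j hj]
    exact (hT N (⟨d i, hmem N i hi⟩ - ⟨d j, hmem N j hj⟩)).2
  have ht3 : ∀ N, ∀ i ≤ N, ∀ j ≤ N, ‖t N i - t N j‖ ≤ ‖d i - d j‖ := by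
    intro N i hi j hj
    rw [hsub N i hi j hj]
    exact (hT N (⟨d i, hmem N i hi⟩ - ⟨d j, hmem N j hj⟩)).1
  have ht0 : ∀ N, t N 0 = 0 := fun N => by
    have := ht1 N 0 (Nat.zero_le N)
    rw [hd0, norm_zero] at this
    exact norm_le_zero_iff.1 this
  -- nearest points
  have hnear : ∀ (x : F) (N : ℕ), ∃ i, i ≤ N ∧ ∀ j ≤ N, ‖x - d i‖ ≤ ‖x - d j‖ := by
    intro x N
    obtain ⟨i, hi1, hi2⟩ := Finset.exists_min_image (Finset.range (N + 1)) (fun j => ‖x - d j‖)
      ⟨0, by simp⟩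
    exact ⟨i, Nat.lt_succ_iff.1 (Finset.mem_range.1 hi1), fun j hj =>
      hi2 j (Finset.mem_range.2 (Nat.lt_succ_of_le hj))⟩
  choose ix hix1 hix2 using hnear
  have hlim : ∀ x : F, Tendsto (fun N => d (ix x N)) atTop (𝓝 x) := by
    intro x
    rw [Metric.tendsto_atTop]
    intro ε hε
    obtain ⟨j, hj⟩ := hd₀.exists_dist_lt x hε
    refine ⟨j + 1, fun N hN => ?_⟩
    rw [dist_eq_norm, norm_sub_rev]
    refine (hix2 x N (j + 1) hN).trans_lt ?_
    rw [hds, ← dist_eq_norm]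
    exact hj
  -- the operator
  let A : Lip0 E → F → ℕ → ℝ := fun f x N =>
    f (pos d N • u₀ + t N (ix x N)) - f (pos d N • u₀)
  have hAsub : ∀ f x y N, |A f x N - A f y N| ≤ ‖f‖ * ‖d (ix x N) - d (ix y N)‖ := by
    intro f x y N
    have e : A f x N - A f y N = f (pos d N • u₀ + t N (ix x N)) -
        f (pos d N • u₀ + t N (ix y N)) := by
      change (f (pos d N • u₀ + t N (ix x N)) - f (pos d N • u₀)) -
        (f (pos d N • u₀ + t N (ix y N)) - f (pos d N • u₀)) = _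
      ring
    rw [e]
    refine (f.abs_sub_le_norm _ _).trans ?_
    rw [add_sub_add_left_eq_sub]
    exact mul_le_mul_of_nonneg_left (ht3 N _ (hix1 x N) _ (hix1 y N)) (norm_nonneg f)
  have hAle : ∀ f x N, |A f x N| ≤ ‖f‖ * ‖d (ix x N)‖ := by
    intro f x N
    have h1 := f.abs_sub_le_norm (pos d N • u₀ + t N (ix x N)) (pos d N • u₀)
    rw [add_sub_cancel_left] at h1
    exact h1.trans (mul_le_mul_of_nonneg_left (ht1 N _ (hix1 x N)) (norm_nonneg f))
  have hix2' : ∀ (x : F) (N : ℕ), ‖d (ix x N)‖ ≤ 2 * ‖x‖ := by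
    intro x N
    have h1 := hix2 x N 0 (Nat.zero_le N)
    rw [hd0, sub_zero] at h1
    have h2 : ‖d (ix x N)‖ ≤ ‖x‖ + ‖x - d (ix x N)‖ := by
      have e : d (ix x N) = x - (x - d (ix x N)) := by abel
      calc ‖d (ix x N)‖ = ‖x - (x - d (ix x N))‖ := by rw [← e]
        _ ≤ _ := norm_sub_le _ _
    linarith
  have hAbd : ∀ f x N, |A f x N| ≤ ‖f‖ * (2 * ‖x‖) := fun f x N =>
    (hAle f x N).trans (mul_le_mul_of_nonneg_left (hix2' x N) (norm_nonneg f))
  have hAt : ∀ f x, Tendsto (fun N => A f x N) (hyperfilter ℕ : Filter ℕ)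
      (𝓝 (ul fun N => A f x N)) := fun f x => ul_tend fun N => hAbd f x N
  have hlip : ∀ f x y, |ul (fun N => A f x N) - ul (fun N => A f y N)| ≤ ‖f‖ * ‖x - y‖ := by
    intro f x y
    have h1 := ((hAt f x).sub (hAt f y)).abs
    have h2 : Tendsto (fun N => ‖f‖ * ‖d (ix x N) - d (ix y N)‖) (hyperfilter ℕ : Filter ℕ)
        (𝓝 (‖f‖ * ‖x - y‖)) :=
      (((hlim x).sub (hlim y)).norm.const_mul ‖f‖).mono_left Nat.hyperfilter_le_atTop
    exact le_of_tendsto_of_tendsto' h1 h2 fun N => hAsub f x y N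
  have hzero : ∀ f, ul (fun N => A f 0 N) = 0 := by
    intro f
    apply ul_eq
    have h2 : Tendsto (fun N => ‖f‖ * ‖d (ix 0 N)‖) (hyperfilter ℕ : Filter ℕ) (𝓝 0) := by
      have h3 := ((hlim 0).norm.const_mul ‖f‖).mono_left Nat.hyperfilter_le_atTop
      rwa [norm_zero, mul_zero] at h3
    exact squeeze_zero_norm (fun N => by rw [Real.norm_eq_abs]; exact hAle f 0 N) h2
  let Q₀ : Lip0 E → Lip0 F := fun f =>
    ⟨fun x => ul fun N => A f x N, hzero f, ‖f‖, fun x y => hlip f x y⟩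
  have hQ₀ : ∀ f x, Q₀ f x = ul fun N => A f x N := fun f x => rfl
  let Q : Lip0 E →L[ℝ] Lip0 F := LinearMap.mkContinuous
    { toFun := Q₀
      map_add' := fun f g => by
        ext x
        rw [Lip0.add_apply, hQ₀, hQ₀, hQ₀, ← ul_add (fun N => hAbd f x N) (fun N => hAbd g x N)]
        congr 1
        funext N
        change (f + g) (pos d N • u₀ + t N (ix x N)) - (f + g) (pos d N • u₀) =
          (f (pos d N • u₀ + t N (ix x N)) - f (pos d N • u₀)) +
          (g (pos d N • u₀ + t N (ix x N)) - g (pos d N • u₀))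
        rw [Lip0.add_apply, Lip0.add_apply]
        ring
      map_smul' := fun c f => by
        ext x
        rw [RingHom.id_apply, Lip0.smul_apply, hQ₀, hQ₀, ← ul_mul c (fun N => hAbd f x N)]
        congr 1
        funext N
        change (c • f) (pos d N • u₀ + t N (ix x N)) - (c • f) (pos d N • u₀) =
          c * (f (pos d N • u₀ + t N (ix x N)) - f (pos d N • u₀))
        rw [Lip0.smul_apply, Lip0.smul_apply]
        ring }
    1 (fun f => by
      rw [one_mul]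
      exact Lip0.norm_le (norm_nonneg f) fun x y => hlip f x y)
  refine ⟨Q, C, fun g => ?_⟩
  obtain ⟨f, hf1, hf2⟩ := exists_lift_copies hu₀ d t hC1 ht1 ht2 g
  refine ⟨f, hf1, ?_⟩
  ext x
  have e : Q f x = ul fun N => A f x N := rfl
  rw [e]
  apply ul_eq
  have h1 : ∀ N, A f x N = g (d (ix x N)) := by
    intro N
    have h2 := hf2 N (ix x N) (hix1 x N)
    have h3 := hf2 N 0 (Nat.zero_le N)
    rw [ht0, add_zero, hd0, Lip0.map_zero] at h3
    change f (pos d N • u₀ + t N (ix x N)) - f (pos d N • u₀) = _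
    rw [h2, h3, sub_zero]
  have hcont : Continuous (fun x => g x) := by
    have hlipg : LipschitzWith ‖g‖₊ (fun x => g x) := by
      apply LipschitzWith.of_dist_le_mul
      intro a b
      rw [Real.dist_eq, dist_eq_norm]
      exact g.abs_sub_le_norm a b
    exact hlipg.continuous
  have h2 : Tendsto (fun N => g (d (ix x N))) (hyperfilter ℕ : Filter ℕ) (𝓝 (g x)) :=
    ((hcont.tendsto x).comp (hlim x)).mono_left Nat.hyperfilter_le_atTop
  exact h2.congr fun N => (h1 N).symm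

theorem grothendieck_of_finRep (hE : IsGrothendieck (Lip0 E)) [TopologicalSpace.SeparableSpace F]
    (hF : CrudelyFinRep F E) : IsGrothendieck (Lip0 F) := by
  rcases subsingleton_or_nontrivial F with h | h
  · intro y _ Φ
    have h1 : ∀ n, y n = 0 := by
      intro n
      ext g
      have : g = 0 := by
        ext x
        rw [Subsingleton.elim x 0, Lip0.map_zero, Lip0.zero_apply]
      rw [this, map_zero, map_zero]
    simp only [h1, map_zero]
    exact tendsto_const_nhds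
  · obtain ⟨Q, K, hQ⟩ := exists_quotient hF
    exact grothendieck_quotient hE Q hQ

end

end Pool.Agent.LipSR
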