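import Pool.Agent.Lib.MP_327cb1_an_h41.Dvoretzky
import Pool.Agent.Lib.MP_327cb1_an_h41.Reduction

/-!
# `Lip₀(ℓ₂)` is a quotient of `Lip₀(E)` for every infinite dimensional `E`
-/

open Filter Topology

namespace Pool.Agent.LipSR

open Pool.Agent.LipL1

variable {E : Type*} [NormedAddCommGroup E] [NormedSpace ℝ E]

theorem asum_le_sq (l : List ℝ) : asum l ≤ (l.length + sq l) / 2 := by
  induction l with
  | nil => simp
  | cons a l ih =>
    rw [asum_cons, sq_cons, List.length_cons]
    push_cast
    have h1 : |a| ≤ (1 + a ^ 2) / 2 := by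
      rw [← sq_abs]
      nlinarith [sq_nonneg (|a| - 1)]
    linarith

/-- The bounds on the mean of the absolute values of the sign sums. -/
theorem asum_vals_one (l : List ℝ) (hl : sq l = 1) :
    (2 : ℝ) ^ l.length ≤ 400 * asum (vals l 0) ∧ asum (vals l 0) ≤ 2 ^ l.length := by
  constructor
  · have h1 := large_vals l hl
    have h2 := countP_mul_le (fun v => |v|) (fun v => abs_nonneg v) (fun v => 1 / 2 ≤ |v|)
      (s := 1 / 2) (fun v hv => hv) (vals l 0)
    have e : ((vals l 0).map fun v => |v|).sum = asum (vals l 0) := rfl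
    rw [e] at h2
    linarith
  · have h1 := asum_le_sq (vals l 0)
    rw [vals_length, sq_vals, hl] at h1
    push_cast at h1
    linarith

theorem asum_map_mul (c : ℝ) (l : List ℝ) : asum (l.map fun v => c * v) = |c| * asum l := by
  induction l with
  | nil => simp
  | cons a l ih => rw [List.map_cons, asum_cons, asum_cons, ih, abs_mul]; ring

theorem sq_map_mul (c : ℝ) (l : List ℝ) : sq (l.map fun v => c * v) = c ^ 2 * sq l := by
  induction l with
  | nil => simp
  | cons a l ih => rw [List.map_cons, sq_cons, sq_cons, ih]; ring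

theorem asum_vals_bounds (l : List ℝ) :
    Real.sqrt (sq l) * 2 ^ l.length ≤ 400 * asum (vals l 0) ∧
      asum (vals l 0) ≤ Real.sqrt (sq l) * 2 ^ l.length := by
  rcases (sq_nonneg' l).eq_or_lt with h | h
  · rw [← h, Real.sqrt_zero, zero_mul]
    have h1 : sq (vals l 0) = 0 := by rw [sq_vals, ← h]; simp
    have h2 : ∀ L : List ℝ, sq L = 0 → asum L = 0 := by
      intro L
      induction L with
      | nil => intro _; rfl
      | cons b L ih =>
        intro h2
        rw [sq_cons] at h2
        have h3 := sq_nonneg' L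
        have h4 := sq_nonneg b
        have h5 : b = 0 := pow_eq_zero_iff (two_ne_zero) |>.1 (by linarith)
        rw [asum_cons, ih (by linarith), h5]
        simp
    rw [h2 _ h1]
    simp
  · have hs : 0 < Real.sqrt (sq l) := Real.sqrt_pos.2 h
    set s := Real.sqrt (sq l) with hsdef
    have hs2 : s ^ 2 = sq l := Real.sq_sqrt h.le
    have h1 : sq (l.map fun v => s⁻¹ * v) = 1 := by
      rw [sq_map_mul, ← hs2, ← mul_pow, inv_mul_cancel₀ hs.ne', one_pow]
    have h2 := asum_vals_one (l.map fun v => s⁻¹ * v) h1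
    have e : vals (l.map fun v => s⁻¹ * v) 0 = (vals l 0).map fun v => s⁻¹ * v := by
      rw [vals_mul, mul_zero]
    rw [e, asum_map_mul, abs_of_pos (inv_pos.2 hs), List.length_map] at h2
    have h3 : s * (s⁻¹ * asum (vals l 0)) = asum (vals l 0) := by
      rw [← mul_assoc, mul_inv_cancel₀ hs.ne', one_mul]
    constructor
    · have h4 := mul_le_mul_of_nonneg_left h2.1 hs.le
      have h5 : s * (400 * (s⁻¹ * asum (vals l 0))) = 400 * asum (vals l 0) := by
        have h6 : s * (400 * (s⁻¹ * asum (vals l 0))) = 400 * (s * (s⁻¹ * asum (vals l 0))) := by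
          ring
        rw [h6, h3]
      linarith
    · have h4 := mul_le_mul_of_nonneg_left h2.2 hs.le
      rw [h3] at h4
      exact h4

/-- The linear combination of a list as a finite sum. -/
theorem lc_eq_sum (l : List ℝ) : ∀ y : ℕ → E,
    lc l y = ∑ i : Fin l.length, l.get i • y i := by
  induction l with
  | nil => intro y; simp
  | cons a l ih =>
    intro y
    rw [lc_cons, ih]
    rw [show (∑ i : Fin (a :: l).length, (a :: l).get i • y i) =
      ∑ i : Fin (l.length + 1), (a :: l).get i • y i from rfl, Fin.sum_univ_succ]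
    rfl

theorem asum_eq_sum (l : List ℝ) : asum l = ∑ i : Fin l.length, |l.get i| := by
  induction l with
  | nil => simp
  | cons a l ih =>
    rw [asum_cons, ih]
    rw [show (∑ i : Fin (a :: l).length, |(a :: l).get i|) =
      ∑ i : Fin (l.length + 1), |(a :: l).get i| from rfl, Fin.sum_univ_succ]
    rfl

theorem l2_of_l1 (hE : ContainsL1nUniformly E) : ContainsL2nUniformly E := by
  obtain ⟨C, hC⟩ := hE
  refine ⟨400 * C, fun n => ?_⟩
  obtain ⟨e, he1, he2⟩ := hC (2 ^ n)
  set y : ℕ → E := fun i => if h : i < 2 ^ n then e ⟨i, h⟩ else 0 with hy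
  have hy1 : ∀ i, ‖y i‖ ≤ 1 := by
    intro i
    simp only [hy]
    split_ifs
    · exact he1 _
    · simp
  have hlow : ∀ l : List ℝ, l.length = 2 ^ n → asum l ≤ C * ‖lc l y‖ := by
    intro l hl
    rw [lc_eq_sum, asum_eq_sum]
    have h1 := he2 (fun i => l.get (Fin.cast hl.symm i))
    have e1 : ∑ i : Fin (2 ^ n), |l.get (Fin.cast hl.symm i)| = ∑ i : Fin l.length, |l.get i| :=
      Fintype.sum_equiv (finCongr hl.symm) _ _ fun i => rfl
    have e2 : ∑ i : Fin (2 ^ n), l.get (Fin.cast hl.symm i) • e i =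
        ∑ i : Fin l.length, l.get i • y i := by
      refine Fintype.sum_equiv (finCongr hl.symm) _ _ fun i => ?_
      have : y (finCongr hl.symm i : Fin l.length) = e i := by
        simp only [hy]
        have hi : ((finCongr hl.symm i : Fin l.length) : ℕ) = i := rfl
        rw [hi, dif_pos i.2]
      rw [this]
      rfl
    rw [e1, e2] at h1
    exact h1
  let f : (Fin n → ℝ) →ₗ[ℝ] E :=
    { toFun := fun a => ((2 : ℝ) ^ n)⁻¹ • lc (vals (List.ofFn a) 0) y
      map_add' := fun a b => by
        rw [← smul_add, ← lc_zipWith _ _ _ (by rw [vals_length, vals_length, List.length_ofFn,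
          List.length_ofFn]), vals_add _ _ _ _ (by rw [List.length_ofFn, List.length_ofFn]),
          zipWith_ofFn, add_zero]
      map_smul' := fun c a => by
        have h1 : vals (List.ofFn (c • a)) 0 = (vals (List.ofFn a) 0).map fun v => c * v := by
          rw [vals_mul, mul_zero, map_ofFn_mul]
        rw [RingHom.id_apply, h1, lc_map_mul, smul_comm] }
  have hf : ∀ a, f a = ((2 : ℝ) ^ n)⁻¹ • lc (vals (List.ofFn a) 0) y := fun a => rfl
  refine ⟨f, fun a => ?_⟩
  have hsq : sq (List.ofFn a) = ∑ i, a i ^ 2 := by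
    rw [sq, List.map_ofFn, List.sum_ofFn]
    rfl
  have h1 := asum_vals_bounds (List.ofFn a)
  rw [hsq, List.length_ofFn] at h1
  have h2 := norm_lc_le (vals (List.ofFn a) 0) y hy1
  have h3 := hlow (vals (List.ofFn a) 0) (by rw [vals_length, List.length_ofFn])
  have hN : (0 : ℝ) < 2 ^ n := by positivity
  rw [hf, norm_smul, norm_inv, Real.norm_eq_abs, abs_of_pos hN]
  constructor
  · rw [inv_mul_le_iff₀ hN]
    linarith [h1.2]
  · have h4 : Real.sqrt (∑ i, a i ^ 2) * 2 ^ n ≤ 400 * C * ‖lc (vals (List.ofFn a) 0) y‖ := by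
      linarith [h1.1]
    rw [← mul_assoc, mul_comm (400 * C), mul_assoc, ← div_eq_inv_mul, le_div_iff₀ hN]
    exact h4

/-- **Dvoretzky's theorem up to constants.** -/
theorem containsL2n (hE : ¬ FiniteDimensional ℝ E) : ContainsL2nUniformly E := by
  rcases dvoretzky hE with h | h
  · exact l2_of_l1 h
  · exact h

/-- Every inner product space is crudely finitely representable in a space that contains the
`ℓ₂ⁿ` uniformly. -/
theorem finRep_of_l2 (hE : ContainsL2nUniformly E) (H : Type*) [NormedAddCommGroup H]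
    [InnerProductSpace ℝ H] : CrudelyFinRep H E := by
  obtain ⟨C, hC⟩ := hE
  refine ⟨C, fun G hG => ?_⟩
  obtain ⟨f, hf⟩ := hC (Module.finrank ℝ G)
  let b := stdOrthonormalBasis ℝ G
  let coord : G →ₗ[ℝ] (Fin (Module.finrank ℝ G) → ℝ) :=
    { toFun := fun g i => b.repr g i
      map_add' := fun g h => by
        funext i
        simp
      map_smul' := fun c g => by
        funext i
        simp }
  let T : G →ₗ[ℝ] E := f.comp coord
  have hT : ∀ g, T g = f (fun i => b.repr g i) := fun g => rfl
  have hn : ∀ g : G, Real.sqrt (∑ i, (b.repr g i) ^ 2) = ‖g‖ := by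
    intro g
    rw [← b.repr.norm_map g, EuclideanSpace.norm_eq]
    congr 1
    apply Finset.sum_congr rfl
    intro i _
    rw [Real.norm_eq_abs, sq_abs]
  refine ⟨T, fun g => ?_⟩
  have h1 := hf (fun i => b.repr g i)
  rw [hn g, ← hT] at h1
  exact h1

/-- The Hilbert space `ℓ₂`. -/
abbrev Hilb : Type := lp (fun _ : ℕ => ℝ) 2

instance separable_hilb : TopologicalSpace.SeparableSpace Hilb := by
  have h1 : TopologicalSpace.IsSeparable
      (closure ((Submodule.span ℝ (Set.range fun i : ℕ => (lp.single 2 i (1 : ℝ) : Hilb)) :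
        Submodule ℝ Hilb) : Set Hilb)) :=
    ((Set.countable_range fun i : ℕ => (lp.single 2 i (1 : ℝ) : Hilb)).isSeparable.span).closure
  have h2 : closure ((Submodule.span ℝ (Set.range fun i : ℕ => (lp.single 2 i (1 : ℝ) : Hilb)) :
        Submodule ℝ Hilb) : Set Hilb) = Set.univ := by
    rw [Set.eq_univ_iff_forall]
    intro f
    have h3 := lp.hasSum_single (p := 2) (by norm_num) f
    refine mem_closure_of_tendsto h3 (Eventually.of_forall fun s => ?_)
    apply Submodule.sum_mem
    intro i _
    have e : (lp.single 2 i (f i) : Hilb) = (f i) • (lp.single 2 i (1 : ℝ) : Hilb) := by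
      rw [← lp.single_smul, smul_eq_mul, mul_one]
    rw [e]
    exact Submodule.smul_mem _ _ (Submodule.subset_span ⟨i, rfl⟩)
  rw [h2] at h1
  exact TopologicalSpace.isSeparable_univ_iff.1 h1

theorem not_finiteDimensional_hilb : ¬ FiniteDimensional ℝ Hilb := by
  intro h
  have b : HilbertBasis ℕ ℝ Hilb := default
  have h1 := b.orthonormal.linearIndependent
  have h2 : Finite ℕ := h1.finite
  exact not_finite ℕ

instance nontrivial_hilb : Nontrivial Hilb := by
  by_contra h
  rw [not_nontrivial_iff_subsingleton] at h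
  exact not_finiteDimensional_hilb inferInstance

/-- `Y` is a quotient of `X`: there is a bounded linear map of `X` onto `Y`. -/
def IsQuotientOf (Y X : Type*) [NormedAddCommGroup Y] [NormedSpace ℝ Y] [NormedAddCommGroup X]
    [NormedSpace ℝ X] : Prop := ∃ Q : X →L[ℝ] Y, Function.Surjective Q

/-- The question of the problem: for some infinite dimensional real Banach space `E`, the space
`Lip₀(E)` is a Grothendieck space. -/
def QuestionOne.{u} : Prop := ∃ (E : Type u) (_ : NormedAddCommGroup E) (_ : NormedSpace ℝ E),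
  CompleteSpace E ∧ ¬ FiniteDimensional ℝ E ∧ IsGrothendieck (Lip0 E)

/-- `Lip₀(ℓ₂)` is a Grothendieck space. -/
def LipHilbGrothendieck : Prop := IsGrothendieck (Lip0 Hilb)

/-- `Lip₀(ℓ₂)` is a quotient of `Lip₀(E)`. -/
def LipHilbQuotient (E : Type*) [NormedAddCommGroup E] [NormedSpace ℝ E] : Prop :=
  IsQuotientOf (Lip0 Hilb) (Lip0 E)

/-- For every infinite dimensional `E`, `Lip₀(ℓ₂)` is a quotient of `Lip₀(E)`. -/
theorem exists_quotient_hilb (hE : ¬ FiniteDimensional ℝ E) :
    ∃ (Q : Lip0 E →L[ℝ] Lip0 Hilb) (K : ℝ), ∀ g, ∃ f, ‖f‖ ≤ K * ‖g‖ ∧ Q f = g :=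
  exists_quotient (finRep_of_l2 (containsL2n hE) Hilb)

end Pool.Agent.LipSR
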