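import Pool.Agent.Lib.MP_327cb1_an_h41.Realize

/-!
# Good arrays in a space that does not contain the `ℓ₁ⁿ` uniformly
-/

open Filter Topology

namespace Pool.Agent.LipSR

open Pool.Agent.LipL1

variable {E : Type*} [NormedAddCommGroup E] [NormedSpace ℝ E]

/-- `y₀,…,y_{N-1}` can be `θ`-separated at every cut by a norm one functional. -/
def Sep (θ : ℝ) (N : ℕ) (y : ℕ → E) : Prop :=
  ∀ k, ∃ φ : E →L[ℝ] ℝ, ‖φ‖ ≤ 1 ∧ ∀ i ≤ k, ∀ j, k < j → j < N → θ ≤ φ (y j) - φ (y i)

/-- The entries are `-1`, `0` or `1`. -/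
def Tri (l : List ℝ) : Prop := ∀ a ∈ l, a = -1 ∨ a = 0 ∨ a = 1

theorem finite_tri (N : ℕ) : {l : List ℝ | l.length = N ∧ Tri l}.Finite := by
  set p : ℝ → Prop := fun a => a = -1 ∨ a = 0 ∨ a = 1 with hp
  have hfin : Finite {a : ℝ // p a} := by
    have h1 : ({-1, 0, 1} : Set ℝ).Finite := by simp
    have h2 : {a : ℝ | p a} ⊆ ({-1, 0, 1} : Set ℝ) := by
      intro a ha
      simpa [hp] using ha
    exact (h1.subset h2).to_subtype
  have h3 : {l : List {a : ℝ // p a} | l.length = N}.Finite := List.finite_length_eq _ N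
  refine (h3.image (List.map Subtype.val)).subset ?_
  rintro l ⟨hl, ht⟩
  have ht' : ∀ a ∈ l, p a := ht
  lift l to List {a : ℝ // p a} using ht'
  refine ⟨l, ?_, rfl⟩
  simpa using hl

theorem exists_arrays (hE : ¬ ContainsL1nUniformly E) {x : ℕ → ℕ → E} {θ : ℝ}
    (hx : ∀ M n, ‖x M n‖ ≤ 1) (hsep : ∀ M, Sep θ M (x M)) :
    ∃ (y : ℕ → ℕ → E) (s : ℕ → ℝ), (∀ N i, ‖y N i‖ ≤ 1) ∧ (∀ N, Sep θ N (y N)) ∧
      (∀ ε : ℝ, 0 < ε → ∃ K : ℕ, 1 ≤ K ∧ s K ≤ ε * K) ∧
      ∀ (N : ℕ) (l : List ℝ) (K : ℕ), l.length ≤ N → Tri l →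
        (l.filter fun a => decide (a ≠ 0)) = dbl (List.replicate K 1) → ‖lc l (y N)‖ ≤ s K := by
  have h1 : ∀ N : ℕ, ∃ y : ℕ → E, (∀ i, ‖y i‖ ≤ 1) ∧ Sep θ N y ∧
      ∀ l : List ℝ, l.length = N → Tri l → |‖lc l y‖ - rho x l (fun _ => 0)| < 1 := by
    intro N
    have hfin : Finite {l : List ℝ // l.length = N ∧ Tri l} := (finite_tri N).to_subtype
    obtain ⟨idx, M, -, hidx1, hidx2, hM⟩ := realize hx (ι := {l : List ℝ // l.length = N ∧ Tri l})
      N (fun l => l.1) (fun _ _ => 0) (fun l => l.2.1) (fun _ => bd0) 1 one_pos 0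
    refine ⟨fun i => x M (idx i), fun i => hx _ _, ?_, ?_⟩
    · intro k
      rcases Nat.lt_or_ge (k + 1) N with hk | hk
      · obtain ⟨φ, hφ1, hφ2⟩ := hsep M (idx k)
        refine ⟨φ, hφ1, fun i hi j hj hjN => ?_⟩
        apply hφ2
        · rcases hi.eq_or_lt with rfl | hi
          · exact le_rfl
          · exact (hidx2 i k hi (by omega)).le
        · exact hidx2 k j hj hjN
        · exact (hidx1 j hjN).2
      · exact ⟨0, by simp, fun i hi j hj hjN => by omega⟩
    · intro l hl ht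
      have := hM ⟨l, hl, ht⟩
      simpa only [zero_add] using this
  choose y hy1 hy2 hy3 using h1
  refine ⟨y, fun K => sig x K + 1, hy1, hy2, ?_, ?_⟩
  · rcases dichotomy hx with h | h
    · exact absurd h hE
    · exact h
  · intro N l K hl ht hf
    have h2 := hy3 N (l ++ List.replicate (N - l.length) 0) (by simp; omega) (by
      intro a ha
      rw [List.mem_append] at ha
      rcases ha with ha | ha
      · exact ht a ha
      · right; left
        exact List.eq_of_mem_replicate ha)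
    rw [lc_append, lc_replicate_zero, add_zero] at h2
    have h3 : rho x (l ++ List.replicate (N - l.length) 0) (fun _ => 0) = sig x K := by
      apply rho_congr_filter
      rw [List.filter_append, hf, dbl_filter]
      simp
    rw [h3] at h2
    have := (abs_lt.1 h2).2
    linarith

end Pool.Agent.LipSR
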