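import Pool.Agent.Lib.MP_327cb1_an_h41.Rademacher

/-!
# Dvoretzky's theorem up to constants

Every infinite dimensional normed space contains the `ℓ₁ⁿ` uniformly or the `ℓ₂ⁿ` uniformly.
-/

open Filter Topology

namespace Pool.Agent.LipSR

open Pool.Agent.LipL1

/-! ### Elementary sums -/

theorem le_sum_indicator (K : ℕ) : ∀ t : ℝ, 0 ≤ t → t ≤ K →
    t ≤ ∑ k ∈ Finset.range K, if (k : ℝ) ≤ t then (1 : ℝ) else 0 := by
  induction K with
  | zero => intro t _ ht; simpa using ht
  | succ K ih =>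
    intro t ht0 ht
    rw [Finset.sum_range_succ]
    rcases le_or_gt t K with h | h
    · have h1 := ih t ht0 h
      have h2 : (0 : ℝ) ≤ if (K : ℝ) ≤ t then (1 : ℝ) else 0 := by split_ifs <;> norm_num
      linarith
    · rw [if_pos h.le]
      have h1 : ∑ k ∈ Finset.range K, (if (k : ℝ) ≤ t then (1 : ℝ) else 0) =
          ∑ k ∈ Finset.range K, (1 : ℝ) := by
        apply Finset.sum_congr rfl
        intro k hk
        rw [if_pos]
        have : (k : ℝ) ≤ K := by exact_mod_cast (Finset.mem_range.1 hk).le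
        linarith
      rw [h1, Finset.sum_const, Finset.card_range, nsmul_eq_mul, mul_one]
      push_cast at ht
      exact ht

theorem sum_half_div {L : ℕ} (hL : 1 ≤ L) (J : ℕ) :
    ∑ k ∈ Finset.range (L * J), (1 / 2 : ℝ) ^ (k / L) ≤ 2 * L * (1 - (1 / 2) ^ J) := by
  induction J with
  | zero => simp
  | succ J ih =>
    have e : L * (J + 1) = L * J + L := by ring
    rw [e, Finset.sum_range_add]
    have h1 : ∑ i ∈ Finset.range L, (1 / 2 : ℝ) ^ ((L * J + i) / L) = L * (1 / 2) ^ J := by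
      have h2 : ∀ i ∈ Finset.range L, (1 / 2 : ℝ) ^ ((L * J + i) / L) = (1 / 2) ^ J := by
        intro i hi
        congr 1
        rw [Nat.mul_add_div (by omega), Nat.div_eq_of_lt (Finset.mem_range.1 hi), add_zero]
      rw [Finset.sum_congr rfl h2, Finset.sum_const, Finset.card_range, nsmul_eq_mul]
    rw [h1, pow_succ]
    have h3 : 2 * (L : ℝ) * (1 - (1 / 2) ^ J) + L * (1 / 2) ^ J =
        2 * L * (1 - (1 / 2) ^ J * (1 / 2)) := by ring
    linarith

theorem sum_half_sub {L : ℕ} (hL : 1 ≤ L) (K : ℕ) :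
    ∑ k ∈ Finset.range K, (1 / 2 : ℝ) ^ ((k - 2) / L) ≤ 2 + 2 * L := by
  have hnn : ∀ j : ℕ, (0 : ℝ) ≤ (1 / 2) ^ j := fun j => by positivity
  have h1 : ∑ k ∈ Finset.range K, (1 / 2 : ℝ) ^ ((k - 2) / L) ≤
      ∑ k ∈ Finset.range (K + 2), (1 / 2 : ℝ) ^ ((k - 2) / L) :=
    Finset.sum_le_sum_of_subset_of_nonneg (by
      intro k hk
      rw [Finset.mem_range] at hk ⊢
      omega) fun _ _ _ => hnn _
  have h2 : ∑ k ∈ Finset.range (K + 2), (1 / 2 : ℝ) ^ ((k - 2) / L) =
      ∑ k ∈ Finset.range K, (1 / 2 : ℝ) ^ (k / L) + 2 := by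
    rw [Finset.sum_range_succ', Finset.sum_range_succ']
    simp
    ring
  have h3 : ∑ k ∈ Finset.range K, (1 / 2 : ℝ) ^ (k / L) ≤
      ∑ k ∈ Finset.range (L * K), (1 / 2 : ℝ) ^ (k / L) :=
    Finset.sum_le_sum_of_subset_of_nonneg (by
      intro k hk
      rw [Finset.mem_range] at hk ⊢
      nlinarith) fun _ _ _ => hnn _
  have h4 := sum_half_div hL K
  have h5 : 2 * (L : ℝ) * (1 - (1 / 2) ^ K) ≤ 2 * L := by
    have := hnn K
    have h6 : (0 : ℝ) ≤ L := Nat.cast_nonneg L
    nlinarith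
  linarith

variable {E : Type*} [NormedAddCommGroup E] [NormedSpace ℝ E]

section

variable {x : ℕ → ℕ → E} (hx : ∀ M n, ‖x M n‖ ≤ 1)
include hx

theorem growth {R₀ : ℕ} (hR1 : 1 ≤ R₀) (hR : ∀ k, 1 ≤ k → 2 * sig x k ≤ sig x (R₀ * k))
    (k : ℕ) (hk : 1 ≤ k) (j : ℕ) : 2 ^ j * sig x k ≤ sig x (R₀ ^ j * k) := by
  induction j with
  | zero => simp
  | succ j ih =>
    have h1 : 1 ≤ R₀ ^ j * k := Nat.mul_pos (Nat.pow_pos hR1) hk
    have h2 := hR _ h1
    have e : R₀ ^ (j + 1) * k = R₀ * (R₀ ^ j * k) := by ring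
    rw [e, pow_succ]
    linarith

theorem sig_level {R₀ L : ℕ} (hR1 : 1 ≤ R₀) (hR : ∀ k, 1 ≤ k → 2 * sig x k ≤ sig x (R₀ * k))
    (hL : (R₀ : ℝ) ≤ Real.exp L) (l : List ℝ) (hl : sq l ≤ 1) (k : ℕ) :
    sig x ((vals l 0).countP fun v => decide ((k : ℝ) ≤ |v|)) ≤
      (1 / 2) ^ ((k - 2) / L) * sig x (2 ^ l.length) := by
  set m := (vals l 0).countP fun v => decide ((k : ℝ) ≤ |v|) with hm
  set j := (k - 2) / L with hj
  have hmN : m ≤ 2 ^ l.length := by
    rw [← vals_length l 0]
    exact List.countP_le_length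
  rcases Nat.eq_zero_or_pos m with h0 | h0
  · rw [h0, sig_zero hx]
    have := sig_nonneg hx (2 ^ l.length)
    positivity
  rcases lt_or_ge k 2 with hk | hk
  · have hj0 : j = 0 := by
      rw [hj, Nat.sub_eq_zero_of_le hk.le, Nat.zero_div]
    rw [hj0, pow_zero, one_mul]
    exact sig_mono hx hmN
  · have hjL : j * L + 2 ≤ k := by
      have h9 := Nat.div_mul_le_self (k - 2) L
      rw [← hj] at h9
      omega
    have htail := tail_vals l hl k
    rw [← hm] at htail
    have h1 : R₀ ^ j * m ≤ 2 ^ l.length := by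
      have h2 : ((R₀ : ℝ) ^ j) * m ≤ 2 ^ l.length := by
        have h3 : (R₀ : ℝ) ^ j ≤ Real.exp (j * L) := by
          rw [Real.exp_nat_mul]
          exact pow_le_pow_left₀ (Nat.cast_nonneg _) hL j
        have h4 : Real.exp (j * L) * 4 ≤ Real.exp k := by
          have h5 : (4 : ℝ) ≤ Real.exp 2 := by
            have h6 : Real.exp 2 = Real.exp 1 * Real.exp 1 := by
              rw [← Real.exp_add]; norm_num
            have h7 := Real.exp_one_gt_d9
            rw [h6]
            nlinarith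
          have h8 : Real.exp (j * L) * Real.exp 2 ≤ Real.exp k := by
            rw [← Real.exp_add]
            apply Real.exp_le_exp.2
            exact_mod_cast hjL
          have h9 := mul_le_mul_of_nonneg_left h5 (Real.exp_nonneg ((j : ℝ) * L))
          linarith
        have h10 : (R₀ : ℝ) ^ j * m * Real.exp k ≤ 2 ^ l.length * Real.exp k := by
          calc (R₀ : ℝ) ^ j * m * Real.exp k = (R₀ : ℝ) ^ j * (m * Real.exp k) := by ring
            _ ≤ Real.exp (j * L) * (2 ^ l.length * 4) :=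
                mul_le_mul h3 htail (by positivity) (Real.exp_nonneg _)
            _ = 2 ^ l.length * (Real.exp (j * L) * 4) := by ring
            _ ≤ 2 ^ l.length * Real.exp k := mul_le_mul_of_nonneg_left h4 (by positivity)
        exact le_of_mul_le_mul_right h10 (Real.exp_pos _)
      exact_mod_cast h2
    have h2 := (growth hx hR1 hR m h0 j).trans (sig_mono hx h1)
    have h3 : (1 / 2 : ℝ) ^ j * (2 ^ j * sig x m) = sig x m := by
      rw [← mul_assoc, ← mul_pow]
      norm_num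
    rw [← h3]
    exact mul_le_mul_of_nonneg_left h2 (by positivity)

theorem tau_vals_upper_one {R₀ L : ℕ} (hR1 : 1 ≤ R₀)
    (hR : ∀ k, 1 ≤ k → 2 * sig x k ≤ sig x (R₀ * k))
    (hL1 : 1 ≤ L) (hL : (R₀ : ℝ) ≤ Real.exp L) (l : List ℝ) (hl : sq l ≤ 1) :
    tau x (vals l 0) ≤ 2 * ((2 + 2 * L) * sig x (2 ^ l.length)) := by
  obtain ⟨K, hK⟩ := exists_nat_gt (asum l)
  set G : ℝ → ℝ := fun v => ∑ k ∈ Finset.range K, if (k : ℝ) ≤ |v| then (1 : ℝ) else 0 with hG
  have hG0 : ∀ v, 0 ≤ G v := fun v => Finset.sum_nonneg fun k _ => by split_ifs <;> norm_num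
  have h1 : tau x ((vals l 0).map fun v => v) ≤ 2 * tau x ((vals l 0).map G) := by
    apply tau_map_le_two hx
    intro v hv
    rw [abs_of_nonneg (hG0 v)]
    apply le_sum_indicator K _ (abs_nonneg v)
    have := abs_vals_le l 0 v hv
    rw [abs_zero, zero_add] at this
    linarith
  rw [List.map_id'] at h1
  have h2 := tau_map_sum hx (fun k v => if (k : ℝ) ≤ |v| then (1 : ℝ) else 0) (vals l 0) K
  have h3 : ∑ k ∈ Finset.range K, tau x ((vals l 0).map fun v => if (k : ℝ) ≤ |v| then (1 : ℝ) else 0)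
      ≤ ∑ k ∈ Finset.range K, (1 / 2 : ℝ) ^ ((k - 2) / L) * sig x (2 ^ l.length) := by
    apply Finset.sum_le_sum
    intro k _
    rw [tau_indicator]
    exact sig_level hx hR1 hR hL l hl k
  rw [← Finset.sum_mul] at h3
  have h4 := mul_le_mul_of_nonneg_right (sum_half_sub hL1 K) (sig_nonneg hx (2 ^ l.length))
  linarith

theorem tau_vals_lower_one (l : List ℝ) (hl : sq l = 1) :
    sig x (2 ^ l.length) ≤ 800 * tau x (vals l 0) := by
  have h1 := large_vals l hl
  set m := (vals l 0).countP fun v => decide (1 / 2 ≤ |v|) with hm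
  have h2 : 2 ^ l.length ≤ 200 * m := by exact_mod_cast h1
  have h3 := (sig_mono hx h2).trans (sig_mul_le hx 200 m)
  have h4 : tau x ((vals l 0).map fun v => (1 / 2) * if 1 / 2 ≤ |v| then (1 : ℝ) else 0) ≤
      2 * tau x ((vals l 0).map fun v => v) := by
    apply tau_map_le_two hx
    intro v _
    split_ifs with h
    · rw [mul_one, abs_of_pos (by norm_num)]
      exact h
    · rw [mul_zero, abs_zero]
      exact abs_nonneg v
  rw [List.map_id', tau_map_mul hx, tau_indicator, ← hm, abs_of_pos (by norm_num)] at h4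
  push_cast at h3
  linarith

theorem tau_vals_scale (l : List ℝ) {s : ℝ} (hs : 0 < s) :
    tau x (vals l 0) = s * tau x (vals (l.map fun v => s⁻¹ * v) 0) := by
  have e : vals (l.map fun v => s⁻¹ * v) 0 = (vals l 0).map fun v => s⁻¹ * v := by
    rw [vals_mul, mul_zero]
  rw [e, tau_smul hx, abs_of_pos (inv_pos.2 hs), ← mul_assoc, mul_inv_cancel₀ hs.ne', one_mul]

theorem tau_vals_bounds {R₀ L : ℕ} (hR1 : 1 ≤ R₀)
    (hR : ∀ k, 1 ≤ k → 2 * sig x k ≤ sig x (R₀ * k))
    (hL1 : 1 ≤ L) (hL : (R₀ : ℝ) ≤ Real.exp L) (l : List ℝ) :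
    Real.sqrt (sq l) * sig x (2 ^ l.length) ≤ 800 * tau x (vals l 0) ∧
      tau x (vals l 0) ≤ Real.sqrt (sq l) * (2 * ((2 + 2 * L) * sig x (2 ^ l.length))) := by
  rcases (sq_nonneg' l).eq_or_lt with h | h
  · -- all coefficients vanish
    have h0 : tau x (vals l 0) = 0 := by
      have hz : ∀ a ∈ l, a = 0 := by
        intro a ha
        have h1 : ∀ L : List ℝ, sq L = 0 → ∀ a ∈ L, a = 0 := by
          intro L
          induction L with
          | nil => intro _ a ha; simp at ha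
          | cons b L ih =>
            intro h2 a ha
            rw [sq_cons] at h2
            have h3 := sq_nonneg' L
            have h4 := sq_nonneg b
            rcases List.mem_cons.1 ha with rfl | ha
            · exact pow_eq_zero_iff (two_ne_zero) |>.1 (by linarith)
            · exact ih (by linarith) a ha
        exact h1 l h.symm a ha
      have e : l = l.map fun v => (0 : ℝ) * v := by
        conv_lhs => rw [← List.map_id' l]
        apply List.map_congr_left
        intro a ha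
        rw [hz a ha, mul_zero]
      rw [e]
      have e2 : vals (l.map fun v => (0 : ℝ) * v) 0 = (vals l 0).map fun v => (0 : ℝ) * v := by
        rw [vals_mul, mul_zero]
      rw [e2, tau_smul hx, abs_zero, zero_mul]
    rw [← h, h0, Real.sqrt_zero]
    simp
  · have hs : 0 < Real.sqrt (sq l) := Real.sqrt_pos.2 h
    set s := Real.sqrt (sq l) with hsdef
    have hs2 : s ^ 2 = sq l := Real.sq_sqrt h.le
    have h1 : sq (l.map fun v => s⁻¹ * v) = 1 := by
      have h2 : ∀ (c : ℝ) (L : List ℝ), sq (L.map fun v => c * v) = c ^ 2 * sq L := by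
        intro c L
        induction L with
        | nil => simp
        | cons b L ih => rw [List.map_cons, sq_cons, sq_cons, ih]; ring
      rw [h2, ← hs2, ← mul_pow, inv_mul_cancel₀ hs.ne', one_pow]
    have h2 := tau_vals_lower_one hx (l.map fun v => s⁻¹ * v) h1
    have h3 := tau_vals_upper_one hx hR1 hR hL1 hL (l.map fun v => s⁻¹ * v) h1.le
    rw [List.length_map] at h2 h3
    rw [tau_vals_scale hx l hs]
    constructor
    · have := mul_le_mul_of_nonneg_left h2 hs.le
      linarith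
    · exact mul_le_mul_of_nonneg_left h3 hs.le

end

/-! ### Realisation of norms on finite dimensional spaces -/

/-- A seminorm on `ℝⁿ` which can be approximated on finite sets by maps into `E` can be
approximated everywhere. -/
theorem net_all {n : ℕ} {L : ℝ} (hL0 : 0 ≤ L) (p : (Fin n → ℝ) → ℝ)
    (hp_add : ∀ a b, p (a + b) ≤ p a + p b) (hp_smul : ∀ (c : ℝ) a, p (c • a) = |c| * p a)
    (hp_le : ∀ a, p a ≤ L * ‖a‖) (T : Set ((Fin n → ℝ) →ₗ[ℝ] E))
    (hT : ∀ f ∈ T, ∀ a, ‖f a‖ ≤ L * ‖a‖)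
    (hfin : ∀ t : Set (Fin n → ℝ), t.Finite → ∀ ε : ℝ, 0 < ε → ∃ f ∈ T, ∀ a ∈ t,
      |‖f a‖ - p a| < ε) :
    ∀ ε : ℝ, 0 < ε → ∃ f ∈ T, ∀ a, |‖f a‖ - p a| ≤ ε * ‖a‖ := by
  intro ε hε
  have hη : 0 < ε / (4 * (L + 1)) := by positivity
  obtain ⟨t, -, htf, ht⟩ := (isCompact_closedBall (0 : Fin n → ℝ) 1).finite_cover_balls hη
  obtain ⟨f, hf, hft⟩ := hfin t htf (ε / 2) (half_pos hε)
  refine ⟨f, hf, ?_⟩
  have hp_sub : ∀ a b, |p a - p b| ≤ L * ‖a - b‖ := by
    intro a b
    have h1 := hp_add (a - b) b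
    have h2 := hp_add (b - a) a
    rw [sub_add_cancel] at h1 h2
    have h3 := hp_le (a - b)
    have h4 := hp_le (b - a)
    rw [norm_sub_rev] at h4
    rw [abs_le]
    constructor <;> linarith
  have hone : ∀ a, ‖a‖ ≤ 1 → |‖f a‖ - p a| ≤ ε := by
    intro a ha
    have h1 := ht (mem_closedBall_zero_iff.2 ha)
    simp only [Set.mem_iUnion, exists_prop] at h1
    obtain ⟨b, hb, hab⟩ := h1
    rw [Metric.mem_ball, dist_eq_norm] at hab
    have h2 := hft b hb
    have h3 : |‖f a‖ - ‖f b‖| ≤ L * ‖a - b‖ := by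
      refine (abs_norm_sub_norm_le _ _).trans ?_
      rw [← map_sub]
      exact hT f hf _
    have h4 := hp_sub a b
    have h5 : L * ‖a - b‖ ≤ ε / 4 := by
      have h6 : L * ‖a - b‖ ≤ (L + 1) * (ε / (4 * (L + 1))) := by
        apply mul_le_mul (by linarith) hab.le (norm_nonneg _) (by linarith)
      have h7 : (L + 1) * (ε / (4 * (L + 1))) = ε / 4 := by field_simp
      linarith
    have e : ‖f a‖ - p a = (‖f a‖ - ‖f b‖) + (‖f b‖ - p b) - (p a - p b) := by ring
    rw [e]
    refine (abs_sub _ _).trans ?_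
    have h8 := abs_add_le (‖f a‖ - ‖f b‖) (‖f b‖ - p b)
    linarith
  intro a
  rcases eq_or_ne a 0 with rfl | ha
  · have h1 := hp_smul 0 0
    rw [zero_smul, abs_zero, zero_mul] at h1
    rw [map_zero, norm_zero, h1]
    simp
  · have hn : 0 < ‖a‖ := norm_pos_iff.2 ha
    have h1 := hone (‖a‖⁻¹ • a) (by rw [norm_smul, norm_inv, norm_norm, inv_mul_cancel₀ hn.ne'])
    rw [map_smul, norm_smul, hp_smul, norm_inv, norm_norm, abs_of_pos (inv_pos.2 hn),
      ← mul_sub, abs_mul, abs_of_pos (inv_pos.2 hn), inv_mul_eq_div, div_le_iff₀ hn] at h1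
    exact h1

theorem lc_zipWith (l : List ℝ) : ∀ (l' : List ℝ) (y : ℕ → E), l.length = l'.length →
    lc (List.zipWith (· + ·) l l') y = lc l y + lc l' y := by
  induction l with
  | nil =>
    intro l' y h
    have : l' = [] := by
      cases l' with
      | nil => rfl
      | cons _ _ => simp at h
    subst this
    simp
  | cons a l ih =>
    intro l' y h
    cases l' with
    | nil => simp at h
    | cons b l' =>
      have h' : l.length = l'.length := by simpa using h
      rw [List.zipWith_cons_cons, lc_cons, lc_cons, lc_cons, ih l' _ h', add_smul]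
      abel

theorem zipWith_ofFn (n : ℕ) : ∀ a b : Fin n → ℝ,
    List.zipWith (· + ·) (List.ofFn a) (List.ofFn b) = List.ofFn (a + b) := by
  induction n with
  | zero => intro a b; simp
  | succ n ih =>
    intro a b
    rw [List.ofFn_succ, List.ofFn_succ, List.ofFn_succ, List.zipWith_cons_cons, ih]
    rfl

theorem map_ofFn_mul (n : ℕ) (c : ℝ) (a : Fin n → ℝ) :
    ((List.ofFn a).map fun v => c * v) = List.ofFn (c • a) := by
  rw [List.map_ofFn]
  rfl

/-- The coefficients of the block sums of all signs. -/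
def S (k : ℕ) {n : ℕ} (a : Fin n → ℝ) : List ℝ := dbl (bl k (vals (List.ofFn a) 0))

theorem S_length (k : ℕ) {n : ℕ} (a : Fin n → ℝ) : (S k a).length = 2 * (k * 2 ^ n) := by
  rw [S, dbl_length, bl_length, vals_length, List.length_ofFn]

theorem S_add (k : ℕ) {n : ℕ} (a b : Fin n → ℝ) :
    List.zipWith (· + ·) (S k a) (S k b) = S k (a + b) := by
  unfold S
  rw [dbl_zipWith, bl_zipWith _ _ _ (by rw [vals_length, vals_length, List.length_ofFn,
    List.length_ofFn]), vals_add _ _ _ _ (by rw [List.length_ofFn, List.length_ofFn]),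
    zipWith_ofFn, add_zero]

theorem S_smul (k : ℕ) {n : ℕ} (c : ℝ) (a : Fin n → ℝ) :
    ((S k a).map fun v => c * v) = S k (c • a) := by
  unfold S
  rw [← dbl_map_mul, ← bl_map, vals_mul, mul_zero, map_ofFn_mul]

theorem asum_ofFn_le {n : ℕ} (a : Fin n → ℝ) : asum (List.ofFn a) ≤ n * ‖a‖ := by
  rw [asum, List.map_ofFn, List.sum_ofFn]
  calc ∑ i, ((fun b : ℝ => |b|) ∘ a) i ≤ ∑ _i : Fin n, ‖a‖ :=
        Finset.sum_le_sum fun i _ => norm_le_pi_norm a i
    _ = n * ‖a‖ := by simp

theorem asum_dbl (l : List ℝ) : asum (dbl l) = 2 * asum l := by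
  induction l with
  | nil => simp [dbl]
  | cons a l ih => rw [dbl, asum_cons, asum_cons, asum_cons, ih, abs_neg]; ring

theorem asum_bl (k : ℕ) (l : List ℝ) : asum (bl k l) = k * asum l := by
  induction l with
  | nil => simp [bl]
  | cons a l ih =>
    rw [bl, asum_append, ih, asum_cons]
    have : ∀ j : ℕ, asum (List.replicate j a) = j * |a| := by
      intro j
      induction j with
      | zero => simp
      | succ j ih => rw [List.replicate_succ, asum_cons, ih]; push_cast; ring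
    rw [this]
    ring

theorem asum_S_le (k : ℕ) {n : ℕ} (a : Fin n → ℝ) :
    asum (S k a) ≤ (2 * k * 2 ^ n * n) * ‖a‖ := by
  unfold S
  rw [asum_dbl, asum_bl]
  have h1 := asum_vals_le (List.ofFn a) 0
  rw [abs_zero, zero_add, List.length_ofFn] at h1
  have h2 := asum_ofFn_le a
  have h3 : (2 : ℝ) ^ n * asum (List.ofFn a) ≤ 2 ^ n * (n * ‖a‖) :=
    mul_le_mul_of_nonneg_left h2 (by positivity)
  have h4 : (0 : ℝ) ≤ k := Nat.cast_nonneg k
  have h5 := mul_le_mul_of_nonneg_left (h1.trans h3) h4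
  nlinarith

/-- The operator given by an array. -/
noncomputable def opS (k n : ℕ) (y : ℕ → E) : (Fin n → ℝ) →ₗ[ℝ] E where
  toFun a := lc (S k a) y
  map_add' a b := by
    rw [← S_add, lc_zipWith _ _ _ (by rw [S_length, S_length])]
  map_smul' c a := by
    rw [← S_smul, lc_map_mul, RingHom.id_apply]

theorem opS_apply (k n : ℕ) (y : ℕ → E) (a : Fin n → ℝ) : opS k n y a = lc (S k a) y := rfl

section

variable {x : ℕ → ℕ → E} (hx : ∀ M n, ‖x M n‖ ≤ 1)
include hx

theorem realize_S (k n : ℕ) {ε : ℝ} (hε : 0 < ε) : ∃ f : (Fin n → ℝ) →ₗ[ℝ] E,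
    ∀ a, |‖f a‖ - tau x (bl k (vals (List.ofFn a) 0))| ≤ ε * ‖a‖ := by
  have hL0 : (0 : ℝ) ≤ 2 * k * 2 ^ n * n := by positivity
  obtain ⟨f, -, hf⟩ := net_all (E := E) hL0 (fun a => rho x (S k a) (fun _ => 0))
    (fun a b => by
      have h := rho_add hx (S k a) (S k b) (by rw [S_length, S_length]) (bd0 (E := E))
        (bd0 (E := E))
      rw [S_add] at h
      simpa only [add_zero] using h)
    (fun c a => by
      have h := rho_smul hx c (S k a) (bd0 (E := E))
      rw [S_smul] at h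
      simpa only [smul_zero] using h)
    (fun a => by
      have h := (rho_bound hx (S k a) (fun _ => 0) 0 (fun M => by simp)).2
      rw [zero_add] at h
      exact h.trans (asum_S_le k a))
    {f | ∃ y : ℕ → E, (∀ i, ‖y i‖ ≤ 1) ∧ f = opS k n y}
    (by
      rintro _ ⟨y, hy, rfl⟩ a
      exact (norm_lc_le _ _ hy).trans (asum_S_le k a))
    (by
      intro t ht δ hδ
      have : Finite t := ht
      obtain ⟨idx, M, -, -, -, hM⟩ := realize hx (ι := t) (2 * (k * 2 ^ n))
        (fun a => S k a.1) (fun _ _ => 0) (fun a => S_length k a.1) (fun _ => bd0) δ hδ 0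
      refine ⟨opS k n (fun i => x M (idx i)), ⟨_, fun i => hx _ _, rfl⟩, fun a ha => ?_⟩
      have h := hM ⟨a, ha⟩
      simp only [zero_add] at h
      exact h) ε hε
  exact ⟨f, hf⟩

/-- No growth of `sig` gives the `ℓ₁ⁿ` uniformly (through the `ℓ_∞ⁿ`). -/
theorem containsL1n_of_flat (hpos : ∀ k, 1 ≤ k → 0 < sig x k)
    (hflat : ∀ R₀ : ℕ, 1 ≤ R₀ → ∃ k, 1 ≤ k ∧ sig x (R₀ * k) < 2 * sig x k) :
    ContainsL1nUniformly E := by
  refine ⟨10, fun n => ?_⟩
  obtain ⟨k, hk1, hk⟩ := hflat (2 ^ n) Nat.one_le_two_pow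
  have hsk := hpos k hk1
  obtain ⟨f, hf⟩ := realize_S hx k n (half_pos hsk)
  set p : (Fin n → ℝ) → ℝ := fun a => tau x (bl k (vals (List.ofFn a) 0)) with hp
  have hlow : ∀ a : Fin n → ℝ, sig x k * ∑ i, |a i| ≤ p a := by
    intro a
    obtain ⟨v, hv, hv'⟩ := exists_max_vals (List.ofFn a) 0
    have h1 := tau_sublist hx (replicate_sublist_bl k hv)
    rw [tau_replicate hx] at h1
    have h2 : asum (List.ofFn a) = ∑ i, |a i| := by
      rw [asum, List.map_ofFn, List.sum_ofFn]
      rfl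
    rw [abs_zero, zero_add, h2] at hv'
    calc sig x k * ∑ i, |a i| ≤ sig x k * |v| := mul_le_mul_of_nonneg_left hv' hsk.le
      _ = |v| * sig x k := mul_comm _ _
      _ ≤ p a := h1
  have hup : ∀ a : Fin n → ℝ, ∑ i, |a i| ≤ 1 → p a ≤ 4 * sig x k := by
    intro a ha
    have h2 : asum (List.ofFn a) = ∑ i, |a i| := by
      rw [asum, List.map_ofFn, List.sum_ofFn]
      rfl
    have h1 : tau x ((bl k (vals (List.ofFn a) 0)).map fun v => v) ≤
        2 * tau x ((bl k (vals (List.ofFn a) 0)).map fun _ => 1) := by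
      apply tau_map_le_two hx
      intro v hv
      have hv2 : v ∈ vals (List.ofFn a) 0 := by
        have h3 : ∀ L : List ℝ, v ∈ bl k L → v ∈ L := by
          intro L
          induction L with
          | nil => intro h; simp [bl] at h
          | cons b L ih =>
            intro h
            rw [bl, List.mem_append, List.mem_replicate] at h
            rcases h with ⟨_, rfl⟩ | h
            · exact List.mem_cons_self
            · exact List.mem_cons_of_mem _ (ih h)
        exact h3 _ hv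
      have h4 := abs_vals_le _ _ v hv2
      rw [abs_zero, zero_add, h2] at h4
      rw [abs_one]
      linarith
    rw [List.map_id'] at h1
    have h3 : ((bl k (vals (List.ofFn a) 0)).map fun _ => (1 : ℝ)) =
        List.replicate (2 ^ n * k) 1 := by
      rw [List.map_const', bl_length, vals_length, List.length_ofFn, mul_comm]
    rw [h3] at h1
    have h4 : tau x (List.replicate (2 ^ n * k) 1) = sig x (2 ^ n * k) := rfl
    rw [h4] at h1
    linarith
  refine ⟨fun i => (5 * sig x k)⁻¹ • f (Pi.single i 1), fun i => ?_, fun a => ?_⟩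
  · have hsum : ∑ j, |(Pi.single i (1 : ℝ) : Fin n → ℝ) j| = 1 := by
      rw [Finset.sum_eq_single i]
      · simp
      · intro j _ hj
        rw [Pi.single_eq_of_ne hj, abs_zero]
      · intro h
        exact absurd (Finset.mem_univ i) h
    have hn : ‖(Pi.single i (1 : ℝ) : Fin n → ℝ)‖ ≤ 1 := by
      rw [pi_norm_le_iff_of_nonneg zero_le_one]
      intro j
      by_cases hj : j = i
      · subst hj; simp
      · rw [Pi.single_eq_of_ne hj, norm_zero]
        exact zero_le_one
    have h1 := hup _ hsum.le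
    have h2 := (abs_le.1 (hf (Pi.single i 1))).2
    have h3 : sig x k / 2 * ‖(Pi.single i (1 : ℝ) : Fin n → ℝ)‖ ≤ sig x k / 2 * 1 :=
      mul_le_mul_of_nonneg_left hn (by positivity)
    have h4 : ‖f (Pi.single i 1)‖ ≤ 5 * sig x k := by
      have : ‖f (Pi.single i 1)‖ ≤ p (Pi.single i 1) + sig x k / 2 * 1 := by
        simp only [hp]
        linarith
      linarith
    rw [norm_smul, norm_inv, Real.norm_eq_abs, abs_of_pos (by positivity),
      inv_mul_le_iff₀ (by positivity), mul_one]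
    exact h4
  · have e : ∑ i, a i • (5 * sig x k)⁻¹ • f (Pi.single i 1) = (5 * sig x k)⁻¹ • f a := by
      have h1 : f a = ∑ i, a i • f (Pi.single i 1) := by
        have h2 : a = ∑ i, a i • (Pi.single i (1 : ℝ) : Fin n → ℝ) := by
          funext j
          rw [Finset.sum_apply, Finset.sum_eq_single j]
          · simp
          · intro i _ hi
            rw [Pi.smul_apply, Pi.single_eq_of_ne (Ne.symm hi), smul_zero]
          · intro h
            exact absurd (Finset.mem_univ j) h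
        conv_lhs => rw [h2]
        rw [map_sum]
        simp only [map_smul]
      rw [h1, Finset.smul_sum]
      apply Finset.sum_congr rfl
      intro i _
      rw [smul_comm]
    rw [e, norm_smul, norm_inv, Real.norm_eq_abs, abs_of_pos (by positivity)]
    have h1 := hlow a
    have h2 := (abs_le.1 (hf a)).1
    have h3 : ‖a‖ ≤ ∑ i, |a i| := by
      rw [pi_norm_le_iff_of_nonneg (Finset.sum_nonneg fun _ _ => abs_nonneg _)]
      intro i
      exact Finset.single_le_sum (f := fun i => |a i|) (fun _ _ => abs_nonneg _)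
        (Finset.mem_univ i)
    have h4 : sig x k / 2 * ‖a‖ ≤ sig x k / 2 * ∑ i, |a i| :=
      mul_le_mul_of_nonneg_left h3 (by positivity)
    have h5 : sig x k / 2 * ∑ i, |a i| ≤ ‖f a‖ := by
      have : p a - sig x k / 2 * ‖a‖ ≤ ‖f a‖ := by
        simp only [hp]
        linarith
      linarith
    have h6 := mul_le_mul_of_nonneg_left h5 (by positivity : (0 : ℝ) ≤ 10 * (5 * sig x k)⁻¹)
    refine le_trans (le_of_eq ?_) (h6.trans (le_of_eq ?_))
    · field_simp
      ring
    · ring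

end

/-- `E` contains the `ℓ₂ⁿ` uniformly. -/
def ContainsL2nUniformly (E : Type*) [NormedAddCommGroup E] [NormedSpace ℝ E] : Prop :=
  ∃ C : ℝ, ∀ n : ℕ, ∃ f : (Fin n → ℝ) →ₗ[ℝ] E,
    ∀ a, ‖f a‖ ≤ Real.sqrt (∑ i, a i ^ 2) ∧ Real.sqrt (∑ i, a i ^ 2) ≤ C * ‖f a‖

theorem norm_le_sqrt {n : ℕ} (a : Fin n → ℝ) : ‖a‖ ≤ Real.sqrt (∑ i, a i ^ 2) := by
  rw [pi_norm_le_iff_of_nonneg (Real.sqrt_nonneg _)]
  intro i
  rw [Real.norm_eq_abs]
  apply Real.abs_le_sqrt
  exact Finset.single_le_sum (f := fun i => a i ^ 2) (fun _ _ => sq_nonneg _) (Finset.mem_univ i)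

theorem containsL2n_of_growth {x : ℕ → ℕ → E} (hx : ∀ M n, ‖x M n‖ ≤ 1)
    (hpos : ∀ k, 1 ≤ k → 0 < sig x k) {R₀ : ℕ} (hR1 : 1 ≤ R₀)
    (hR : ∀ k, 1 ≤ k → 2 * sig x k ≤ sig x (R₀ * k)) : ContainsL2nUniformly E := by
  set L := R₀ with hLdef
  have hL : (R₀ : ℝ) ≤ Real.exp L := by
    have := Real.add_one_le_exp (L : ℝ)
    linarith
  have hL1' : (1 : ℝ) ≤ L := by exact_mod_cast hR1
  refine ⟨1600 * (5 + 4 * L), fun n => ?_⟩
  have hN := hpos (2 ^ n) Nat.one_le_two_pow
  set N := sig x (2 ^ n) with hNdef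
  obtain ⟨f, hf⟩ := realize_S hx 1 n (ε := N / 1600) (by positivity)
  have hb1 : ∀ l : List ℝ, bl 1 l = l := by
    intro l
    induction l with
    | nil => rfl
    | cons a l ih => rw [bl, ih]; rfl
  have hc : 0 < (5 + 4 * L) * N := by positivity
  refine ⟨((5 + 4 * (L : ℝ)) * N)⁻¹ • f, fun a => ?_⟩
  set s := Real.sqrt (∑ i, a i ^ 2) with hs
  have hs0 : 0 ≤ s := Real.sqrt_nonneg _
  have hsq : Real.sqrt (sq (List.ofFn a)) = s := by
    rw [hs, sq, List.map_ofFn, List.sum_ofFn]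
    rfl
  have h1 := tau_vals_bounds hx hR1 hR hR1 hL (List.ofFn a)
  rw [hsq, List.length_ofFn, ← hNdef] at h1
  have h2 := hf a
  rw [hb1] at h2
  have h3 := norm_le_sqrt a
  rw [← hs] at h3
  have h4 : N / 1600 * ‖a‖ ≤ N / 1600 * s := mul_le_mul_of_nonneg_left h3 (by positivity)
  obtain ⟨h5, h6⟩ := abs_le.1 h2
  have e : ‖(((5 + 4 * (L : ℝ)) * N)⁻¹ • f) a‖ = ((5 + 4 * (L : ℝ)) * N)⁻¹ * ‖f a‖ := by
    rw [LinearMap.smul_apply, norm_smul, norm_inv, Real.norm_eq_abs, abs_of_pos hc]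
  rw [e]
  constructor
  · rw [inv_mul_le_iff₀ hc]
    have h7 : ‖f a‖ ≤ s * (2 * ((2 + 2 * L) * N)) + N / 1600 * s := by linarith [h1.2]
    have h8 : 0 ≤ N * s := by positivity
    nlinarith
  · have h7 : N / 1600 * s ≤ ‖f a‖ := by
      have := h1.1
      nlinarith
    have h8 := mul_le_mul_of_nonneg_left h7 (by positivity :
      (0 : ℝ) ≤ 1600 * (5 + 4 * L) * ((5 + 4 * L) * N)⁻¹)
    refine le_trans (le_of_eq ?_) (h8.trans (le_of_eq ?_))
    · field_simp
    · ring

/-- **Dvoretzky's theorem up to constants**, for spaces that do not contain the `ℓ₁ⁿ`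
uniformly. -/
theorem dvoretzky (hE : ¬ FiniteDimensional ℝ E) :
    ContainsL1nUniformly E ∨ ContainsL2nUniformly E := by
  obtain ⟨R, f, hR, hf, hsep⟩ := exists_seq_norm_le_one_le_norm_sub (𝕜 := ℝ) hE
  have hR0 : 0 < R := by linarith
  set x : ℕ → ℕ → E := fun _ n => R⁻¹ • f n with hxdef
  have hx : ∀ M n, ‖x M n‖ ≤ 1 := by
    intro M n
    simp only [hxdef]
    rw [norm_smul, norm_inv, Real.norm_eq_abs, abs_of_pos hR0, inv_mul_le_iff₀ hR0, mul_one]
    exact hf n
  have hsig1 : R⁻¹ ≤ sig x 1 := by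
    have e : sig x 1 = rho x [-1, 1] (fun _ => 0) := rfl
    rw [e, rho_cons]
    have hb1 := rho_abs_step hx [1] (v := fun _ => 0) (B := 0) (fun M => by simp) (-1)
    have h1 : Tendsto (fun n => rho x [1] (fun M => 0 + (-1 : ℝ) • x M n))
        (hyperfilter ℕ : Filter ℕ) (𝓝 (ul fun n => rho x [1] (fun M => 0 + (-1 : ℝ) • x M n))) :=
      ul_tend hb1
    refine ge_of_tendsto' h1 fun n => ?_
    rw [rho_cons]
    have hBn : ∀ M, ‖(0 : E) + (-1 : ℝ) • x M n‖ ≤ 1 := by
      intro M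
      rw [zero_add, norm_smul, norm_neg, norm_one, one_mul]
      exact hx M n
    have hb2 := rho_abs_step hx [] (v := fun M => 0 + (-1 : ℝ) • x M n) hBn 1
    refine ge_of_tendsto (ul_tend hb2) ?_
    apply Nat.hyperfilter_le_atTop
    filter_upwards [eventually_gt_atTop n] with m hm
    rw [rho_nil]
    have h2 : (fun M => ‖(0 : E) + (-1 : ℝ) • x M n + (1 : ℝ) • x M m‖) =
        fun _ => ‖R⁻¹ • f m - R⁻¹ • f n‖ := by
      funext M
      congr 1
      simp only [hxdef]
      rw [one_smul, neg_one_smul]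
      abel
    rw [h2, ul_const, ← smul_sub, norm_smul, norm_inv, Real.norm_eq_abs, abs_of_pos hR0]
    have h3 := hsep (show m ≠ n by omega)
    have h4 : 1 ≤ ‖f m - f n‖ := h3
    have h5 := mul_le_mul_of_nonneg_left h4 (inv_nonneg.2 hR0.le)
    linarith
  have hpos : ∀ k, 1 ≤ k → 0 < sig x k := by
    intro k hk
    have h1 := sig_mono hx hk
    have h2 : 0 < R⁻¹ := inv_pos.2 hR0
    linarith
  by_cases h : ∃ R₀ : ℕ, 1 ≤ R₀ ∧ ∀ k, 1 ≤ k → 2 * sig x k ≤ sig x (R₀ * k)
  · obtain ⟨R₀, hR1, hR2⟩ := h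
    exact Or.inr (containsL2n_of_growth hx hpos hR1 hR2)
  · push Not at h
    exact Or.inl (containsL1n_of_flat hx hpos h)

end Pool.Agent.LipSR
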