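import Pool.Agent.Lib.MP_327cb1_an_h41.Mean
import Pool.Agent.Lib.MP_327cb1_an_h68.Main

/-!
# The functionals on `Lip₀(E)` and their test functions
-/

open Filter Topology

namespace Pool.Agent.LipSR

open Pool.Agent.LipL1

variable {E : Type*} [NormedAddCommGroup E] [NormedSpace ℝ E]

/-- Radii of the balls. -/
noncomputable def RR (N : ℕ) : ℝ := N * (N + 1) + 1

/-- Positions of the balls. -/
noncomputable def rr (N : ℕ) : ℝ := 4 * ∑ j ∈ Finset.range (N + 1), RR j

theorem RR_pos (N : ℕ) : 0 < RR N := by unfold RR; positivity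

theorem RR_mono {M N : ℕ} (h : M ≤ N) : RR M ≤ RR N := by
  unfold RR
  have : (M : ℝ) ≤ N := by exact_mod_cast h
  have h0 : (0 : ℝ) ≤ M := Nat.cast_nonneg M
  nlinarith

theorem rr_succ (N : ℕ) : rr (N + 1) = rr N + 4 * RR (N + 1) := by
  unfold rr
  rw [Finset.sum_range_succ _ (N + 1)]
  ring

theorem rr_mono {M N : ℕ} (h : M ≤ N) : rr M ≤ rr N := by
  induction N, h using Nat.le_induction with
  | base => exact le_rfl
  | succ N _ ih =>
    rw [rr_succ]
    have := RR_pos (N + 1)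
    linarith

theorem le_rr (N : ℕ) : 4 * RR N ≤ rr N := by
  unfold rr
  have := Finset.single_le_sum (f := fun j => RR j) (s := Finset.range (N + 1))
    (fun j _ => (RR_pos j).le) (Finset.mem_range.2 (Nat.lt_succ_self N))
  linarith

theorem rr_sub {M N : ℕ} (h : M < N) : 4 * RR N ≤ rr N - rr M := by
  obtain ⟨N, rfl⟩ : ∃ N', N = N' + 1 := ⟨N - 1, by omega⟩
  rw [rr_succ]
  have := rr_mono (Nat.lt_succ_iff.1 h)
  linarith

theorem exists_lift_fun {u₀ : E} (hu₀ : ‖u₀‖ = 1) (φ : ℕ → (E →L[ℝ] ℝ)) (hφ : ∀ N, ‖φ N‖ ≤ 1) :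
    ∃ f : Lip0 E, ‖f‖ ≤ 1 ∧ ∀ N z, ‖z‖ ≤ RR N → f (rr N • u₀ + z) = φ N z := by
  have hφ' : ∀ N z, |φ N z| ≤ ‖z‖ := fun N z => by
    have h1 := (φ N).le_opNorm z
    rw [Real.norm_eq_abs] at h1
    have h2 := mul_le_mul_of_nonneg_right (hφ N) (norm_nonneg z)
    linarith
  have hcase : ∀ (M N : ℕ) (z w : E), M < N → ‖z‖ ≤ RR M → ‖w‖ ≤ RR N →
      |φ M z - φ N w| ≤ ‖(rr M • u₀ + z) - (rr N • u₀ + w)‖ := by
    intro M N z w hMN hz hw
    have h1 := rr_sub hMN
    have h2 := RR_mono hMN.le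
    have h3 : |φ M z - φ N w| ≤ ‖z‖ + ‖w‖ :=
      (abs_sub _ _).trans (add_le_add (hφ' M z) (hφ' N w))
    have e : (rr N - rr M) • u₀ = (rr N • u₀ + w) - (rr M • u₀ + z) + (z - w) := by
      rw [sub_smul]; abel
    have h4 : rr N - rr M ≤ ‖(rr M • u₀ + z) - (rr N • u₀ + w)‖ + (‖z‖ + ‖w‖) := by
      have h5 : ‖(rr N - rr M) • u₀‖ = rr N - rr M := by
        rw [norm_smul, hu₀, mul_one, Real.norm_eq_abs, abs_of_nonneg]
        have := RR_pos N
        linarith
      rw [← h5, e]
      refine (norm_add_le _ _).trans (add_le_add ?_ (norm_sub_le _ _))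
      rw [norm_sub_rev]
    linarith
  have hzero : ∀ (N : ℕ) (z : E), ‖z‖ ≤ RR N → |φ N z| ≤ ‖rr N • u₀ + z‖ := by
    intro N z hz
    have h1 := le_rr N
    have h2 := hφ' N z
    have h3 : rr N ≤ ‖rr N • u₀ + z‖ + ‖z‖ := by
      have h5 : ‖rr N • u₀‖ = rr N := by
        rw [norm_smul, hu₀, mul_one, Real.norm_eq_abs, abs_of_nonneg]
        have := RR_pos N
        linarith
      have e : rr N • u₀ = (rr N • u₀ + z) - z := by abel
      calc rr N = ‖(rr N • u₀ + z) - z‖ := by rw [← e, h5]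
        _ ≤ _ := norm_sub_le _ _
    have := RR_pos N
    linarith
  let I := Option {q : ℕ × E // ‖q.2‖ ≤ RR q.1}
  let P : I → E := fun o => match o with
    | none => 0
    | some q => rr q.1.1 • u₀ + q.1.2
  let v : I → ℝ := fun o => match o with
    | none => 0
    | some q => φ q.1.1 q.1.2
  obtain ⟨F, hF1, hF2⟩ := extend_family P v (K := 1) zero_le_one (by
    intro a b
    rw [one_mul]
    match a, b with
    | none, none => simp [v]
    | none, some q =>
      simp only [v, P, zero_sub, abs_neg, norm_neg]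
      exact hzero _ _ q.2
    | some q, none =>
      simp only [v, P, sub_zero]
      exact hzero _ _ q.2
    | some q, some q' =>
      simp only [v, P]
      rcases lt_trichotomy q.1.1 q'.1.1 with h | h | h
      · exact hcase _ _ _ _ h q.2 q'.2
      · rw [h, add_sub_add_left_eq_sub, ← map_sub]
        exact hφ' _ _
      · rw [abs_sub_comm, norm_sub_rev]
        exact hcase _ _ _ _ h q'.2 q.2)
  have hF0 : F 0 = 0 := hF2 none
  refine ⟨⟨F, hF0, 1, hF1⟩, Lip0.norm_le zero_le_one hF1, fun N z hz => ?_⟩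
  exact hF2 (some ⟨(N, z), hz⟩)

theorem tendsto_lc {F : Filter ℕ} (l : List ℝ) : ∀ (a : ℕ → ℕ → ℝ) (b : ℕ → ℝ),
    (∀ i, Tendsto (fun N => a N i) F (𝓝 (b i))) →
    Tendsto (fun N => lc l (fun i => a N i)) F (𝓝 (lc l b)) := by
  induction l with
  | nil => intro a b _; exact tendsto_const_nhds
  | cons c l ih =>
    intro a b h
    have h1 := ih (fun N i => a N (i + 1)) (fun i => b (i + 1)) fun i => h _
    exact ((h 0).const_smul c).add h1

theorem exists_functionals {θ : ℝ} (y : ℕ → ℕ → E) (s : ℕ → ℝ) {u₀ : E} (hu₀ : ‖u₀‖ = 1)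
    (hy : ∀ N i, ‖y N i‖ ≤ 1) (hsep : ∀ N, Sep θ N (y N))
    (hstar : ∀ (N : ℕ) (l : List ℝ) (K : ℕ), l.length ≤ N → Tri l →
        (l.filter fun a => decide (a ≠ 0)) = dbl (List.replicate K 1) → ‖lc l (y N)‖ ≤ s K) :
    ∃ u : ℕ → (Lip0 E →L[ℝ] ℝ), (∀ i f, |u i f| ≤ ‖f‖) ∧
      (∀ (l : List ℝ) (K : ℕ), Tri l →
        (l.filter fun a => decide (a ≠ 0)) = dbl (List.replicate K 1) →
        ∀ f : Lip0 E, |lc l (fun i => u i f)| ≤ ‖f‖ * s K) ∧
      ∀ k, ∃ f : Lip0 E, ‖f‖ ≤ 1 ∧ ∀ i ≤ k, ∀ j, k < j → θ ≤ u j f - u i f := by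
  let A : ℕ → ℕ → Lip0 E → ℝ := fun N i f => incr (N + 1) (y N) N (rr N • u₀) (y N i) f
  have hA : ∀ N i f, |A N i f| ≤ ‖f‖ := by
    intro N i f
    refine (abs_incr_le (Nat.succ_pos N) (y N i) f).trans ?_
    have := hy N i
    have h0 := norm_nonneg f
    nlinarith
  let u : ℕ → (Lip0 E →L[ℝ] ℝ) := fun i =>
    LinearMap.mkContinuous
      { toFun := fun f => ul fun N => A N i f
        map_add' := fun f g => by
          rw [← ul_add (fun N => hA N i f) (fun N => hA N i g)]
          congr 1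
          funext N
          exact incr_add_fun _ _ _
        map_smul' := fun c f => by
          rw [RingHom.id_apply, smul_eq_mul, ← ul_mul c (fun N => hA N i f)]
          congr 1
          funext N
          exact incr_smul_fun _ _ _ }
      1 (fun f => by
        rw [one_mul]
        exact abs_le.2 ⟨le_ul (fun N => hA N i f) fun N => (abs_le.1 (hA N i f)).1,
          ul_le (fun N => hA N i f) fun N => (abs_le.1 (hA N i f)).2⟩)
  have hu : ∀ i f, Tendsto (fun N => A N i f) (hyperfilter ℕ : Filter ℕ) (𝓝 (u i f)) :=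
    fun i f => ul_tend fun N => hA N i f
  refine ⟨u, fun i f => ?_, fun l K hl hf f => ?_, fun k => ?_⟩
  · exact le_of_tendsto' (hu i f).abs fun N => hA N i f
  · have h1 : Tendsto (fun N => |lc l (fun i => A N i f)|) (hyperfilter ℕ : Filter ℕ)
        (𝓝 |lc l (fun i => u i f)|) := (tendsto_lc l _ _ fun i => hu i f).abs
    have h2 : Tendsto (fun N : ℕ => ‖f‖ * s K + l.length * (2 * (‖f‖ * (l.length + 1))) *
        ((N : ℝ) + 1)⁻¹) (hyperfilter ℕ : Filter ℕ) (𝓝 (‖f‖ * s K +
          l.length * (2 * (‖f‖ * (l.length + 1))) * 0)) := by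
      apply Tendsto.mono_left _ Nat.hyperfilter_le_atTop
      apply Tendsto.const_add
      apply Tendsto.const_mul
      apply Tendsto.inv_tendsto_atTop
      exact tendsto_atTop_add_const_right _ _ tendsto_natCast_atTop_atTop
    rw [mul_zero, add_zero] at h2
    refine le_of_tendsto_of_tendsto h1 h2 ?_
    apply Nat.hyperfilter_le_atTop
    filter_upwards [eventually_ge_atTop l.length] with N hN
    have h3 := incr_lc (Nat.succ_pos N) (p := rr N • u₀) (n := N) (hy N) f l 0 hl (by omega)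
    simp only [Nat.zero_add] at h3
    have h4 := abs_incr_le (Nat.succ_pos N) (y := y N) (n := N) (p := rr N • u₀)
      (lc l (y N)) f
    have h5 : ‖f‖ * ‖lc l (y N)‖ ≤ ‖f‖ * s K :=
      mul_le_mul_of_nonneg_left (hstar N l K hN hl hf) (norm_nonneg f)
    have h6 : |lc l (fun i => A N i f)| ≤ |incr (N + 1) (y N) N (rr N • u₀) (lc l (y N)) f| +
        |incr (N + 1) (y N) N (rr N • u₀) (lc l (y N)) f - lc l (fun i => A N i f)| := by
      have := abs_sub (incr (N + 1) (y N) N (rr N • u₀) (lc l (y N)) f)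
        (incr (N + 1) (y N) N (rr N • u₀) (lc l (y N)) f - lc l (fun i => A N i f))
      rwa [sub_sub_cancel] at this
    have h7 : (l.length : ℝ) * (2 * (‖f‖ * (l.length + 1)) / ((N + 1 : ℕ) : ℝ)) =
        l.length * (2 * (‖f‖ * (l.length + 1))) * ((N : ℝ) + 1)⁻¹ := by
      push_cast
      rw [div_eq_mul_inv, mul_assoc (l.length : ℝ)]
    rw [h7] at h3
    linarith
  · choose φ hφ1 hφ2 using fun N => hsep N k
    obtain ⟨f, hf1, hf2⟩ := exists_lift_fun hu₀ φ hφ1
    refine ⟨f, hf1, fun i hi j hj => ?_⟩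
    have hval : ∀ N m, A N m f = φ N (y N m) := by
      intro N m
      have h1 : A N m f = mean (N + 1) (y N) N (fun _ => φ N (y N m)) := by
        apply mean_congr (hy N)
        intro z hz
        have hz' : ‖z‖ ≤ N * (N + 1) := by
          push_cast at hz
          exact hz
        have h2 : f (rr N • u₀ + z) = φ N z := hf2 N z (by unfold RR; linarith)
        have h3 : f (rr N • u₀ + z + y N m) = φ N (z + y N m) := by
          rw [add_assoc]
          apply hf2
          refine (norm_add_le _ _).trans ?_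
          unfold RR
          exact add_le_add hz' (hy N m)
        rw [h2, h3, map_add, add_sub_cancel_left]
      rw [h1, mean_const (Nat.succ_pos N)]
    refine ge_of_tendsto ((hu j f).sub (hu i f)) ?_
    apply Nat.hyperfilter_le_atTop
    filter_upwards [eventually_gt_atTop j] with N hN
    rw [hval, hval]
    exact hφ2 N i hi j hj hN

end Pool.Agent.LipSR
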