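import Pool.Agent.Lib.MP_327cb1_an_h41.Functionals

/-!
# `Lip₀(E)` is not a Grothendieck space when `E` has long separated sequences
-/

open Filter Topology

namespace Pool.Agent.LipSR

open Pool.Agent.LipL1

section osc

theorem exists_list {a : ℕ → ℝ} {ε : ℝ}
    (h : ∀ n, ∃ i j, n ≤ i ∧ i < j ∧ ε ≤ a j - a i) : ∀ K m : ℕ, ∃ l : List ℝ, Tri l ∧
      (l.filter fun a => decide (a ≠ 0)) = dbl (List.replicate K 1) ∧
      K * ε ≤ lc l (fun i => a (m + i)) := by
  intro K
  induction K with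
  | zero =>
    intro m
    exact ⟨[], fun a ha => by simp at ha, rfl, by simp⟩
  | succ K ih =>
    intro m
    obtain ⟨i, j, hmi, hij, hε⟩ := h m
    obtain ⟨l, hl1, hl2, hl3⟩ := ih (j + 1)
    refine ⟨List.replicate (i - m) 0 ++ (-1) :: (List.replicate (j - i - 1) 0 ++ 1 :: l),
      ?_, ?_, ?_⟩
    · intro b hb
      simp only [List.mem_append, List.mem_cons, List.mem_replicate] at hb
      rcases hb with ⟨-, rfl⟩ | rfl | ⟨-, rfl⟩ | rfl | hb
      · exact Or.inr (Or.inl rfl)
      · exact Or.inl rfl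
      · exact Or.inr (Or.inl rfl)
      · exact Or.inr (Or.inr rfl)
      · exact hl1 b hb
    · rw [List.filter_append, List.filter_cons_of_pos (by simp), List.filter_append,
        List.filter_cons_of_pos (by simp), hl2, List.replicate_succ, dbl]
      simp
    · rw [lc_append, lc_replicate_zero, zero_add, lc_cons, lc_append, lc_replicate_zero,
        zero_add, lc_cons]
      simp only [List.length_replicate, smul_eq_mul, add_zero]
      have e1 : m + (i - m) = i := by omega
      have e2 : m + (i - m + (j - i - 1 + 1)) = j := by omega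
      have e3 : (fun k => a (m + (i - m + (j - i - 1 + (k + 1) + 1)))) =
          fun k => a (j + 1 + k) := by
        funext k
        congr 1
        omega
      rw [e1, e2, e3]
      push_cast
      linarith

theorem cauchy_of_osc {a : ℕ → ℝ} {s : ℕ → ℝ} {C : ℝ} (hC : 0 ≤ C)
    (hs : ∀ ε : ℝ, 0 < ε → ∃ K : ℕ, 1 ≤ K ∧ s K ≤ ε * K)
    (ha : ∀ (l : List ℝ) (K : ℕ), Tri l →
        (l.filter fun a => decide (a ≠ 0)) = dbl (List.replicate K 1) →
        |lc l a| ≤ C * s K) :
    ∀ ε : ℝ, 0 < ε → ∃ n, ∀ i j, n ≤ i → i < j → a j - a i < ε := by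
  intro ε hε
  by_contra hcon
  push Not at hcon
  obtain ⟨K, hK1, hK2⟩ := hs (ε / (2 * (C + 1))) (by positivity)
  obtain ⟨l, hl1, hl2, hl3⟩ := exists_list (a := a) (ε := ε) (by
    intro n
    obtain ⟨i, j, h1, h2, h3⟩ := hcon n
    exact ⟨i, j, h1, h2, h3⟩) K 0
  simp only [Nat.zero_add] at hl3
  have h1 := ha l K hl1 hl2
  have hK' : (1 : ℝ) ≤ K := by exact_mod_cast hK1
  have h2 : C * s K ≤ C * (ε / (2 * (C + 1)) * K) := mul_le_mul_of_nonneg_left hK2 hC
  have h3 : C * (ε / (2 * (C + 1)) * K) ≤ ε / 2 * K := by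
    have h4 : C * (ε / (2 * (C + 1)) * K) = C / (C + 1) * (ε / 2 * K) := by
      field_simp
    rw [h4]
    have h5 : C / (C + 1) ≤ 1 := by
      rw [div_le_one (by positivity)]
      linarith
    have h6 : 0 ≤ ε / 2 * K := by positivity
    nlinarith
  have h7 := le_abs_self (lc l a)
  have h8 : (0 : ℝ) < ε / 2 * K := by positivity
  have h9 : (fun i => a i) = a := rfl
  rw [h9] at hl3
  linarith

end osc

variable {X : Type*} [NormedAddCommGroup X] [NormedSpace ℝ X]

theorem not_grothendieck_of_functionals {θ : ℝ} (hθ : 0 < θ) {s : ℕ → ℝ}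
    (hs : ∀ ε : ℝ, 0 < ε → ∃ K : ℕ, 1 ≤ K ∧ s K ≤ ε * K) (u : ℕ → (X →L[ℝ] ℝ))
    (hu : ∀ i f, |u i f| ≤ ‖f‖)
    (hosc : ∀ (l : List ℝ) (K : ℕ), Tri l →
        (l.filter fun a => decide (a ≠ 0)) = dbl (List.replicate K 1) →
        ∀ f : X, |lc l (fun i => u i f)| ≤ ‖f‖ * s K)
    (hsep : ∀ k, ∃ f : X, ‖f‖ ≤ 1 ∧ ∀ i ≤ k, ∀ j, k < j → θ ≤ u j f - u i f) :
    ¬ IsGrothendieck X := by
  intro hG
  -- pointwise convergence
  have hcau : ∀ f : X, CauchySeq fun i => u i f := by
    intro f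
    rw [Metric.cauchySeq_iff']
    intro ε hε
    obtain ⟨n₁, hn₁⟩ := cauchy_of_osc (norm_nonneg f) hs (a := fun i => u i f)
      (fun l K h1 h2 => hosc l K h1 h2 f) ε hε
    obtain ⟨n₂, hn₂⟩ := cauchy_of_osc (norm_nonneg (-f)) hs (a := fun i => u i (-f))
      (fun l K h1 h2 => hosc l K h1 h2 (-f)) ε hε
    refine ⟨max n₁ n₂, fun n hn => ?_⟩
    rw [Real.dist_eq]
    rcases hn.eq_or_lt with h | h
    · rw [h, sub_self, abs_zero]
      exact hε
    · have h1 := hn₁ _ n (le_max_left n₁ n₂) h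
      have h2 := hn₂ _ n (le_max_right n₁ n₂) h
      rw [map_neg, map_neg] at h2
      rw [abs_lt]
      constructor <;> linarith
  have hconv : ∀ f : X, ∃ b, Tendsto (fun i => u i f) atTop (𝓝 b) := fun f =>
    cauchySeq_tendsto_of_complete (hcau f)
  choose b hb using hconv
  let w : X →L[ℝ] ℝ :=
    LinearMap.mkContinuous
      { toFun := b
        map_add' := fun f g => by
          have h1 := (hb f).add (hb g)
          have h2 := hb (f + g)
          simp only [map_add] at h2
          exact tendsto_nhds_unique h2 h1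
        map_smul' := fun c f => by
          have h1 := (hb f).const_mul c
          have h2 := hb (c • f)
          simp only [map_smul, smul_eq_mul] at h2
          exact tendsto_nhds_unique h2 h1 }
      1 (fun f => by
        rw [one_mul]
        exact le_of_tendsto' (hb f).abs fun i => hu i f)
  have hw : ∀ f, Tendsto (fun i => u i f) atTop (𝓝 (w f)) := hb
  -- the weak* null sequence
  have hnull : ∀ Φ : (X →L[ℝ] ℝ) →L[ℝ] ℝ, Tendsto (fun i => Φ (u i)) atTop (𝓝 (Φ w)) := by
    intro Φ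
    have h1 := hG (fun i => u i - w) (fun f => by
      have h2 := (hw f).sub_const (w f)
      rw [sub_self] at h2
      exact h2) Φ
    have h2 := h1.add_const (Φ w)
    simpa using h2
  -- the convex set of functionals far from w
  let S : Set (X →L[ℝ] ℝ) := {g | ∃ k, ∀ k' ≥ k, ∀ f : X,
    (∀ i ≤ k', ∀ j, k' < j → θ ≤ u j f - u i f) → g f + θ ≤ w f}
  have hSconv : Convex ℝ S := by
    rintro g ⟨k, hk⟩ g' ⟨k', hk'⟩ a c ha hc hac
    refine ⟨max k k', fun m hm f hf => ?_⟩
    have h1 := hk m (le_trans (le_max_left _ _) hm) f hf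
    have h2 := hk' m (le_trans (le_max_right _ _) hm) f hf
    have e : (a • g + c • g') f = a * g f + c * g' f := rfl
    rw [e]
    have h3 := mul_le_mul_of_nonneg_left h1 ha
    have h4 := mul_le_mul_of_nonneg_left h2 hc
    have e1 : a * w f + c * w f = w f := by rw [← add_mul, hac, one_mul]
    have e2 : a * θ + c * θ = θ := by rw [← add_mul, hac, one_mul]
    linarith
  have hSu : ∀ i, u i ∈ S := by
    intro i
    refine ⟨i, fun k hk f hf => ?_⟩
    have h1 : ∀ᶠ j in atTop, u i f + θ ≤ u j f := by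
      filter_upwards [eventually_gt_atTop k] with j hj
      have := hf i hk j hj
      linarith
    exact ge_of_tendsto (hw f) h1
  have hdisj : Disjoint (Metric.ball w θ) S := by
    rw [Set.disjoint_left]
    rintro g hg ⟨k, hk⟩
    obtain ⟨f, hf1, hf2⟩ := hsep k
    have h1 := hk k le_rfl f hf2
    rw [Metric.mem_ball, dist_eq_norm] at hg
    have h2 : |(g - w) f| ≤ ‖g - w‖ * ‖f‖ := (g - w).le_opNorm f
    have h3 : ‖g - w‖ * ‖f‖ ≤ ‖g - w‖ * 1 := mul_le_mul_of_nonneg_left hf1 (norm_nonneg _)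
    have h4 : (g - w) f = g f - w f := rfl
    rw [h4] at h2
    have h5 := (abs_le.1 h2).1
    linarith
  obtain ⟨Φ, r, h1, h2⟩ := geometric_hahn_banach_open (convex_ball w θ) Metric.isOpen_ball
    hSconv hdisj
  have h3 : Φ w < r := h1 w (Metric.mem_ball_self hθ)
  have h4 : r ≤ Φ w := ge_of_tendsto' (hnull Φ) fun i => h2 _ (hSu i)
  linarith

variable {E : Type*} [NormedAddCommGroup E] [NormedSpace ℝ E]

/-- **Main theorem.** If for some `θ > 0` the unit ball of `E` contains arbitrarily long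
sequences that are `θ`-separated at every cut then `Lip₀(E)` is not a Grothendieck space. -/
theorem main {θ : ℝ} (hθ : 0 < θ) (x : ℕ → ℕ → E) (hx : ∀ M n, ‖x M n‖ ≤ 1)
    (hsep : ∀ M, Sep θ M (x M)) : ¬ IsGrothendieck (Lip0 E) := by
  by_cases hE : ContainsL1nUniformly E
  · obtain ⟨T, K, hT⟩ := Pool.Agent.LipL1.main hE
    exact not_isGrothendieck_of_lift T hT
  · -- a unit vector
    obtain ⟨φ, -, hφ⟩ := hsep 2 0
    have h1 := hφ 0 le_rfl 1 one_pos one_lt_two
    have h2 : x 2 1 - x 2 0 ≠ 0 := by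
      intro h
      rw [← map_sub, h, map_zero] at h1
      linarith
    have hn : ‖x 2 1 - x 2 0‖ ≠ 0 := norm_ne_zero_iff.2 h2
    obtain ⟨y, s, hy, hys, hs, hstar⟩ := exists_arrays hE hx hsep
    obtain ⟨u, hu1, hu2, hu3⟩ := exists_functionals y s
      (u₀ := ‖x 2 1 - x 2 0‖⁻¹ • (x 2 1 - x 2 0))
      (by rw [norm_smul, norm_inv, norm_norm, inv_mul_cancel₀ hn]) hy hys hstar
    exact not_grothendieck_of_functionals hθ hs u hu1 hu2 hu3

end Pool.Agent.LipSR
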