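import Pool.Agent.Lib.MP_327cb1_an_h41.Realize

/-!
# Lattice estimates for differences in the spreading seminorm
-/

open Filter Topology

namespace Pool.Agent.LipSR

open Pool.Agent.LipL1

variable {E : Type*} [NormedAddCommGroup E] [NormedSpace ℝ E]
variable {x : ℕ → ℕ → E} (hx : ∀ M n, ‖x M n‖ ≤ 1)
include hx

theorem rho_convex_step {a t : ℝ} (ht0 : 0 ≤ t) (ht1 : t ≤ 1) (l : List ℝ) {v : ℕ → E}
    (hv : Bd v) : rho x (-(t * a) :: (t * a) :: l) v ≤ rho x (-a :: a :: l) v := by
  obtain ⟨B, hB⟩ := id hv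
  have hv1 : Bd (fun M => t • v M) := ⟨|t| * B, fun M => by
    rw [norm_smul, Real.norm_eq_abs]
    exact mul_le_mul_of_nonneg_left (hB M) (abs_nonneg t)⟩
  have hv2 : Bd (fun M => (1 - t) • v M) := ⟨|1 - t| * B, fun M => by
    rw [norm_smul, Real.norm_eq_abs]
    exact mul_le_mul_of_nonneg_left (hB M) (abs_nonneg _)⟩
  have h1 := rho_add hx ((-a :: a :: l).map fun b => t * b)
    ((0 :: 0 :: l).map fun b => (1 - t) * b) (by simp) hv1 hv2
  rw [rho_smul hx t _ hv, rho_smul hx (1 - t) _ hv, rho_zero_cons, rho_zero_cons,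
    abs_of_nonneg ht0, abs_of_nonneg (sub_nonneg.2 ht1)] at h1
  have e1 : List.zipWith (· + ·) ((-a :: a :: l).map fun b => t * b)
      ((0 :: 0 :: l).map fun b => (1 - t) * b) = -(t * a) :: (t * a) :: l := by
    have e2 : List.zipWith (· + ·) (l.map fun b => t * b) (l.map fun b => (1 - t) * b) = l := by
      clear h1 hv hv1 hv2
      induction l with
      | nil => rfl
      | cons c l ih =>
        simp only [List.map_cons, List.zipWith_cons_cons, ih]
        congr 1
        ring
    simp only [List.map_cons, List.zipWith_cons_cons, e2, mul_zero, add_zero, mul_neg]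
  have e3 : (fun M => t • v M + (1 - t) • v M) = v := by
    funext M
    rw [← add_smul]
    simp
  rw [e1, e3] at h1
  have h2 := rho_suppress hx a l hv
  have h3 : (1 - t) * rho x l v ≤ (1 - t) * rho x (-a :: a :: l) v :=
    mul_le_mul_of_nonneg_left h2 (sub_nonneg.2 ht1)
  linarith

theorem rho_map_le2 (f g : ℝ → ℝ) (l : List ℝ)
    (h : ∀ v ∈ l, ∃ t : ℝ, 0 ≤ t ∧ t ≤ 1 ∧ f v = t * g v) :
    ∀ v : ℕ → E, Bd v → rho x (dbl (l.map f)) v ≤ rho x (dbl (l.map g)) v := by
  induction l with
  | nil => intro v _; exact le_rfl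
  | cons a l ih =>
    intro v hv
    obtain ⟨t, ht0, ht1, hfg⟩ := h a List.mem_cons_self
    have ih' := ih fun w hw => h w (List.mem_cons_of_mem _ hw)
    rw [List.map_cons, List.map_cons, dbl, dbl, hfg]
    refine le_trans ?_ (rho_convex_step hx ht0 ht1 (dbl (l.map g)) hv)
    exact rho_cons_mono hx (fun v hv => rho_cons_mono hx ih' _ hv) _ hv

theorem tau_map_le2 (f g : ℝ → ℝ) (l : List ℝ)
    (h : ∀ v ∈ l, ∃ t : ℝ, 0 ≤ t ∧ t ≤ 1 ∧ f v = t * g v) :
    tau x (l.map f) ≤ tau x (l.map g) := rho_map_le2 hx f g l h _ bd0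

theorem tau_map_add (f g : ℝ → ℝ) (l : List ℝ) :
    tau x (l.map fun v => f v + g v) ≤ tau x (l.map f) + tau x (l.map g) := by
  have h := tau_add hx (l := l.map f) (l' := l.map g) (by simp)
  have e : List.zipWith (· + ·) (l.map f) (l.map g) = l.map fun v => f v + g v := by
    clear h
    induction l with
    | nil => rfl
    | cons c l ih => simp [ih]
  rw [e] at h
  exact h

theorem tau_map_mul (c : ℝ) (f : ℝ → ℝ) (l : List ℝ) :
    tau x (l.map fun v => c * f v) = |c| * tau x (l.map f) := by
  rw [← tau_smul hx, List.map_map]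
  rfl

/-- Unconditionality with constant two. -/
theorem tau_map_le_two (f g : ℝ → ℝ) (l : List ℝ) (h : ∀ v ∈ l, |f v| ≤ |g v|) :
    tau x (l.map f) ≤ 2 * tau x (l.map g) := by
  classical
  set f₁ : ℝ → ℝ := fun v => if 0 ≤ f v * g v then f v else 0 with hf₁
  set f₂ : ℝ → ℝ := fun v => if 0 ≤ f v * g v then 0 else -f v with hf₂
  have e : (fun v => f₁ v + (-1) * f₂ v) = f := by
    funext v
    simp only [hf₁, hf₂]
    split_ifs <;> ring
  have h1 := tau_map_add hx f₁ (fun v => (-1) * f₂ v) l
  rw [e, tau_map_mul hx] at h1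
  have key : ∀ a b : ℝ, |a| ≤ |b| → 0 ≤ a * b → ∃ t : ℝ, 0 ≤ t ∧ t ≤ 1 ∧ a = t * b := by
    intro a b hab h0
    rcases eq_or_ne b 0 with rfl | hb
    · have : a = 0 := by
        rw [abs_zero] at hab
        exact abs_eq_zero.1 (le_antisymm hab (abs_nonneg a))
      exact ⟨0, le_rfl, zero_le_one, by rw [this, zero_mul]⟩
    · refine ⟨a / b, ?_, ?_, (div_mul_cancel₀ a hb).symm⟩
      · rw [div_eq_mul_inv]
        have : a * b⁻¹ = a * b * (b⁻¹ * b⁻¹) := by field_simp
        rw [this]
        exact mul_nonneg h0 (mul_self_nonneg _)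
      · have h2 : |a / b| ≤ 1 := by
          rw [abs_div, div_le_one (abs_pos.2 hb)]
          exact hab
        exact (le_abs_self _).trans h2
  have h2 : tau x (l.map f₁) ≤ tau x (l.map g) := by
    apply tau_map_le2 hx
    intro v hv
    simp only [hf₁]
    split_ifs with h0
    · exact key _ _ (h v hv) h0
    · exact ⟨0, le_rfl, zero_le_one, by rw [zero_mul]⟩
  have h3 : tau x (l.map f₂) ≤ tau x (l.map g) := by
    apply tau_map_le2 hx
    intro v hv
    simp only [hf₂]
    split_ifs with h0
    · exact ⟨0, le_rfl, zero_le_one, by rw [zero_mul]⟩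
    · apply key
      · rw [abs_neg]; exact h v hv
      · push Not at h0
        linarith
  rw [abs_neg, abs_one, one_mul] at h1
  linarith

theorem tau_map_sum (f : ℕ → ℝ → ℝ) (l : List ℝ) (K : ℕ) :
    tau x (l.map fun v => ∑ k ∈ Finset.range K, f k v) ≤
      ∑ k ∈ Finset.range K, tau x (l.map (f k)) := by
  induction K with
  | zero =>
    simp only [Finset.range_zero, Finset.sum_empty]
    have h := tau_map_mul hx 0 (fun _ => 0) l
    simp only [zero_mul, abs_zero] at h
    exact h.le
  | succ K ih =>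
    have e : (fun v => ∑ k ∈ Finset.range (K + 1), f k v) =
        fun v => (∑ k ∈ Finset.range K, f k v) + f K v := by
      funext v
      rw [Finset.sum_range_succ]
    rw [Finset.sum_range_succ, e]
    exact (tau_map_add hx (fun v => ∑ k ∈ Finset.range K, f k v) (f K) l).trans
      (add_le_add ih le_rfl)

omit hx in
theorem tau_indicator (p : ℝ → Prop) [DecidablePred p] (l : List ℝ) :
    tau x (l.map fun v => if p v then (1 : ℝ) else 0) = sig x (l.countP fun v => decide (p v)) := by
  unfold sig
  apply tau_congr_filter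
  induction l with
  | nil => rfl
  | cons a l ih =>
    by_cases ha : p a
    · rw [List.map_cons, if_pos ha, List.filter_cons_of_pos (by simp), ih,
        List.countP_cons_of_pos (by simpa using ha), List.replicate_succ,
        List.filter_cons_of_pos (by simp)]
    · rw [List.map_cons, if_neg ha, List.filter_cons_of_neg (by simp), ih,
        List.countP_cons_of_neg (by simpa using ha)]

theorem rho_sublist {l l' : List ℝ} (h : l'.Sublist l) :
    ∀ v : ℕ → E, Bd v → rho x (dbl l') v ≤ rho x (dbl l) v := by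
  induction h with
  | slnil => intro v _; exact le_rfl
  | cons a _ ih => intro v hv; exact (ih v hv).trans (rho_suppress hx a _ hv)
  | cons_cons a _ ih =>
    intro v hv
    exact rho_cons_mono hx (fun v hv => rho_cons_mono hx ih _ hv) _ hv

theorem tau_sublist {l l' : List ℝ} (h : l'.Sublist l) : tau x l' ≤ tau x l :=
  rho_sublist hx h _ bd0

theorem sig_mono {k k' : ℕ} (h : k ≤ k') : sig x k ≤ sig x k' :=
  tau_sublist hx (List.replicate_sublist_replicate 1 |>.2 h)

theorem sig_zero : sig x 0 = 0 := by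
  have := tau_replicate hx 0 0
  simp only [List.replicate_zero, abs_zero, zero_mul] at this
  exact this

omit hx in
theorem replicate_sublist_bl (K : ℕ) {v : ℝ} {l : List ℝ} (hv : v ∈ l) :
    (List.replicate K v).Sublist (bl K l) := by
  induction l with
  | nil => simp at hv
  | cons a l ih =>
    rw [bl]
    rcases List.mem_cons.1 hv with rfl | h
    · exact List.sublist_append_left _ _
    · exact (ih h).trans (List.sublist_append_right _ _)

end Pool.Agent.LipSR
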