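import Pool.Agent.Lib.MP_327cb1_an_h41.Arrays

/-!
# Averages over boxes, and the functionals on `Lip₀(E)`
-/

open Filter Topology

namespace Pool.Agent.LipSR

open Pool.Agent.LipL1

variable {E : Type*} [NormedAddCommGroup E] [NormedSpace ℝ E]

/-- The average of `g` over the box `{∑_{i<n} s_i y_i : 0 ≤ s_i < B}`. -/
noncomputable def mean (B : ℕ) (y : ℕ → E) : ℕ → (E → ℝ) → ℝ
  | 0, g => g 0
  | n + 1, g => (1 / B : ℝ) * ∑ s ∈ Finset.range B, mean B y n (fun z => g (z + (s : ℝ) • y n))

section

variable {B : ℕ} {y : ℕ → E}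

theorem mean_zero (g : E → ℝ) : mean B y 0 g = g 0 := rfl

theorem mean_succ (n : ℕ) (g : E → ℝ) : mean B y (n + 1) g =
    (1 / B : ℝ) * ∑ s ∈ Finset.range B, mean B y n (fun z => g (z + (s : ℝ) • y n)) := rfl

theorem mean_add (n : ℕ) : ∀ g h : E → ℝ,
    mean B y n (fun z => g z + h z) = mean B y n g + mean B y n h := by
  induction n with
  | zero => intro g h; rfl
  | succ n ih =>
    intro g h
    rw [mean_succ, mean_succ, mean_succ, ← mul_add, ← Finset.sum_add_distrib]
    congr 1
    exact Finset.sum_congr rfl fun s _ => ih _ _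

theorem mean_mul (n : ℕ) (c : ℝ) : ∀ g : E → ℝ,
    mean B y n (fun z => c * g z) = c * mean B y n g := by
  induction n with
  | zero => intro g; rfl
  | succ n ih =>
    intro g
    rw [mean_succ, mean_succ, mul_left_comm c, Finset.mul_sum _ _ c]
    congr 1
    exact Finset.sum_congr rfl fun s _ => ih _

theorem mean_sub (n : ℕ) (g h : E → ℝ) :
    mean B y n (fun z => g z - h z) = mean B y n g - mean B y n h := by
  have h1 := mean_add (B := B) (y := y) n g (fun z => (-1) * h z)
  rw [mean_mul] at h1
  have e : (fun z => g z - h z) = fun z => g z + (-1) * h z := by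
    funext z; ring
  rw [e, h1]
  ring

variable (hB : 0 < B)
include hB

theorem mean_const (n : ℕ) (c : ℝ) : mean B y n (fun _ => c) = c := by
  have hB' : (B : ℝ) ≠ 0 := by exact_mod_cast hB.ne'
  induction n with
  | zero => rfl
  | succ n ih =>
    rw [mean_succ]
    simp only [ih, Finset.sum_const, Finset.card_range, nsmul_eq_mul]
    field_simp

theorem abs_mean_le {H : ℝ} (n : ℕ) : ∀ g : E → ℝ, (∀ z, |g z| ≤ H) → |mean B y n g| ≤ H := by
  have hB' : (0 : ℝ) < B := by exact_mod_cast hB
  induction n with
  | zero => intro g hg; exact hg 0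
  | succ n ih =>
    intro g hg
    rw [mean_succ, abs_mul, abs_of_pos (by positivity)]
    calc (1 / B : ℝ) * |∑ s ∈ Finset.range B, mean B y n (fun z => g (z + (s : ℝ) • y n))|
        ≤ (1 / B) * ∑ s ∈ Finset.range B, H := by
          apply mul_le_mul_of_nonneg_left _ (by positivity)
          exact (Finset.abs_sum_le_sum_abs _ _).trans
            (Finset.sum_le_sum fun s _ => ih _ fun z => hg _)
      _ = H := by
          rw [Finset.sum_const, Finset.card_range, nsmul_eq_mul]
          field_simp

omit hB in
theorem mean_congr (hy : ∀ i, ‖y i‖ ≤ 1) (n : ℕ) : ∀ g h : E → ℝ,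
    (∀ z, ‖z‖ ≤ n * B → g z = h z) → mean B y n g = mean B y n h := by
  induction n with
  | zero => intro g h hgh; exact hgh 0 (by simp)
  | succ n ih =>
    intro g h hgh
    rw [mean_succ, mean_succ]
    congr 1
    apply Finset.sum_congr rfl
    intro s hs
    apply ih
    intro z hz
    apply hgh
    rw [Finset.mem_range] at hs
    have hs' : (s : ℝ) ≤ B := by exact_mod_cast hs.le
    refine (norm_add_le _ _).trans ?_
    rw [norm_smul, Real.norm_eq_abs, abs_of_nonneg (Nat.cast_nonneg s)]
    push_cast
    have h1 : (s : ℝ) * ‖y n‖ ≤ B * 1 := mul_le_mul hs' (hy n) (norm_nonneg _) (Nat.cast_nonneg _)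
    linarith

theorem mean_shift {H : ℝ} (n : ℕ) : ∀ g : E → ℝ, (∀ z, |g z| ≤ H) → ∀ i < n,
    |mean B y n (fun z => g (z + y i)) - mean B y n g| ≤ 2 * H / B := by
  have hB' : (0 : ℝ) < B := by exact_mod_cast hB
  induction n with
  | zero => intro g hg i hi; omega
  | succ n ih =>
    intro g hg i hi
    rw [mean_succ, mean_succ, ← mul_sub, ← Finset.sum_sub_distrib, abs_mul,
      abs_of_pos (by positivity : (0 : ℝ) < 1 / B)]
    rcases Nat.lt_succ_iff_lt_or_eq.1 hi with hi | rfl
    · have h1 : ∀ s : ℕ, |mean B y n (fun z => g (z + (s : ℝ) • y n + y i)) -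
          mean B y n (fun z => g (z + (s : ℝ) • y n))| ≤ 2 * H / B := by
        intro s
        have := ih (fun z => g (z + (s : ℝ) • y n)) (fun z => hg _) i hi
        have e : (fun z => g (z + (s : ℝ) • y n + y i)) =
            fun z => g (z + y i + (s : ℝ) • y n) := by
          funext z
          rw [add_right_comm]
        rw [e]
        exact this
      calc (1 / B : ℝ) * |∑ s ∈ Finset.range B, (mean B y n (fun z => g (z + (s : ℝ) • y n + y i)) -
            mean B y n (fun z => g (z + (s : ℝ) • y n)))|
          ≤ (1 / B) * ∑ s ∈ Finset.range B, 2 * H / B := by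
            apply mul_le_mul_of_nonneg_left _ (by positivity)
            exact (Finset.abs_sum_le_sum_abs _ _).trans (Finset.sum_le_sum fun s _ => h1 s)
        _ = 2 * H / B := by
            rw [Finset.sum_const, Finset.card_range, nsmul_eq_mul]
            field_simp
    · have h1 : ∑ s ∈ Finset.range B, (mean B y i (fun z => g (z + (s : ℝ) • y i + y i)) -
            mean B y i (fun z => g (z + (s : ℝ) • y i))) =
          mean B y i (fun z => g (z + (B : ℝ) • y i)) - mean B y i (fun z => g (z + (0 : ℝ) • y i)) := by
        have h2 := Finset.sum_range_sub (fun s : ℕ => mean B y i (fun z => g (z + (s : ℝ) • y i))) B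
        simp only [Nat.cast_zero] at h2
        rw [← h2]
        apply Finset.sum_congr rfl
        intro s _
        congr 2
        funext z
        push_cast
        rw [add_smul, one_smul, add_assoc]
      rw [h1]
      have h3 := abs_mean_le hB (y := y) (H := H) i (fun z => g (z + (B : ℝ) • y i)) fun z => hg _
      have h4 := abs_mean_le hB (y := y) (H := H) i (fun z => g (z + (0 : ℝ) • y i)) fun z => hg _
      calc (1 / B : ℝ) * |mean B y i (fun z => g (z + (B : ℝ) • y i)) -
            mean B y i (fun z => g (z + (0 : ℝ) • y i))| ≤ (1 / B) * (H + H) := by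
            apply mul_le_mul_of_nonneg_left _ (by positivity)
            exact (abs_sub _ _).trans (add_le_add h3 h4)
        _ = 2 * H / B := by ring

end

/-! ### The approximate functionals -/

/-- The average increment of `f` in the direction `w` over the box at `p`. -/
noncomputable def incr (B : ℕ) (y : ℕ → E) (n : ℕ) (p w : E) (f : Lip0 E) : ℝ :=
  mean B y n (fun z => f (p + z + w) - f (p + z))

section

variable {B : ℕ} {y : ℕ → E} {n : ℕ} {p : E}

theorem incr_add_fun (w : E) (f g : Lip0 E) :
    incr B y n p w (f + g) = incr B y n p w f + incr B y n p w g := by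
  unfold incr
  rw [← mean_add]
  congr 1
  funext z
  rw [Lip0.add_apply, Lip0.add_apply]
  ring

theorem incr_smul_fun (w : E) (c : ℝ) (f : Lip0 E) :
    incr B y n p w (c • f) = c * incr B y n p w f := by
  unfold incr
  rw [← mean_mul]
  congr 1
  funext z
  rw [Lip0.smul_apply, Lip0.smul_apply]
  ring

theorem abs_incr_fun_le (w : E) (f : Lip0 E) (z : E) :
    |f (p + z + w) - f (p + z)| ≤ ‖f‖ * ‖w‖ := by
  have := f.abs_sub_le_norm (p + z + w) (p + z)
  rwa [add_sub_cancel_left] at this

variable (hB : 0 < B)
include hB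

theorem abs_incr_le (w : E) (f : Lip0 E) : |incr B y n p w f| ≤ ‖f‖ * ‖w‖ :=
  abs_mean_le hB n _ fun z => abs_incr_fun_le w f z

theorem incr_zero (f : Lip0 E) : incr B y n p 0 f = 0 := by
  unfold incr
  simp only [add_zero, sub_self]
  exact mean_const hB n 0

theorem incr_add_step (w : E) (f : Lip0 E) {i : ℕ} (hi : i < n) :
    |incr B y n p (w + y i) f - incr B y n p w f - incr B y n p (y i) f| ≤
      2 * (‖f‖ * ‖w‖) / B := by
  have h1 := mean_shift hB (y := y) (H := ‖f‖ * ‖w‖) n (fun z => f (p + z + w) - f (p + z))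
    (fun z => abs_incr_fun_le w f z) i hi
  have e : incr B y n p (w + y i) f - incr B y n p w f - incr B y n p (y i) f =
      mean B y n (fun z => f (p + (z + y i) + w) - f (p + (z + y i))) -
        mean B y n (fun z => f (p + z + w) - f (p + z)) := by
    have e1 : mean B y n (fun z => f (p + (z + y i) + w) - f (p + (z + y i))) =
        incr B y n p (w + y i) f - incr B y n p (y i) f := by
      unfold incr
      rw [← mean_sub]
      congr 1
      funext z
      have a1 : p + (z + y i) + w = p + z + (w + y i) := by abel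
      have a2 : p + (z + y i) = p + z + y i := by abel
      rw [a1, a2]
      ring
    rw [e1]
    unfold incr
    ring
  rw [e]
  exact h1

theorem incr_step {a : ℝ} (ha : a = -1 ∨ a = 0 ∨ a = 1) (w : E) (f : Lip0 E) {i : ℕ} (hi : i < n)
    (hy : ‖y i‖ ≤ 1) :
    |incr B y n p (a • y i + w) f - incr B y n p w f - a * incr B y n p (y i) f| ≤
      2 * (‖f‖ * (‖w‖ + 1)) / B := by
  have hB' : (0 : ℝ) < B := by exact_mod_cast hB
  have hf := norm_nonneg f
  rcases ha with rfl | rfl | rfl
  · have h1 := incr_add_step hB (p := p) (y := y) (w - y i) f hi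
    rw [sub_add_cancel] at h1
    have e : (-1 : ℝ) • y i + w = w - y i := by rw [neg_one_smul]; abel
    rw [e]
    have e2 : incr B y n p (w - y i) f - incr B y n p w f - -1 * incr B y n p (y i) f =
        -(incr B y n p w f - incr B y n p (w - y i) f - incr B y n p (y i) f) := by ring
    rw [e2, abs_neg]
    refine h1.trans ?_
    have h2 : ‖w - y i‖ ≤ ‖w‖ + 1 := (norm_sub_le _ _).trans (add_le_add le_rfl hy)
    gcongr
  · rw [zero_smul, zero_add, zero_mul, sub_self, sub_zero, abs_zero]
    positivity
  · rw [one_smul, one_mul, add_comm (y i) w]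
    refine (incr_add_step hB w f hi).trans ?_
    gcongr
    linarith

theorem incr_lc (hy : ∀ i, ‖y i‖ ≤ 1) (f : Lip0 E) (l : List ℝ) : ∀ m : ℕ, Tri l →
    m + l.length ≤ n →
    |incr B y n p (lc l (fun i => y (m + i))) f - lc l (fun i => incr B y n p (y (m + i)) f)| ≤
      l.length * (2 * (‖f‖ * (l.length + 1)) / B) := by
  have hB' : (0 : ℝ) < B := by exact_mod_cast hB
  have hf := norm_nonneg f
  induction l with
  | nil =>
    intro m _ _
    rw [lc_nil, lc_nil, incr_zero hB]
    simp
  | cons a l ih =>
    intro m ht hm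
    rw [List.length_cons] at hm
    have h1 := ih (m + 1) (fun b hb => ht b (List.mem_cons_of_mem _ hb)) (by omega)
    have e1 : (fun i => y (m + 1 + i)) = fun i => y (m + (i + 1)) := by
      funext i; congr 1; ring
    have e2 : (fun i => incr B y n p (y (m + 1 + i)) f) =
        fun i => incr B y n p (y (m + (i + 1))) f := by
      funext i; congr 2; ring
    rw [e1, e2] at h1
    rw [lc_cons, lc_cons, add_zero, smul_eq_mul]
    set w := lc l (fun i => y (m + (i + 1))) with hw
    have hwn : ‖w‖ ≤ l.length := by
      refine (norm_lc_le l _ fun i => hy _).trans ?_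
      have ht' : Tri l := fun b hb => ht b (List.mem_cons_of_mem _ hb)
      clear_value w
      clear ih h1 e1 e2 hm ht hw
      induction l with
      | nil => simp
      | cons b l ih2 =>
        rw [asum_cons, List.length_cons]
        have h2 : |b| ≤ 1 := by
          rcases ht' b List.mem_cons_self with rfl | rfl | rfl <;> norm_num
        have h3 := ih2 fun c hc => ht' c (List.mem_cons_of_mem _ hc)
        push_cast
        linarith
    have h2 := incr_step hB (p := p) (ht a List.mem_cons_self) w f (i := m) (n := n) (by omega)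
      (hy m)
    have h3 : 2 * (‖f‖ * (‖w‖ + 1)) / B ≤ 2 * (‖f‖ * (((l.length : ℝ) + 1) + 1)) / B := by
      gcongr
      linarith
    have h4 : (l.length : ℝ) * (2 * (‖f‖ * (l.length + 1)) / B) ≤
        l.length * (2 * (‖f‖ * (((l.length : ℝ) + 1) + 1)) / B) := by
      gcongr
      linarith
    have e3 : incr B y n p (a • y m + w) f -
        (a * incr B y n p (y m) f + lc l (fun i => incr B y n p (y (m + (i + 1))) f)) =
        (incr B y n p (a • y m + w) f - incr B y n p w f - a * incr B y n p (y m) f) +
        (incr B y n p w f - lc l (fun i => incr B y n p (y (m + (i + 1))) f)) := by ring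
    rw [e3, List.length_cons]
    refine (abs_add_le _ _).trans ?_
    push_cast
    linarith

end

end Pool.Agent.LipSR
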