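import Pool.Agent.Lib.MP_327cb1_an_h41.Lattice

/-!
# Sign sums, and their spreading seminorm
-/

open Filter Topology

namespace Pool.Agent.LipSR

open Pool.Agent.LipL1

/-- The list of all sums `c ± a₁ ± ⋯ ± aₙ`. -/
def vals : List ℝ → ℝ → List ℝ
  | [], c => [c]
  | a :: l, c => vals l (c + a) ++ vals l (c - a)

theorem vals_length (l : List ℝ) : ∀ c, (vals l c).length = 2 ^ l.length := by
  induction l with
  | nil => intro c; rfl
  | cons a l ih =>
    intro c
    rw [vals, List.length_append, ih, ih, List.length_cons, pow_succ]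
    ring

theorem vals_add (l : List ℝ) : ∀ (l' : List ℝ) (c c' : ℝ), l.length = l'.length →
    List.zipWith (· + ·) (vals l c) (vals l' c') = vals (List.zipWith (· + ·) l l') (c + c') := by
  induction l with
  | nil =>
    intro l' c c' h
    have : l' = [] := by
      cases l' with
      | nil => rfl
      | cons _ _ => simp at h
    subst this
    rfl
  | cons a l ih =>
    intro l' c c' h
    cases l' with
    | nil => simp at h
    | cons b l' =>
      have h' : l.length = l'.length := by simpa using h
      simp only [vals, List.zipWith_cons_cons]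
      rw [List.zipWith_append (by rw [vals_length, vals_length, h']), ih l' _ _ h',
        ih l' _ _ h']
      congr 2 <;> ring

theorem vals_mul (r : ℝ) (l : List ℝ) : ∀ c : ℝ,
    ((vals l c).map fun v => r * v) = vals (l.map fun v => r * v) (r * c) := by
  induction l with
  | nil => intro c; rfl
  | cons a l ih =>
    intro c
    simp only [vals, List.map_append, ih, List.map_cons]
    congr 2 <;> ring

theorem asum_append (l l' : List ℝ) : asum (l ++ l') = asum l + asum l' := by
  simp [asum]

theorem asum_vals_le (l : List ℝ) : ∀ c : ℝ, asum (vals l c) ≤ 2 ^ l.length * (|c| + asum l) := by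
  induction l with
  | nil => intro c; simp [vals]
  | cons a l ih =>
    intro c
    rw [vals, asum_append, asum_cons, List.length_cons, pow_succ]
    have h1 := ih (c + a)
    have h2 := ih (c - a)
    have h3 : |c + a| ≤ |c| + |a| := abs_add_le _ _
    have h4 : |c - a| ≤ |c| + |a| := abs_sub _ _
    have h5 : (0 : ℝ) ≤ 2 ^ l.length := by positivity
    have h6 := mul_le_mul_of_nonneg_left h3 h5
    have h7 := mul_le_mul_of_nonneg_left h4 h5
    nlinarith

theorem abs_vals_le (l : List ℝ) : ∀ c : ℝ, ∀ v ∈ vals l c, |v| ≤ |c| + asum l := by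
  induction l with
  | nil =>
    intro c v hv
    rw [vals, List.mem_singleton] at hv
    rw [hv]
    simp
  | cons a l ih =>
    intro c v hv
    rw [vals, List.mem_append] at hv
    rw [asum_cons]
    rcases hv with hv | hv
    · have h1 := ih _ v hv
      have h3 : |c + a| ≤ |c| + |a| := abs_add_le _ _
      linarith
    · have h1 := ih _ v hv
      have h4 : |c - a| ≤ |c| + |a| := abs_sub _ _
      linarith

theorem exists_max_vals (l : List ℝ) : ∀ c : ℝ, ∃ v ∈ vals l c, |c| + asum l ≤ |v| := by
  induction l with
  | nil => intro c; exact ⟨c, by simp [vals], by simp⟩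
  | cons a l ih =>
    intro c
    rw [asum_cons, vals]
    have h : |c| + |a| ≤ |c + a| ∨ |c| + |a| ≤ |c - a| := by
      rcases le_total 0 c with hc | hc <;> rcases le_total 0 a with ha | ha
      · left; rw [abs_of_nonneg hc, abs_of_nonneg ha]; exact le_abs_self _
      · right; rw [abs_of_nonneg hc, abs_of_nonpos ha]; exact le_trans (by linarith) (le_abs_self _)
      · right; rw [abs_of_nonpos hc, abs_of_nonneg ha]
        have := neg_le_abs (c - a)
        linarith
      · left; rw [abs_of_nonpos hc, abs_of_nonpos ha]
        have := neg_le_abs (c + a)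
        linarith
    rcases h with h | h
    · obtain ⟨v, hv, hv'⟩ := ih (c + a)
      exact ⟨v, List.mem_append_left _ hv, by linarith⟩
    · obtain ⟨v, hv, hv'⟩ := ih (c - a)
      exact ⟨v, List.mem_append_right _ hv, by linarith⟩

/-- The sum of the squares. -/
noncomputable def sq (l : List ℝ) : ℝ := (l.map fun a => a ^ 2).sum

@[simp] theorem sq_nil : sq [] = 0 := rfl
@[simp] theorem sq_cons (a : ℝ) (l : List ℝ) : sq (a :: l) = a ^ 2 + sq l := by simp [sq]

theorem sq_nonneg' (l : List ℝ) : 0 ≤ sq l := by
  induction l with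
  | nil => simp
  | cons a l ih => rw [sq_cons]; positivity

theorem sq_append (l l' : List ℝ) : sq (l ++ l') = sq l + sq l' := by simp [sq]

theorem sq_vals (l : List ℝ) : ∀ c : ℝ, sq (vals l c) = 2 ^ l.length * (c ^ 2 + sq l) := by
  induction l with
  | nil => intro c; simp [vals]
  | cons a l ih =>
    intro c
    rw [vals, sq_append, ih, ih, sq_cons, List.length_cons, pow_succ]
    ring

theorem exp_vals (l : List ℝ) : ∀ c : ℝ,
    ((vals l c).map Real.exp).sum ≤ 2 ^ l.length * Real.exp (c + sq l / 2) := by
  induction l with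
  | nil => intro c; simp [vals]
  | cons a l ih =>
    intro c
    rw [vals, List.map_append, List.sum_append, sq_cons, List.length_cons]
    have h1 := ih (c + a)
    have h2 := ih (c - a)
    have h3 : Real.exp (c + a + sq l / 2) + Real.exp (c - a + sq l / 2) =
        2 * (Real.exp (c + sq l / 2) * Real.cosh a) := by
      rw [Real.cosh_eq]
      have e1 : c + a + sq l / 2 = (c + sq l / 2) + a := by ring
      have e2 : c - a + sq l / 2 = (c + sq l / 2) + -a := by ring
      rw [e1, e2, Real.exp_add (c + sq l / 2) a, Real.exp_add (c + sq l / 2) (-a)]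
      ring
    have h4 : Real.cosh a ≤ Real.exp (a ^ 2 / 2) := Real.cosh_le_exp_half_sq a
    have h5 : Real.exp (c + sq l / 2) * Real.cosh a ≤
        Real.exp (c + (a ^ 2 + sq l) / 2) := by
      have e : c + (a ^ 2 + sq l) / 2 = (c + sq l / 2) + a ^ 2 / 2 := by ring
      rw [e, Real.exp_add (c + sq l / 2)]
      exact mul_le_mul_of_nonneg_left h4 (Real.exp_nonneg _)
    calc ((vals l (c + a)).map Real.exp).sum + ((vals l (c - a)).map Real.exp).sum
        ≤ 2 ^ l.length * (Real.exp (c + a + sq l / 2) + Real.exp (c - a + sq l / 2)) := by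
          rw [mul_add]; exact add_le_add h1 h2
      _ = 2 ^ l.length * 2 * (Real.exp (c + sq l / 2) * Real.cosh a) := by rw [h3]; ring
      _ ≤ 2 ^ (l.length + 1) * Real.exp (c + (a ^ 2 + sq l) / 2) := by
          rw [pow_succ]
          exact mul_le_mul_of_nonneg_left h5 (by positivity)

theorem exp_abs_vals (l : List ℝ) (hl : sq l ≤ 1) :
    ((vals l 0).map fun v => Real.exp |v|).sum ≤ 2 ^ l.length * 4 := by
  have h1 := exp_vals l 0
  have h2 := exp_vals (l.map fun v => (-1) * v) 0
  have e1 : vals (l.map fun v => (-1) * v) 0 = (vals l 0).map fun v => (-1) * v := by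
    rw [vals_mul, mul_zero]
  have e2 : sq (l.map fun v => (-1) * v) = sq l := by simp [sq, Function.comp_def]
  rw [e1, e2, List.length_map, List.map_map] at h2
  have h3 : ∀ L : List ℝ, (L.map fun v => Real.exp |v|).sum ≤
      (L.map Real.exp).sum + (L.map (Real.exp ∘ fun v => (-1) * v)).sum := by
    intro L
    induction L with
    | nil => simp
    | cons a L ih =>
      simp only [List.map_cons, List.sum_cons, Function.comp_apply]
      have h4 : Real.exp |a| ≤ Real.exp a + Real.exp ((-1) * a) := by
        rcases abs_cases a with ⟨h, _⟩ | ⟨h, _⟩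
        · rw [h]
          have := Real.exp_pos ((-1) * a)
          linarith
        · rw [h]
          have h5 : (-1) * a = -a := by ring
          rw [h5]
          have := Real.exp_pos a
          linarith
      have e3 : (L.map (Real.exp ∘ fun v => (-1) * v)).sum =
          (L.map fun v => (Real.exp ∘ fun v => (-1) * v) v).sum := rfl
      linarith
  have h4 := h3 (vals l 0)
  have h5 : Real.exp (0 + sq l / 2) ≤ 2 := by
    have h6 : Real.exp (0 + sq l / 2) ≤ Real.exp (1 / 2) := Real.exp_le_exp.2 (by linarith)
    have h7 : Real.exp (1 / 2) ≤ 2 := by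
      have h8 : Real.exp (1 / 2) * Real.exp (1 / 2) = Real.exp 1 := by
        rw [← Real.exp_add]
        norm_num
      have h9 := Real.exp_one_lt_d9
      by_contra hcon
      push Not at hcon
      nlinarith
    exact h6.trans h7
  have h6 : (2 : ℝ) ^ l.length * Real.exp (0 + sq l / 2) ≤ 2 ^ l.length * 2 :=
    mul_le_mul_of_nonneg_left h5 (by positivity)
  linarith

/-- Markov's inequality for lists. -/
theorem countP_mul_le (g : ℝ → ℝ) (hg : ∀ v, 0 ≤ g v) (p : ℝ → Prop) [DecidablePred p] {s : ℝ}
    (hp : ∀ v, p v → s ≤ g v) (l : List ℝ) :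
    (l.countP fun v => decide (p v) : ℕ) * s ≤ (l.map g).sum := by
  induction l with
  | nil => simp
  | cons a l ih =>
    rw [List.map_cons, List.sum_cons]
    by_cases ha : p a
    · rw [List.countP_cons_of_pos (by simpa using ha)]
      push_cast
      have := hp a ha
      linarith
    · rw [List.countP_cons_of_neg (by simpa using ha)]
      have := hg a
      linarith

/-- The tail estimate. -/
theorem tail_vals (l : List ℝ) (hl : sq l ≤ 1) (k : ℕ) :
    ((vals l 0).countP fun v => decide ((k : ℝ) ≤ |v|) : ℕ) * Real.exp k ≤ 2 ^ l.length * 4 :=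
  (countP_mul_le (fun v => Real.exp |v|) (fun _ => Real.exp_nonneg _) (fun v => (k : ℝ) ≤ |v|)
    (fun _ hv => Real.exp_le_exp.2 hv) _).trans (exp_abs_vals l hl)

theorem pow_four_le (v : ℝ) : v ^ 4 ≤ 24 * Real.exp |v| := by
  have h := Real.pow_div_factorial_le_exp |v| (abs_nonneg v) 4
  have e : (Nat.factorial 4 : ℝ) = 24 := by norm_num [Nat.factorial]
  rw [e, div_le_iff₀ (by norm_num)] at h
  have e2 : |v| ^ 4 = v ^ 4 := by
    have : |v| ^ 4 = (|v| ^ 2) ^ 2 := by ring
    rw [this, sq_abs]
    ring
  rw [e2] at h
  linarith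

/-- The anti-concentration estimate. -/
theorem large_vals (l : List ℝ) (hl : sq l = 1) :
    (2 : ℝ) ^ l.length ≤ 200 * ((vals l 0).countP fun v => decide (1 / 2 ≤ |v|) : ℕ) := by
  have h1 := sq_vals l 0
  have h2 := exp_abs_vals l hl.le
  have h3 : ∀ L : List ℝ, sq L ≤ L.length * (1 / 4) + 1 / 400 * ((L.map fun v => v ^ 4).sum) +
      100 * ((L.countP fun v => decide (1 / 2 ≤ |v|) : ℕ) : ℝ) := by
    intro L
    induction L with
    | nil => simp
    | cons a L ih =>
      rw [sq_cons, List.length_cons, List.map_cons, List.sum_cons]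
      by_cases ha : 1 / 2 ≤ |a|
      · rw [List.countP_cons_of_pos (by simpa using ha)]
        push_cast
        have h4 : a ^ 2 ≤ 1 / 400 * a ^ 4 + 100 := by nlinarith [sq_nonneg (a ^ 2 - 200)]
        linarith
      · rw [List.countP_cons_of_neg (by simpa using ha)]
        push Not at ha
        push_cast
        have h4 : a ^ 2 ≤ 1 / 4 := by
          rw [← sq_abs]
          nlinarith [abs_nonneg a]
        have h5 : 0 ≤ a ^ 4 := by positivity
        linarith
  have h4 := h3 (vals l 0)
  have h5 : ((vals l 0).map fun v => v ^ 4).sum ≤ 24 * ((vals l 0).map fun v => Real.exp |v|).sum := by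
    have h6 : ∀ L : List ℝ, (L.map fun v => v ^ 4).sum ≤ 24 * (L.map fun v => Real.exp |v|).sum := by
      intro L
      induction L with
      | nil => simp
      | cons a L ih =>
        simp only [List.map_cons, List.sum_cons]
        have := pow_four_le a
        linarith
    exact h6 _
  rw [h1, vals_length, hl] at h4
  push_cast at h4
  have h6 : (0 : ℝ) ≤ 2 ^ l.length := by positivity
  linarith

end Pool.Agent.LipSR
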