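import Pool.Agent.Lib.MP_327cb1_an_h41.Tau

/-!
# Realising the spreading seminorm in `E`
-/

open Filter Topology

namespace Pool.Agent.LipSR

open Pool.Agent.LipL1

variable {E : Type*} [NormedAddCommGroup E] [NormedSpace ℝ E]

/-- The linear combination `∑ l_i y_i`. -/
noncomputable def lc : List ℝ → (ℕ → E) → E
  | [], _ => 0
  | a :: l, y => a • y 0 + lc l (fun i => y (i + 1))

@[simp] theorem lc_nil (y : ℕ → E) : lc [] y = 0 := rfl
theorem lc_cons (a : ℝ) (l : List ℝ) (y : ℕ → E) :
    lc (a :: l) y = a • y 0 + lc l (fun i => y (i + 1)) := rfl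

theorem lc_append (l l' : List ℝ) : ∀ y : ℕ → E,
    lc (l ++ l') y = lc l y + lc l' (fun i => y (l.length + i)) := by
  induction l with
  | nil => intro y; simp
  | cons a l ih =>
    intro y
    rw [List.cons_append, lc_cons, lc_cons, ih, ← add_assoc]
    congr 2
    funext i
    rw [List.length_cons]
    congr 1
    ring

theorem lc_map_mul (c : ℝ) (l : List ℝ) : ∀ y : ℕ → E,
    lc (l.map fun a => c * a) y = c • lc l y := by
  induction l with
  | nil => intro y; simp
  | cons a l ih => intro y; rw [List.map_cons, lc_cons, lc_cons, ih, smul_add, smul_smul]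

theorem lc_replicate_zero (k : ℕ) : ∀ y : ℕ → E, lc (List.replicate k 0) y = 0 := by
  induction k with
  | zero => intro y; rfl
  | succ k ih => intro y; rw [List.replicate_succ, lc_cons, ih, zero_smul, add_zero]

theorem norm_lc_le (l : List ℝ) : ∀ y : ℕ → E, (∀ i, ‖y i‖ ≤ 1) → ‖lc l y‖ ≤ asum l := by
  induction l with
  | nil => intro y _; simp
  | cons a l ih =>
    intro y hy
    rw [lc_cons, asum_cons]
    refine (norm_add_le _ _).trans (add_le_add ?_ (ih _ fun i => hy _))
    rw [norm_smul, Real.norm_eq_abs]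
    have := hy 0
    have h0 := abs_nonneg a
    nlinarith

theorem lc_dbl_bl (K : ℕ) : ∀ (n : ℕ) (a : Fin n → ℝ) (y : ℕ → E),
    lc (dbl (bl K (List.ofFn a))) y =
      ∑ i : Fin n, a i • lc (dbl (List.replicate K 1)) (fun j => y (2 * K * i + j)) := by
  intro n
  induction n with
  | zero => intro a y; simp [bl, dbl]
  | succ n ih =>
    intro a y
    rw [List.ofFn_succ, bl, dbl_append, lc_append, ih, Fin.sum_univ_succ]
    congr 1
    · have e : List.replicate K (a 0) = (List.replicate K (1 : ℝ)).map fun b => a 0 * b := by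
        simp
      rw [e, dbl_map_mul, lc_map_mul]
      congr 2
      funext j
      simp
    · apply Finset.sum_congr rfl
      intro i _
      congr 2
      funext j
      rw [dbl_length, List.length_replicate]
      congr 1
      rw [Fin.val_succ]
      ring

theorem asum_dbl_replicate (K : ℕ) : asum (dbl (List.replicate K 1)) = 2 * K := by
  induction K with
  | zero => simp [dbl]
  | succ K ih =>
    rw [List.replicate_succ, dbl, asum_cons, asum_cons, ih]
    push_cast
    simp
    ring

/-- Prepend an index. -/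
def consIdx (n : ℕ) (f : ℕ → ℕ) : ℕ → ℕ
  | 0 => n
  | i + 1 => f i

@[simp] theorem consIdx_zero (n : ℕ) (f : ℕ → ℕ) : consIdx n f 0 = n := rfl
@[simp] theorem consIdx_succ (n : ℕ) (f : ℕ → ℕ) (i : ℕ) : consIdx n f (i + 1) = f i := rfl

section

variable {x : ℕ → ℕ → E} (hx : ∀ M n, ‖x M n‖ ≤ 1)
include hx

theorem realize {ι : Type*} [Finite ι] : ∀ (k : ℕ) (l : ι → List ℝ) (v : ι → ℕ → E),
    (∀ j, (l j).length = k) → (∀ j, Bd (v j)) → ∀ ε : ℝ, 0 < ε → ∀ m : ℕ,
    ∃ (idx : ℕ → ℕ) (M : ℕ), m ≤ M ∧ (∀ i < k, m ≤ idx i ∧ idx i < M) ∧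
      (∀ i j, i < j → j < k → idx i < idx j) ∧
      ∀ j, |‖v j M + lc (l j) (fun i => x M (idx i))‖ - rho x (l j) (v j)| < ε := by
  intro k
  induction k with
  | zero =>
    intro l v hl hv ε hε m
    have h1 : ∀ j, ∀ᶠ M in (hyperfilter ℕ : Filter ℕ), |‖v j M‖ - rho x (l j) (v j)| < ε := by
      intro j
      have hlj : l j = [] := List.length_eq_zero_iff.1 (hl j)
      rw [hlj, rho_nil]
      obtain ⟨B, hB⟩ := hv j
      have h2 := ul_tend (u := fun M => ‖v j M‖) (B := B) fun M => by rw [abs_norm]; exact hB M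
      have h3 := h2.eventually (Metric.ball_mem_nhds _ hε)
      filter_upwards [h3] with M hM
      rw [Real.dist_eq] at hM
      exact hM
    have h2 : ∀ᶠ M in (hyperfilter ℕ : Filter ℕ), m ≤ M :=
      Nat.hyperfilter_le_atTop (eventually_ge_atTop m)
    obtain ⟨M, hM1, hM2⟩ := ((eventually_all.2 h1).and h2).exists
    refine ⟨fun _ => 0, M, hM2, fun i hi => absurd hi (Nat.not_lt_zero _),
      fun i j _ hj => absurd hj (Nat.not_lt_zero _), fun j => ?_⟩
    have hlj : l j = [] := List.length_eq_zero_iff.1 (hl j)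
    have := hM1 j
    rw [hlj] at this ⊢
    rw [lc_nil, add_zero]
    exact this
  | succ k ih =>
    intro l v hl hv ε hε m
    have hcons : ∀ j, ∃ (a : ℝ) (l' : List ℝ), l j = a :: l' := by
      intro j
      cases h : l j with
      | nil => have := hl j; rw [h] at this; simp at this
      | cons a l' => exact ⟨a, l', rfl⟩
    choose a l' hal using hcons
    have h1 : ∀ j, ∀ᶠ n in (hyperfilter ℕ : Filter ℕ),
        |rho x (l' j) (fun M => v j M + a j • x M n) - rho x (l j) (v j)| < ε / 2 := by
      intro j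
      rw [hal j, rho_cons]
      obtain ⟨B, hB⟩ := hv j
      have h2 := ul_tend (rho_abs_step hx (l' j) hB (a j))
      have h3 := h2.eventually (Metric.ball_mem_nhds _ (half_pos hε))
      filter_upwards [h3] with M hM
      rw [Real.dist_eq] at hM
      exact hM
    have h2 : ∀ᶠ M in (hyperfilter ℕ : Filter ℕ), m ≤ M :=
      Nat.hyperfilter_le_atTop (eventually_ge_atTop m)
    obtain ⟨n, hn1, hn2⟩ := ((eventually_all.2 h1).and h2).exists
    obtain ⟨idx, M, hM, hidx1, hidx2, hidx3⟩ := ih l' (fun j M => v j M + a j • x M n)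
      (fun j => by have := hl j; rw [hal j] at this; simpa using this)
      (fun j => (hv j).step hx (a j) n) (ε / 2) (half_pos hε) (n + 1)
    refine ⟨consIdx n idx, M, by omega, ?_, ?_, ?_⟩
    · intro i hi
      cases i with
      | zero => rw [consIdx_zero]; exact ⟨hn2, by omega⟩
      | succ i =>
        have := hidx1 i (by omega)
        rw [consIdx_succ]
        omega
    · intro i j hij hj
      cases j with
      | zero => omega
      | succ j =>
        cases i with
        | zero =>
          have := hidx1 j (by omega)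
          rw [consIdx_zero, consIdx_succ]
          omega
        | succ i =>
          rw [consIdx_succ, consIdx_succ]
          exact hidx2 i j (by omega) (by omega)
    · intro j
      have h3 := hidx3 j
      have h4 := hn1 j
      rw [hal j] at h4 ⊢
      have e : v j M + lc (a j :: l' j) (fun i => x M (consIdx n idx i)) =
          v j M + a j • x M n + lc (l' j) (fun i => x M (idx i)) := by
        rw [lc_cons, add_assoc]
        rfl
      rw [e]
      have h5 : ‖v j M + a j • x M n + lc (l' j) (fun i => x M (idx i))‖ -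
          rho x (a j :: l' j) (v j) =
          (‖v j M + a j • x M n + lc (l' j) (fun i => x M (idx i))‖ -
            rho x (l' j) (fun M => v j M + a j • x M n)) +
          (rho x (l' j) (fun M => v j M + a j • x M n) - rho x (a j :: l' j) (v j)) := by ring
      rw [h5]
      refine (abs_add_le _ _).trans_lt ?_
      linarith

/-- If the differences span `ℓ₁` in the spreading model then `E` contains the `ℓ₁ⁿ` uniformly. -/
theorem containsL1n_of_pos {c : ℝ} (hc : 0 < c) (hlow : ∀ K : ℕ, c * K ≤ sig x K)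
    (hinf : ∀ δ : ℝ, 0 < δ → ∃ K : ℕ, 1 ≤ K ∧ sig x K ≤ c * (1 + δ) * K) :
    ContainsL1nUniformly E := by
  refine ⟨16 / c, fun n => ?_⟩
  rcases Nat.eq_zero_or_pos n with rfl | hn
  · exact ⟨fun i => i.elim0, fun i => i.elim0, fun a => by simp⟩
  have hn' : (1 : ℝ) ≤ n := by exact_mod_cast hn
  obtain ⟨K, hK1, hK⟩ := hinf (1 / (2 * n)) (by positivity)
  have hK1' : (1 : ℝ) ≤ K := by exact_mod_cast hK1
  -- the net
  set η : ℝ := min (1 / 4) (c / 64) / n with hη
  have hη0 : 0 < η := by
    rw [hη]
    have : 0 < min (1 / 4) (c / 64) := lt_min (by norm_num) (by positivity)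
    positivity
  obtain ⟨t, -, htf, ht⟩ := (isCompact_closedBall (0 : Fin n → ℝ) 1).finite_cover_balls hη0
  have : Finite t := htf
  have hε0 : 0 < c * K / 32 := by positivity
  obtain ⟨idx, M, -, -, -, hM⟩ := realize hx (ι := t) (2 * (K * n))
    (fun a => dbl (bl K (List.ofFn a.1))) (fun _ _ => 0)
    (fun a => by rw [dbl_length, bl_length, List.length_ofFn]) (fun _ => bd0)
    (c * K / 32) hε0 0
  set y : ℕ → E := fun i => x M (idx i) with hy
  have hy1 : ∀ i, ‖y i‖ ≤ 1 := fun i => hx _ _
  set e : Fin n → E := fun i =>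
    (1 / (2 * K) : ℝ) • lc (dbl (List.replicate K 1)) (fun j => y (2 * K * i + j)) with he
  have he1 : ∀ i, ‖e i‖ ≤ 1 := by
    intro i
    rw [he]
    simp only
    rw [norm_smul, Real.norm_eq_abs, abs_of_pos (by positivity)]
    have h1 := norm_lc_le (dbl (List.replicate K 1)) (fun j => y (2 * K * i + j))
      (fun j => hy1 _)
    rw [asum_dbl_replicate] at h1
    calc (1 / (2 * K) : ℝ) * ‖lc (dbl (List.replicate K 1)) (fun j => y (2 * K * i + j))‖
        ≤ (1 / (2 * K)) * (2 * K) := mul_le_mul_of_nonneg_left h1 (by positivity)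
      _ = 1 := by field_simp
  have hsum : ∀ a : Fin n → ℝ, ∑ i, a i • e i =
      (1 / (2 * K) : ℝ) • lc (dbl (bl K (List.ofFn a))) y := by
    intro a
    rw [lc_dbl_bl, Finset.smul_sum]
    apply Finset.sum_congr rfl
    intro i _
    rw [he]
    simp only
    rw [smul_comm]
  have hasum : ∀ a : Fin n → ℝ, asum (List.ofFn a) = ∑ i, |a i| := by
    intro a
    rw [asum, List.map_ofFn, List.sum_ofFn]
    rfl
  -- elements of the net
  have hnet : ∀ a ∈ t, c / 8 * (∑ i, |a i|) - c / 64 ≤ ‖∑ i, a i • e i‖ := by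
    intro a ha
    have h1 := hM ⟨a, ha⟩
    simp only [zero_add] at h1
    have h2 := tau_bl_lower hx hc.le (by positivity : (0 : ℝ) ≤ 1 / (2 * n)) hlow hK
      (List.ofFn a) (by rw [List.length_ofFn]; field_simp; norm_num)
    rw [hasum] at h2
    have h3 : tau x (bl K (List.ofFn a)) - c * K / 32 ≤ ‖lc (dbl (bl K (List.ofFn a))) y‖ := by
      have := (abs_lt.1 h1).1
      have e1 : rho x (dbl (bl K (List.ofFn a))) (fun _ => 0) = tau x (bl K (List.ofFn a)) := rfl
      rw [e1] at this
      linarith
    rw [hsum, norm_smul, Real.norm_eq_abs, abs_of_pos (by positivity)]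
    have h4 : c * K / 4 * ∑ i, |a i| - c * K / 32 ≤ ‖lc (dbl (bl K (List.ofFn a))) y‖ := by
      linarith
    have h5 := mul_le_mul_of_nonneg_left h4 (by positivity : (0 : ℝ) ≤ 1 / (2 * K))
    refine le_trans (le_of_eq ?_) h5
    field_simp
    ring
  refine ⟨e, he1, ?_⟩
  -- normalised vectors
  have hone : ∀ a : Fin n → ℝ, ∑ i, |a i| = 1 → c / 16 ≤ ‖∑ i, a i • e i‖ := by
    intro a ha
    have hball : a ∈ Metric.closedBall (0 : Fin n → ℝ) 1 := by
      rw [mem_closedBall_zero_iff, pi_norm_le_iff_of_nonneg zero_le_one]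
      intro i
      rw [Real.norm_eq_abs, ← ha]
      exact Finset.single_le_sum (f := fun i => |a i|) (fun _ _ => abs_nonneg _)
        (Finset.mem_univ i)
    have h1 := ht hball
    simp only [Set.mem_iUnion, exists_prop] at h1
    obtain ⟨b, hb, hab⟩ := h1
    rw [Metric.mem_ball, dist_eq_norm, pi_norm_lt_iff hη0] at hab
    have hd : ∑ i, |a i - b i| ≤ min (1 / 4) (c / 64) := by
      calc ∑ i, |a i - b i| ≤ ∑ _i : Fin n, η := Finset.sum_le_sum fun i _ => (hab i).le
        _ = n * η := by simp
        _ = min (1 / 4) (c / 64) := by rw [hη]; field_simp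
    have hd1 := hd.trans (min_le_left _ _)
    have hd2 := hd.trans (min_le_right _ _)
    have h2 : 3 / 4 ≤ ∑ i, |b i| := by
      have h3 : ∑ i, |a i| ≤ ∑ i, |a i - b i| + ∑ i, |b i| := by
        rw [← Finset.sum_add_distrib]
        apply Finset.sum_le_sum
        intro i _
        have := abs_add_le (a i - b i) (b i)
        rwa [sub_add_cancel] at this
      linarith
    have h3 : ‖∑ i, b i • e i‖ ≤ ‖∑ i, a i • e i‖ + ∑ i, |a i - b i| := by
      have e1 : ∑ i, b i • e i = ∑ i, a i • e i - ∑ i, (a i - b i) • e i := by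
        rw [← Finset.sum_sub_distrib]
        apply Finset.sum_congr rfl
        intro i _
        rw [← sub_smul]
        congr 1
        ring
      rw [e1]
      refine (norm_sub_le _ _).trans (add_le_add le_rfl ?_)
      refine (norm_sum_le _ _).trans (Finset.sum_le_sum fun i _ => ?_)
      rw [norm_smul, Real.norm_eq_abs]
      have := he1 i
      have h0 := abs_nonneg (a i - b i)
      nlinarith
    have h4 := hnet b hb
    have h5 : c / 8 * (3 / 4) ≤ c / 8 * ∑ i, |b i| :=
      mul_le_mul_of_nonneg_left h2 (by positivity)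
    linarith
  intro a
  rcases (Finset.sum_nonneg fun i (_ : i ∈ Finset.univ) => abs_nonneg (a i)).eq_or_lt with h | h
  · rw [← h]
    positivity
  · set s := ∑ i, |a i| with hs
    have h1 := hone (fun i => s⁻¹ * a i) (by
      simp only [abs_mul, abs_of_pos (inv_pos.2 h)]
      rw [← Finset.mul_sum, ← hs, inv_mul_cancel₀ h.ne'])
    have e1 : ∑ i, (s⁻¹ * a i) • e i = s⁻¹ • ∑ i, a i • e i := by
      rw [Finset.smul_sum]
      apply Finset.sum_congr rfl
      intro i _
      rw [mul_smul]
    rw [e1, norm_smul, Real.norm_eq_abs, abs_of_pos (inv_pos.2 h), inv_mul_eq_div,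
      le_div_iff₀ h] at h1
    have h2 := mul_le_mul_of_nonneg_left h1 (by positivity : (0 : ℝ) ≤ 16 / c)
    refine le_trans (le_of_eq ?_) h2
    field_simp

theorem sig_mul_le (m K : ℕ) : sig x (m * K) ≤ m * sig x K := by
  induction m with
  | zero =>
    rw [Nat.zero_mul, Nat.cast_zero, zero_mul]
    have := tau_replicate hx 0 0
    simp only [List.replicate_zero, abs_zero, zero_mul] at this
    exact this.le
  | succ m ih =>
    have h1 := tau_append_le hx (List.replicate (m * K) 1) (List.replicate K 1)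
    rw [List.replicate_append_replicate] at h1
    have e : (m + 1) * K = m * K + K := by ring
    rw [e]
    push_cast
    have h2 : tau x (List.replicate (m * K) 1) = sig x (m * K) := rfl
    have h3 : tau x (List.replicate K 1) = sig x K := rfl
    rw [h2, h3] at h1
    have h4 : sig x (m * K + K) = tau x (List.replicate (m * K + K) 1) := rfl
    rw [h4]
    linarith

/-- The dichotomy. -/
theorem dichotomy : ContainsL1nUniformly E ∨
    ∀ ε : ℝ, 0 < ε → ∃ K : ℕ, 1 ≤ K ∧ sig x K + 1 ≤ ε * K := by
  set c : ℝ := ⨅ K : ℕ, sig x (K + 1) / (K + 1) with hc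
  have hbdd : BddBelow (Set.range fun K : ℕ => sig x (K + 1) / ((K : ℝ) + 1)) := by
    refine ⟨0, ?_⟩
    rintro _ ⟨K, rfl⟩
    have := sig_nonneg hx (K + 1)
    positivity
  have hc0 : 0 ≤ c := Real.iInf_nonneg fun K => by
    have := sig_nonneg hx (K + 1)
    positivity
  rcases hc0.eq_or_lt with h | h
  · right
    intro ε hε
    have h1 : c < ε / 2 := by rw [← h]; positivity
    obtain ⟨K, hK⟩ := exists_lt_of_ciInf_lt h1
    rw [div_lt_iff₀ (by positivity)] at hK
    obtain ⟨m, hm⟩ := exists_nat_gt (2 / ε)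
    have hm0 : 0 < (m : ℝ) := lt_trans (by positivity) hm
    refine ⟨m * (K + 1), ?_, ?_⟩
    · have : 0 < m := by exact_mod_cast hm0
      nlinarith
    · have h2 := sig_mul_le hx m (K + 1)
      have h3 : (m : ℝ) * sig x (K + 1) ≤ m * (ε / 2 * (K + 1)) :=
        mul_le_mul_of_nonneg_left hK.le hm0.le
      push_cast
      have h4 : 1 ≤ ε / 2 * m := by
        rw [div_lt_iff₀ hε] at hm
        linarith
      have h5 : (0 : ℝ) ≤ K := Nat.cast_nonneg K
      have h6 : 1 ≤ ε / 2 * m * (K + 1) := by nlinarith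
      linarith
  · left
    apply containsL1n_of_pos hx h
    · intro K
      cases K with
      | zero => rw [Nat.cast_zero, mul_zero]; exact sig_nonneg hx _
      | succ K =>
        have := ciInf_le hbdd K
        rw [← hc, le_div_iff₀ (by positivity)] at this
        push_cast
        exact this
    · intro δ hδ
      have h1 : c < c * (1 + δ) := by nlinarith
      obtain ⟨K, hK⟩ := exists_lt_of_ciInf_lt h1
      rw [div_lt_iff₀ (by positivity)] at hK
      refine ⟨K + 1, by omega, ?_⟩
      push_cast
      exact hK.le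

end

end Pool.Agent.LipSR
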