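import Pool.Agent.Lib.MP_327cb1_an_h41.Groth

/-!
# Super-reflexivity of `E` when `Lip₀(E)` is a Grothendieck space
-/

open Filter Topology NormedSpace Pointwise

namespace Pool.Agent.LipSR

open Pool.Agent.LipL1

section james

theorem norm_pos_of_ne {W : Type*} [NormedAddCommGroup W] [NormedSpace ℝ W] (Φ : W →L[ℝ] ℝ)
    (h : Φ ≠ 0) : 0 < ‖Φ‖ := norm_pos_iff.2 h

theorem norm_scale {W : Type*} [NormedAddCommGroup W] [NormedSpace ℝ W] (Φ : W →L[ℝ] ℝ)
    (h : 0 < ‖Φ‖) : ‖‖Φ‖⁻¹ • Φ‖ ≤ 1 := by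
  rw [norm_smul, norm_inv, norm_norm, inv_mul_cancel₀ h.ne']

theorem dist_pos_of_notMem {F W : Type*} [NormedAddCommGroup W] [NormedSpace ℝ W]
    [NormedAddCommGroup F] [NormedSpace ℝ F] [CompleteSpace F] (J : F →ₗᵢ[ℝ] W) (Φ : W)
    (h : ∀ g, J g ≠ Φ) : ∃ δ : ℝ, 0 < δ ∧ ∀ g, δ ≤ ‖Φ - J g‖ := by
  have hclosed : IsClosed (Set.range J) := J.isometry.isClosedEmbedding.isClosed_range
  have hr : Φ ∉ Set.range J := by
    rintro ⟨g, hg⟩
    exact h g hg
  refine ⟨Metric.infDist Φ (Set.range J),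
    (hclosed.notMem_iff_infDist_pos ⟨0, 0, map_zero _⟩).1 hr, fun g => ?_⟩
  rw [← dist_eq_norm]
  exact Metric.infDist_le_dist_of_mem ⟨g, rfl⟩

theorem ext_bound {W : Type*} [NormedAddCommGroup W] [NormedSpace ℝ W] (P : Submodule ℝ W)
    (Φ : W →L[ℝ] ℝ) {c : ℝ} (hc0 : 0 ≤ c) (h : ∀ f ∈ P, ‖f‖ ≤ 1 → Φ f ≤ c) :
    ∃ Ψ : W →L[ℝ] ℝ, (∀ f ∈ P, Ψ f = Φ f) ∧ ‖Ψ‖ ≤ c := by
  let Ψ₀ : P →L[ℝ] ℝ := Φ.comp P.subtypeL
  have hΨ₀ : ‖Ψ₀‖ ≤ c := by
    refine ContinuousLinearMap.opNorm_le_of_unit_norm hc0 fun f hf => ?_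
    have hf' : ‖(f : W)‖ = 1 := hf
    have e : Ψ₀ f = Φ f := rfl
    rw [e, Real.norm_eq_abs, abs_le]
    have h1 := h f f.2 hf'.le
    have h2 := h (-f : W) (P.neg_mem f.2) (by rw [norm_neg]; exact hf'.le)
    rw [map_neg] at h2
    constructor <;> linarith
  obtain ⟨Ψ, hΨ1, hΨ2⟩ := exists_extension_norm_eq P Ψ₀
  exact ⟨Ψ, fun f hf => hΨ1 ⟨f, hf⟩, by rw [hΨ2]; exact hΨ₀⟩

variable {F : Type*} [NormedAddCommGroup F] [NormedSpace ℝ F]

/-- Helly's theorem, approximate form. -/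
theorem exists_near {n : ℕ} (f : Fin n → (F →L[ℝ] ℝ)) (Φ : (F →L[ℝ] ℝ) →L[ℝ] ℝ) (hΦ : ‖Φ‖ ≤ 1)
    {η : ℝ} (hη : 0 < η) : ∃ x : F, ‖x‖ ≤ 1 ∧ ∀ k, |f k x - Φ (f k)| < η := by
  classical
  let L : F →L[ℝ] (Fin n → ℝ) := ContinuousLinearMap.pi f
  have hL : ∀ x k, L x k = f k x := fun x k => rfl
  let p : Fin n → ℝ := fun k => Φ (f k)
  have hp : p ∈ closure (L '' Metric.closedBall 0 1) := by
    by_contra hcon
    have hconv : Convex ℝ (closure (L '' Metric.closedBall (0 : F) 1)) :=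
      ((convex_closedBall (0 : F) 1).linear_image L.toLinearMap).closure
    obtain ⟨c, u, h1, h2⟩ := geometric_hahn_banach_closed_point hconv isClosed_closure hcon
    have h1' : ∀ x : F, ‖x‖ ≤ 1 → c (L x) < u := fun x hx =>
      h1 _ (subset_closure ⟨x, by simpa using hx, rfl⟩)
    have hu0 : 0 ≤ u := by
      have := h1' 0 (by simp)
      rw [map_zero, map_zero] at this
      exact this.le
    have h3 : ‖c.comp L‖ ≤ u := by
      refine ContinuousLinearMap.opNorm_le_of_unit_norm hu0 fun x hx => ?_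
      rw [Real.norm_eq_abs, ContinuousLinearMap.comp_apply, abs_le]
      have h4 := h1' x hx.le
      have h5 := h1' (-x) (by rw [norm_neg]; exact hx.le)
      rw [map_neg, map_neg] at h5
      constructor <;> linarith
    have hc : ∀ v : Fin n → ℝ, c v = ∑ k, v k * c (Pi.single k 1) := by
      intro v
      have h4 := LinearMap.pi_apply_eq_sum_univ c.toLinearMap v
      have e : ∀ k : Fin n, (fun j => if k = j then (1 : ℝ) else 0) = Pi.single k 1 := by
        intro k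
        funext j
        by_cases h : k = j
        · subst h; simp
        · rw [if_neg h, Pi.single_eq_of_ne (Ne.symm h)]
      simp only [e, smul_eq_mul, ContinuousLinearMap.coe_coe] at h4
      exact h4
    have h4 : Φ (c.comp L) = c p := by
      have e : c.comp L = ∑ k, c (Pi.single k 1) • f k := by
        ext x
        rw [ContinuousLinearMap.comp_apply, hc]
        simp only [hL, ContinuousLinearMap.sum_apply, ContinuousLinearMap.smul_apply, smul_eq_mul]
        exact Finset.sum_congr rfl fun k _ => mul_comm _ _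
      rw [e, map_sum, hc p]
      apply Finset.sum_congr rfl
      intro k _
      rw [map_smul, smul_eq_mul, mul_comm]
    have h5 : Φ (c.comp L) ≤ ‖c.comp L‖ := by
      have h6 := (le_abs_self _).trans (Φ.le_opNorm (c.comp L))
      have h7 := mul_le_mul_of_nonneg_right hΦ (norm_nonneg (c.comp L))
      linarith
    linarith
  rw [Metric.mem_closure_iff] at hp
  obtain ⟨_, ⟨x, hx, rfl⟩, hd⟩ := hp η hη
  refine ⟨x, by simpa using hx, fun k => ?_⟩
  rw [dist_eq_norm, pi_norm_lt_iff hη] at hd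
  have h1 := hd k
  have e : (p - L x) k = Φ (f k) - f k x := rfl
  rw [Real.norm_eq_abs, e, abs_sub_comm] at h1
  exact h1

/-- A functional that annihilates given vectors and is large on `Φ`. -/
theorem exists_annihilator {n : ℕ} (x : Fin n → F) (Φ : (F →L[ℝ] ℝ) →L[ℝ] ℝ) {δ c : ℝ}
    (hδ : ∀ g : F, δ ≤ ‖Φ - inclusionInDoubleDual ℝ F g‖) (hc : c < δ) :
    ∃ f : F →L[ℝ] ℝ, ‖f‖ ≤ 1 ∧ (∀ i, f (x i) = 0) ∧ c < Φ f := by
  by_contra hcon
  push Not at hcon
  have hc0 : 0 ≤ c := by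
    have := hcon 0 (by simp) (fun i => rfl)
    rwa [map_zero] at this
  let P : Submodule ℝ (F →L[ℝ] ℝ) :=
    { carrier := {f | ∀ i, f (x i) = 0}
      add_mem' := fun {a b} ha hb i => by
        rw [ContinuousLinearMap.add_apply, ha i, hb i, add_zero]
      zero_mem' := fun i => rfl
      smul_mem' := fun r a ha i => by
        rw [ContinuousLinearMap.smul_apply, ha i, smul_zero] }
  obtain ⟨Ψ, hΨ1, hΨ2⟩ := ext_bound P Φ hc0 fun f hf h1 => hcon f h1 hf
  have hspan : ((Φ - Ψ : (F →L[ℝ] ℝ) →L[ℝ] ℝ) : (F →L[ℝ] ℝ) →ₗ[ℝ] ℝ) ∈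
      Submodule.span ℝ (Set.range fun i : Fin n =>
        ((inclusionInDoubleDual ℝ F (x i) : (F →L[ℝ] ℝ) →L[ℝ] ℝ) : (F →L[ℝ] ℝ) →ₗ[ℝ] ℝ)) := by
    apply mem_span_of_iInf_ker_le_ker
    intro f hf
    rw [Submodule.mem_iInf] at hf
    have hf' : f ∈ P := fun i => by
      have := hf i
      rw [LinearMap.mem_ker] at this
      exact this
    rw [LinearMap.mem_ker]
    change Φ f - Ψ f = 0
    rw [hΨ1 f hf', sub_self]
  rw [Submodule.mem_span_range_iff_exists_fun] at hspan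
  obtain ⟨a, ha⟩ := hspan
  have h1 := hδ (∑ i, a i • x i)
  have h2 : Φ - inclusionInDoubleDual ℝ F (∑ i, a i • x i) = Ψ := by
    ext f
    have h3 := LinearMap.congr_fun ha f
    have h4 : (∑ i, a i • ((inclusionInDoubleDual ℝ F (x i) : (F →L[ℝ] ℝ) →L[ℝ] ℝ) :
        (F →L[ℝ] ℝ) →ₗ[ℝ] ℝ)) f = ∑ i, a i * f (x i) := by
      rw [LinearMap.sum_apply]
      rfl
    rw [h4] at h3
    have h5 : ((Φ - Ψ : (F →L[ℝ] ℝ) →L[ℝ] ℝ) : (F →L[ℝ] ℝ) →ₗ[ℝ] ℝ) f = Φ f - Ψ f := rfl
    rw [h5] at h3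
    rw [ContinuousLinearMap.sub_apply, dual_def, map_sum]
    simp only [map_smul, smul_eq_mul]
    linarith
  rw [h2] at h1
  linarith

/-- James's sequences in a non-reflexive space. -/
theorem james_seq (Φ : (F →L[ℝ] ℝ) →L[ℝ] ℝ) (hΦ : ‖Φ‖ ≤ 1) {δ : ℝ} (hδ0 : 0 < δ)
    (hδ : ∀ g : F, δ ≤ ‖Φ - inclusionInDoubleDual ℝ F g‖) : ∀ M : ℕ,
    ∃ (x : ℕ → F) (f : ℕ → (F →L[ℝ] ℝ)), (∀ i, ‖x i‖ ≤ 1) ∧ (∀ k, ‖f k‖ ≤ 1) ∧
      (∀ i k, i < k → k < M → f k (x i) = 0) ∧
      (∀ k i, k ≤ i → i < M → δ / 2 ≤ f k (x i)) ∧ ∀ k < M, 3 * δ / 4 < Φ (f k) := by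
  intro M
  induction M with
  | zero =>
    exact ⟨fun _ => 0, fun _ => 0, fun i => by simp, fun k => by simp, fun i k _ h => by omega,
      fun k i _ h => by omega, fun k h => by omega⟩
  | succ M ih =>
    obtain ⟨x, f, hx, hf, h1, h2, h3⟩ := ih
    obtain ⟨fM, hfM1, hfM2, hfM3⟩ := exists_annihilator (fun i : Fin M => x i) Φ
      (c := 3 * δ / 4) hδ (by linarith)
    have hf' : ∀ k, ‖Function.update f M fM k‖ ≤ 1 := by
      intro k
      by_cases hk : k = M
      · subst hk; simpa using hfM1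
      · rw [Function.update_of_ne hk]; exact hf k
    have hΦf : ∀ k < M + 1, 3 * δ / 4 < Φ (Function.update f M fM k) := by
      intro k hk
      by_cases hk' : k = M
      · subst hk'; simpa using hfM3
      · rw [Function.update_of_ne hk']; exact h3 k (by omega)
    obtain ⟨xM, hxM1, hxM2⟩ := exists_near (fun k : Fin (M + 1) => Function.update f M fM k) Φ hΦ
      (η := δ / 4) (by linarith)
    refine ⟨Function.update x M xM, Function.update f M fM, ?_, hf', ?_, ?_, hΦf⟩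
    · intro i
      by_cases hi : i = M
      · subst hi; simpa using hxM1
      · rw [Function.update_of_ne hi]; exact hx i
    · intro i k hik hk
      rw [Function.update_of_ne (by omega : i ≠ M)]
      by_cases hk' : k = M
      · subst hk'
        rw [Function.update_self]
        exact hfM2 ⟨i, hik⟩
      · rw [Function.update_of_ne hk']
        exact h1 i k hik (by omega)
    · intro k i hki hi
      by_cases hi' : i = M
      · subst hi'
        rw [Function.update_self]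
        have h4 := hxM2 ⟨k, by omega⟩
        have h5 := hΦf k (by omega)
        simp only at h4
        have h6 := (abs_lt.1 h4).1
        linarith
      · rw [Function.update_of_ne hi', Function.update_of_ne (by omega : k ≠ M)]
        exact h2 k i hki (by omega)

/-- In a non-reflexive Banach space there are arbitrarily long separated sequences. -/
theorem exists_sep [CompleteSpace F] (hF : ¬ Function.Surjective (inclusionInDoubleDual ℝ F)) :
    ∃ θ : ℝ, 0 < θ ∧ ∀ M : ℕ, ∃ x : ℕ → F, (∀ i, ‖x i‖ ≤ 1) ∧ Sep θ M x := by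
  have hF' : ∃ Φ₀ : StrongDual ℝ (StrongDual ℝ F), ∀ g, inclusionInDoubleDual ℝ F g ≠ Φ₀ := by
    unfold Function.Surjective at hF
    push Not at hF
    exact hF
  obtain ⟨Φ₀, hΦ₀⟩ := hF'
  have hne : Φ₀ ≠ 0 := fun h => hΦ₀ 0 (by rw [map_zero, h])
  have hn : 0 < ‖Φ₀‖ := norm_pos_of_ne Φ₀ hne
  set Φ : StrongDual ℝ (StrongDual ℝ F) := ‖Φ₀‖⁻¹ • Φ₀ with hΦ
  have hΦ1 : ‖Φ‖ ≤ 1 := norm_scale Φ₀ hn
  have hΦr : ∀ g, inclusionInDoubleDualLi (E := F) ℝ g ≠ Φ := by
    intro g hg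
    apply hΦ₀ (‖Φ₀‖ • g)
    have hg' : inclusionInDoubleDual ℝ F g = Φ := hg
    rw [map_smul, hg', hΦ, smul_smul, mul_inv_cancel₀ hn.ne', one_smul]
  obtain ⟨δ, hδ0, hδ1⟩ := dist_pos_of_notMem (inclusionInDoubleDualLi (E := F) ℝ) Φ hΦr
  refine ⟨δ / 2, by positivity, fun M => ?_⟩
  obtain ⟨x, f, hx, hf, h1, h2, -⟩ := james_seq Φ hΦ1 hδ0 hδ1 M
  refine ⟨x, hx, fun k => ?_⟩
  refine ⟨f (k + 1), hf _, fun i hi j hj hjM => ?_⟩
  rw [h1 i (k + 1) (by omega) (by omega), sub_zero]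
  exact h2 (k + 1) j (by omega) hjM

end james

section transfer

variable {E : Type*} [NormedAddCommGroup E] [NormedSpace ℝ E]
variable {F : Type*} [NormedAddCommGroup F] [NormedSpace ℝ F]

theorem sep_transfer {θ C : ℝ} (hC : 0 < C) {M : ℕ} {x : ℕ → F} (hx : ∀ i, ‖x i‖ ≤ 1)
    (hsep : Sep θ M x) (G : Submodule ℝ F) (hG : ∀ i, i < M → x i ∈ G) (T : G →ₗ[ℝ] E)
    (hT : ∀ g : G, ‖T g‖ ≤ ‖g‖ ∧ ‖g‖ ≤ C * ‖T g‖) :
    ∃ x' : ℕ → E, (∀ i, ‖x' i‖ ≤ 1) ∧ Sep (θ / C) M x' := by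
  classical
  have hinj : Function.Injective T := by
    intro a b hab
    have h1 := (hT (a - b)).2
    rw [map_sub, hab, sub_self, norm_zero, mul_zero] at h1
    rw [← sub_eq_zero]
    exact norm_le_zero_iff.1 h1
  let e : G ≃ₗ[ℝ] LinearMap.range T := LinearEquiv.ofInjective T hinj
  have he : ∀ g : G, ((e g : LinearMap.range T) : E) = T g := fun g => rfl
  refine ⟨fun i => if h : i < M then T ⟨x i, hG i h⟩ else 0, fun i => ?_, fun k => ?_⟩
  · by_cases h : i < M
    · simp only [h, dif_pos]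
      exact (hT _).1.trans (hx i)
    · simp only [h, dif_neg, not_false_eq_true, norm_zero]
      exact zero_le_one
  · obtain ⟨φ, hφ1, hφ2⟩ := hsep k
    let ψ : LinearMap.range T →L[ℝ] ℝ := LinearMap.mkContinuous
      ((φ.toLinearMap.comp G.subtype).comp e.symm.toLinearMap) C (fun s => by
        have h1 : ((φ.toLinearMap.comp G.subtype).comp e.symm.toLinearMap) s =
            φ ((e.symm s : G) : F) := rfl
        rw [h1]
        have h2 := φ.le_opNorm ((e.symm s : G) : F)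
        have h3 := (hT (e.symm s)).2
        have h4 : T (e.symm s) = (s : E) := by
          rw [← he, LinearEquiv.apply_symm_apply]
        rw [h4] at h3
        have h5 := mul_le_mul_of_nonneg_right hφ1 (norm_nonneg ((e.symm s : G) : F))
        have h6 : ‖((e.symm s : G) : F)‖ = ‖e.symm s‖ := rfl
        have h7 : ‖(s : E)‖ = ‖s‖ := rfl
        rw [h6] at h5 h2
        rw [h7] at h3
        linarith)
    have hψ : ‖ψ‖ ≤ C := LinearMap.mkContinuous_norm_le _ hC.le _
    have hψT : ∀ g : G, ψ (e g) = φ g := by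
      intro g
      change φ ((e.symm (e g) : G) : F) = φ g
      rw [LinearEquiv.symm_apply_apply]
    obtain ⟨χ, hχ1, hχ2⟩ := exists_extension_norm_eq (LinearMap.range T) ψ
    refine ⟨C⁻¹ • χ, ?_, fun i hi j hj hjM => ?_⟩
    · rw [norm_smul, norm_inv, Real.norm_eq_abs, abs_of_pos hC, hχ2, inv_mul_le_iff₀ hC, mul_one]
      exact hψ
    · have hiM : i < M := by omega
      simp only [hjM, hiM, dif_pos]
      have h1 : ∀ m (hm : m < M), (C⁻¹ • χ) (T ⟨x m, hG m hm⟩) = C⁻¹ * φ (x m) := by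
        intro m hm
        rw [ContinuousLinearMap.smul_apply, smul_eq_mul]
        congr 1
        have h2 := hχ1 (e ⟨x m, hG m hm⟩)
        rw [hψT, he] at h2
        exact h2
      rw [h1 j hjM, h1 i hiM, ← mul_sub, div_eq_inv_mul]
      exact mul_le_mul_of_nonneg_left (hφ2 i hi j hj hjM) (inv_nonneg.2 hC.le)

/-- `F` is crudely finitely representable in `E`: for some constant `C`, every finite dimensional
subspace of `F` embeds into `E` with distortion at most `C`. -/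
def CrudelyFinRep (F E : Type*) [NormedAddCommGroup F] [NormedSpace ℝ F]
    [NormedAddCommGroup E] [NormedSpace ℝ E] : Prop :=
  ∃ C : ℝ, ∀ G : Submodule ℝ F, FiniteDimensional ℝ G →
    ∃ T : G →ₗ[ℝ] E, ∀ g : G, ‖T g‖ ≤ ‖g‖ ∧ ‖g‖ ≤ C * ‖T g‖

theorem reflexive_of_grothendieck (hE : IsGrothendieck (Lip0 E)) [CompleteSpace F]
    (hF : CrudelyFinRep F E) : Function.Surjective (inclusionInDoubleDual ℝ F) := by
  by_contra hcon
  obtain ⟨θ, hθ, hsep⟩ := exists_sep hcon
  obtain ⟨C, hC⟩ := hF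
  have hC' : 0 < max C 1 := lt_max_of_lt_right one_pos
  have h1 : ∀ M : ℕ, ∃ x' : ℕ → E, (∀ i, ‖x' i‖ ≤ 1) ∧ Sep (θ / max C 1) M x' := by
    intro M
    obtain ⟨x, hx1, hx2⟩ := hsep M
    have hfd : FiniteDimensional ℝ (Submodule.span ℝ (x '' (Finset.range M : Set ℕ))) :=
      FiniteDimensional.span_of_finite ℝ ((Finset.range M).finite_toSet.image x)
    obtain ⟨T, hT⟩ := hC _ hfd
    refine sep_transfer hC' hx1 hx2 (Submodule.span ℝ (x '' (Finset.range M : Set ℕ)))
      (fun i hi => Submodule.subset_span ⟨i, by simpa using hi, rfl⟩)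
      T fun g => ⟨(hT g).1, (hT g).2.trans ?_⟩
    exact mul_le_mul_of_nonneg_right (le_max_left _ _) (norm_nonneg _)
  choose x' hx1 hx2 using h1
  exact main (div_pos hθ hC') x' hx1 hx2 hE

/-- The sequence `x` is separated in the sense of James: at every cut the convex hulls of the two
parts have distance at least `θ`. -/
def JamesSeparated (θ : ℝ) {n : ℕ} (x : Fin n → E) : Prop :=
  ∀ k : Fin n, ∀ a ∈ convexHull ℝ (x '' {i | i ≤ k}), ∀ b ∈ convexHull ℝ (x '' {j | k < j}),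
    θ ≤ ‖b - a‖

theorem exists_functional_of_hulls {θ : ℝ} (hθ : 0 < θ) {A B : Set E}
    (h : ∀ a ∈ convexHull ℝ A, ∀ b ∈ convexHull ℝ B, θ ≤ ‖b - a‖) :
    ∃ φ : E →L[ℝ] ℝ, ‖φ‖ ≤ 1 ∧ ∀ a ∈ A, ∀ b ∈ B, θ ≤ φ b - φ a := by
  rcases A.eq_empty_or_nonempty with rfl | ⟨a₀, ha₀⟩
  · exact ⟨0, by simp, fun a ha => absurd ha (Set.notMem_empty a)⟩
  rcases B.eq_empty_or_nonempty with rfl | ⟨b₀, hb₀⟩
  · exact ⟨0, by simp, fun a _ b hb => absurd hb (Set.notMem_empty b)⟩
  have hconv : Convex ℝ (convexHull ℝ B - convexHull ℝ A) :=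
    (convex_convexHull ℝ B).sub (convex_convexHull ℝ A)
  have hdisj : Disjoint (Metric.ball (0 : E) θ) (convexHull ℝ B - convexHull ℝ A) := by
    rw [Set.disjoint_left]
    rintro _ hz ⟨b, hb, a, ha, rfl⟩
    have := h a ha b hb
    simp only [mem_ball_zero_iff] at hz
    linarith
  obtain ⟨φ, u, h1, h2⟩ := geometric_hahn_banach_open (convex_ball 0 θ) Metric.isOpen_ball hconv
    hdisj
  have hu : 0 < u := by
    have := h1 0 (Metric.mem_ball_self hθ)
    rwa [map_zero] at this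
  -- the norm of φ
  have hn : ‖φ‖ * θ ≤ u := by
    rw [← le_div_iff₀ hθ]
    refine ContinuousLinearMap.opNorm_le_bound _ (by positivity) fun z => ?_
    have key : ∀ w : E, φ w ≤ u / θ * ‖w‖ := by
      intro w
      rcases eq_or_ne w 0 with rfl | hw
      · simp
      have hw' : 0 < ‖w‖ := norm_pos_iff.2 hw
      have h3 : ∀ r : ℝ, 0 < r → r < 1 → r * (θ * φ w) ≤ u * ‖w‖ := by
        intro r hr0 hr1
        have h4 := h1 ((r * θ / ‖w‖) • w) (by
          rw [mem_ball_zero_iff, norm_smul, Real.norm_eq_abs, abs_of_pos (by positivity),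
            div_mul_cancel₀ _ hw'.ne']
          nlinarith)
        rw [map_smul, smul_eq_mul, div_mul_eq_mul_div, div_lt_iff₀ hw'] at h4
        nlinarith
      have h5 : θ * φ w ≤ u * ‖w‖ := by
        by_contra hcon
        push Not at hcon
        have hpos : 0 < θ * φ w := lt_of_le_of_lt (by positivity) hcon
        have hq : 0 < u * ‖w‖ := by positivity
        obtain ⟨r, hr1, hr2⟩ := exists_between (show u * ‖w‖ / (θ * φ w) < 1 by
          rw [div_lt_one hpos]; exact hcon)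
        have hr0 : 0 < r := lt_trans (by positivity) hr1
        have := h3 r hr0 hr2
        rw [div_lt_iff₀ hpos] at hr1
        linarith
      rw [div_mul_eq_mul_div, le_div_iff₀ hθ]
      linarith
    rw [Real.norm_eq_abs, abs_le]
    have h3 := key z
    have h4 := key (-z)
    rw [map_neg, norm_neg] at h4
    constructor <;> linarith
  have hφ0 : 0 < ‖φ‖ := by
    rw [norm_pos_iff]
    rintro rfl
    have := h2 (b₀ - a₀) ⟨b₀, subset_convexHull ℝ B hb₀, a₀, subset_convexHull ℝ A ha₀, rfl⟩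
    rw [ContinuousLinearMap.zero_apply] at this
    linarith
  refine ⟨‖φ‖⁻¹ • φ, ?_, fun a ha b hb => ?_⟩
  · rw [norm_smul, norm_inv, norm_norm, inv_mul_cancel₀ hφ0.ne']
  · rw [ContinuousLinearMap.smul_apply, ContinuousLinearMap.smul_apply, smul_eq_mul, smul_eq_mul,
      ← mul_sub, ← div_eq_inv_mul, le_div_iff₀ hφ0]
    have := h2 (b - a) ⟨b, subset_convexHull ℝ B hb, a, subset_convexHull ℝ A ha, rfl⟩
    rw [map_sub] at this
    linarith

theorem james_of_grothendieck (hE : IsGrothendieck (Lip0 E)) {θ : ℝ} (hθ : 0 < θ) :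
    ∃ n : ℕ, ∀ x : Fin n → E, (∀ i, ‖x i‖ ≤ 1) → ¬ JamesSeparated θ x := by
  by_contra hcon
  push Not at hcon
  choose x hx1 hx2 using hcon
  refine main hθ (fun M i => if h : i < M then x M ⟨i, h⟩ else 0) ?_ ?_ hE
  · intro M i
    by_cases h : i < M
    · simp only [h, dif_pos]; exact hx1 M _
    · simp only [h, dif_neg, not_false_eq_true, norm_zero]; exact zero_le_one
  · intro M k
    by_cases hk : k < M
    · obtain ⟨φ, hφ1, hφ2⟩ := exists_functional_of_hulls hθ (hx2 M ⟨k, hk⟩)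
      refine ⟨φ, hφ1, fun i hi j hj hjM => ?_⟩
      have hiM : i < M := by omega
      simp only [hjM, hiM, dif_pos]
      exact hφ2 _ ⟨⟨i, hiM⟩, hi, rfl⟩ _ ⟨⟨j, hjM⟩, hj, rfl⟩
    · exact ⟨0, by simp, fun i hi j hj hjM => by omega⟩

/-- James's `J`-convexity. -/
def JConvex (E : Type*) [NormedAddCommGroup E] [NormedSpace ℝ E] : Prop :=
  ∃ n : ℕ, 2 ≤ n ∧ ∃ δ : ℝ, 0 < δ ∧ ∀ x : Fin n → E, (∀ i, ‖x i‖ ≤ 1) →
    ∃ k : Fin n, ‖∑ i, (if i ≤ k then (1 : ℝ) else -1) • x i‖ ≤ n * (1 - δ)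

theorem jconvex_of_grothendieck (hE : IsGrothendieck (Lip0 E)) : JConvex E := by
  by_contra hcon
  unfold JConvex at hcon
  push Not at hcon
  have h0 : ∀ M : ℕ, ∃ x : Fin (M + 2) → E, (∀ i, ‖x i‖ ≤ 1) ∧ ∀ k : Fin (M + 2),
      ((M + 2 : ℕ) : ℝ) * (1 - 1 / (2 * ((M + 2 : ℕ) : ℝ))) <
        ‖∑ i, (if i ≤ k then (1 : ℝ) else -1) • x i‖ := fun M =>
    hcon (M + 2) (by omega) (1 / (2 * ((M + 2 : ℕ) : ℝ))) (by positivity)
  choose x hx1 hx2 using h0
  refine main one_pos (fun M i => if h : i < M + 2 then x M ⟨i, h⟩ else 0) ?_ ?_ hE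
  · intro M i
    by_cases h : i < M + 2
    · simp only [h, dif_pos]; exact hx1 M _
    · simp only [h, dif_neg, not_false_eq_true, norm_zero]; exact zero_le_one
  · intro M k
    by_cases hk : k < M + 2
    · have h1 := hx2 M ⟨k, hk⟩
      set ε : Fin (M + 2) → ℝ := fun i => if i ≤ ⟨k, hk⟩ then (1 : ℝ) else -1 with hε
      obtain ⟨g, hg1, hg2⟩ := exists_dual_vector'' ℝ (∑ i, ε i • x M i)
      have hg2' : g (∑ i, ε i • x M i) = ‖∑ i, ε i • x M i‖ := by simpa using hg2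
      rw [map_sum] at hg2'
      simp only [map_smul, smul_eq_mul] at hg2'
      have hle : ∀ i, ε i * g (x M i) ≤ 1 := by
        intro i
        have h2 : |g (x M i)| ≤ 1 := by
          have h3 := g.le_opNorm (x M i)
          rw [Real.norm_eq_abs] at h3
          have h4 := mul_le_mul hg1 (hx1 M i) (norm_nonneg _) zero_le_one
          linarith
        have h5 := abs_le.1 h2
        rw [hε]
        simp only
        split_ifs <;> linarith
      have hge : ∀ i, 1 / 2 ≤ ε i * g (x M i) := by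
        intro i
        have h2 : ∑ j, ε j * g (x M j) ≤ ε i * g (x M i) + ((M + 2 : ℕ) - 1 : ℝ) := by
          rw [← Finset.add_sum_erase _ _ (Finset.mem_univ i)]
          apply add_le_add le_rfl
          calc ∑ j ∈ Finset.univ.erase i, ε j * g (x M j)
              ≤ ∑ _j ∈ Finset.univ.erase i, (1 : ℝ) := Finset.sum_le_sum fun j _ => hle j
            _ = ((M + 2 : ℕ) - 1 : ℝ) := by
                rw [Finset.sum_const, Finset.card_erase_of_mem (Finset.mem_univ i),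
                  Finset.card_univ, Fintype.card_fin]
                simp
                ring
        rw [hg2'] at h2
        have h3 : ((M + 2 : ℕ) : ℝ) * (1 - 1 / (2 * ((M + 2 : ℕ) : ℝ))) =
            ((M + 2 : ℕ) : ℝ) - 1 / 2 := by
          have : ((M + 2 : ℕ) : ℝ) ≠ 0 := by positivity
          field_simp
        rw [h3] at h1
        linarith
      refine ⟨-g, by rw [norm_neg]; exact hg1, fun i hi j hj hjM => ?_⟩
      have hiM : i < M + 2 := by omega
      have hjM' : j < M + 2 := by omega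
      simp only [hjM', hiM, dif_pos]
      have h2 := hge ⟨i, hiM⟩
      have h3 := hge ⟨j, hjM'⟩
      have e1 : ε ⟨i, hiM⟩ = 1 := if_pos hi
      have e2 : ε ⟨j, hjM'⟩ = -1 := if_neg (by
        intro h
        have : j ≤ k := h
        omega)
      rw [e1] at h2
      rw [e2] at h3
      rw [ContinuousLinearMap.neg_apply, ContinuousLinearMap.neg_apply]
      linarith
    · exact ⟨0, by simp, fun i hi j hj hjM => by omega⟩

end transfer

end Pool.Agent.LipSR
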