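import Pool.Agent.Lib.MP_327cb1_an_h68.Quot

/-!
# The iterated ultrafilter limit (spreading) seminorm of a sequence of arrays
-/

open Filter Topology

namespace Pool.Agent.LipSR

open Pool.Agent.LipL1

/-! ### Ultralimits of bounded sequences -/

theorem ul_tend {u : ℕ → ℝ} {B : ℝ} (h : ∀ n, |u n| ≤ B) :
    Tendsto u (hyperfilter ℕ : Filter ℕ) (𝓝 (ul u)) := tendsto_ul (k₀ := 0) fun k _ => h k

theorem ul_const (a : ℝ) : ul (fun _ => a) = a := ul_eq tendsto_const_nhds

theorem ul_le {u : ℕ → ℝ} {A B : ℝ} (h : ∀ n, |u n| ≤ B) (h' : ∀ n, u n ≤ A) : ul u ≤ A :=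
  le_of_tendsto' (ul_tend h) h'

theorem le_ul {u : ℕ → ℝ} {A B : ℝ} (h : ∀ n, |u n| ≤ B) (h' : ∀ n, A ≤ u n) : A ≤ ul u :=
  ge_of_tendsto' (ul_tend h) h'

theorem ul_mono {u w : ℕ → ℝ} {A B : ℝ} (hu : ∀ n, |u n| ≤ A) (hw : ∀ n, |w n| ≤ B)
    (h : ∀ n, u n ≤ w n) : ul u ≤ ul w := le_of_tendsto_of_tendsto' (ul_tend hu) (ul_tend hw) h

theorem ul_add {u w : ℕ → ℝ} {A B : ℝ} (hu : ∀ n, |u n| ≤ A) (hw : ∀ n, |w n| ≤ B) :
    ul (fun n => u n + w n) = ul u + ul w := ul_eq ((ul_tend hu).add (ul_tend hw))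

theorem ul_mul {u : ℕ → ℝ} {A : ℝ} (c : ℝ) (hu : ∀ n, |u n| ≤ A) :
    ul (fun n => c * u n) = c * ul u := ul_eq ((ul_tend hu).const_mul c)

variable {E : Type*} [NormedAddCommGroup E] [NormedSpace ℝ E]

/-- Bounded sequences. -/
def Bd (v : ℕ → E) : Prop := ∃ B : ℝ, ∀ M, ‖v M‖ ≤ B

theorem Bd.zero : Bd (0 : ℕ → E) := ⟨0, fun M => by simp⟩

/-- The sum of the absolute values. -/
noncomputable def asum (l : List ℝ) : ℝ := (l.map fun a => |a|).sum

@[simp] theorem asum_nil : asum [] = 0 := rfl
@[simp] theorem asum_cons (a : ℝ) (l : List ℝ) : asum (a :: l) = |a| + asum l := by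
  simp [asum]

theorem asum_nonneg (l : List ℝ) : 0 ≤ asum l := by
  induction l with
  | nil => simp
  | cons a l ih => rw [asum_cons]; positivity

variable (x : ℕ → ℕ → E)

/-- The iterated limit `lim_{n₁} lim_{n₂} ⋯ lim_M ‖v_M + a₁ x_{M,n₁} + a₂ x_{M,n₂} + ⋯‖`. -/
noncomputable def rho : List ℝ → (ℕ → E) → ℝ
  | [], v => ul fun M => ‖v M‖
  | a :: l, v => ul fun n => rho l (fun M => v M + a • x M n)

theorem rho_nil (v : ℕ → E) : rho x [] v = ul fun M => ‖v M‖ := rfl

theorem rho_cons (a : ℝ) (l : List ℝ) (v : ℕ → E) :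
    rho x (a :: l) v = ul fun n => rho x l (fun M => v M + a • x M n) := rfl

section

variable {x} (hx : ∀ M n, ‖x M n‖ ≤ 1)
include hx

theorem norm_step_le {v : ℕ → E} {B : ℝ} (hv : ∀ M, ‖v M‖ ≤ B) (a : ℝ) (n M : ℕ) :
    ‖v M + a • x M n‖ ≤ B + |a| := by
  refine (norm_add_le _ _).trans (add_le_add (hv M) ?_)
  rw [norm_smul, Real.norm_eq_abs]
  have := hx M n
  have h0 := abs_nonneg a
  nlinarith

theorem Bd.step {v : ℕ → E} (hv : Bd v) (a : ℝ) (n : ℕ) : Bd (fun M => v M + a • x M n) := by
  obtain ⟨B, hB⟩ := hv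
  exact ⟨B + |a|, norm_step_le hx hB a n⟩

theorem rho_bound (l : List ℝ) : ∀ (v : ℕ → E) (B : ℝ), (∀ M, ‖v M‖ ≤ B) →
    0 ≤ rho x l v ∧ rho x l v ≤ B + asum l := by
  induction l with
  | nil =>
    intro v B hv
    have h : ∀ M, |‖v M‖| ≤ B := fun M => by rw [abs_norm]; exact hv M
    rw [rho_nil, asum_nil, add_zero]
    exact ⟨le_ul h fun M => norm_nonneg _, ul_le h hv⟩
  | cons a l ih =>
    intro v B hv
    have h1 : ∀ n, 0 ≤ rho x l (fun M => v M + a • x M n) ∧
        rho x l (fun M => v M + a • x M n) ≤ B + |a| + asum l := fun n =>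
      ih _ _ (norm_step_le hx hv a n)
    have h : ∀ n, |rho x l (fun M => v M + a • x M n)| ≤ B + |a| + asum l := fun n => by
      rw [abs_of_nonneg (h1 n).1]; exact (h1 n).2
    rw [rho_cons, asum_cons]
    exact ⟨le_ul h fun n => (h1 n).1, by rw [← add_assoc]; exact ul_le h fun n => (h1 n).2⟩

theorem rho_nonneg (l : List ℝ) {v : ℕ → E} (hv : Bd v) : 0 ≤ rho x l v := by
  obtain ⟨B, hB⟩ := hv
  exact (rho_bound hx l v B hB).1

theorem rho_abs_step (l : List ℝ) {v : ℕ → E} {B : ℝ} (hB : ∀ M, ‖v M‖ ≤ B) (a : ℝ) (n : ℕ) :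
    |rho x l (fun M => v M + a • x M n)| ≤ B + |a| + asum l := by
  have h1 := rho_bound hx l _ _ (norm_step_le hx hB a n)
  rw [abs_of_nonneg h1.1]; exact h1.2

/-- Monotonicity under a common first coefficient. -/
theorem rho_cons_mono {l l' : List ℝ} (h : ∀ v : ℕ → E, Bd v → rho x l v ≤ rho x l' v) (a : ℝ)
    {v : ℕ → E} (hv : Bd v) : rho x (a :: l) v ≤ rho x (a :: l') v := by
  obtain ⟨B, hB⟩ := id hv
  rw [rho_cons, rho_cons]
  exact ul_mono (rho_abs_step hx l hB a) (rho_abs_step hx l' hB a)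
    fun n => h _ (hv.step hx a n)

theorem rho_append_mono {l l' : List ℝ} (h : ∀ v : ℕ → E, Bd v → rho x l v ≤ rho x l' v)
    (p : List ℝ) : ∀ {v : ℕ → E}, Bd v → rho x (p ++ l) v ≤ rho x (p ++ l') v := by
  induction p with
  | nil => intro v hv; exact h v hv
  | cons a p ih => intro v hv; exact rho_cons_mono hx (fun v hv => ih hv) a hv

omit hx in
theorem rho_zero_cons (l : List ℝ) (v : ℕ → E) : rho x (0 :: l) v = rho x l v := by
  rw [rho_cons]
  simp only [zero_smul, add_zero]
  exact ul_const _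

omit hx in
theorem rho_filter (l : List ℝ) : ∀ v : ℕ → E,
    rho x (l.filter fun a => decide (a ≠ 0)) v = rho x l v := by
  induction l with
  | nil => intro v; rfl
  | cons a l ih =>
    intro v
    by_cases ha : a = 0
    · subst ha
      rw [rho_zero_cons, List.filter_cons_of_neg (by simp)]
      exact ih v
    · rw [List.filter_cons_of_pos (by simpa using ha), rho_cons, rho_cons]
      simp only [ih]

omit hx in
theorem rho_congr_filter {l l' : List ℝ}
    (h : (l.filter fun a => decide (a ≠ 0)) = l'.filter fun a => decide (a ≠ 0)) (v : ℕ → E) :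
    rho x l v = rho x l' v := by
  rw [← rho_filter l, ← rho_filter l', h]

theorem rho_add (l : List ℝ) : ∀ (l' : List ℝ), l.length = l'.length → ∀ {v v' : ℕ → E},
    Bd v → Bd v' →
    rho x (List.zipWith (· + ·) l l') (fun M => v M + v' M) ≤ rho x l v + rho x l' v' := by
  induction l with
  | nil =>
    intro l' hl v v' hv hv'
    have : l' = [] := by
      cases l' with
      | nil => rfl
      | cons _ _ => simp at hl
    subst this
    obtain ⟨B, hB⟩ := hv
    obtain ⟨B', hB'⟩ := hv'
    have e : List.zipWith (· + ·) ([] : List ℝ) [] = [] := rfl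
    rw [e, rho_nil, rho_nil, rho_nil]
    have h1 : ∀ M, |‖v M‖| ≤ B := fun M => by rw [abs_norm]; exact hB M
    have h2 : ∀ M, |‖v' M‖| ≤ B' := fun M => by rw [abs_norm]; exact hB' M
    rw [← ul_add h1 h2]
    have h3 : ∀ M, |‖v M + v' M‖| ≤ B + B' := fun M => by
      rw [abs_norm]
      exact (norm_add_le _ _).trans (add_le_add (hB M) (hB' M))
    have h4 : ∀ M, |‖v M‖ + ‖v' M‖| ≤ B + B' := fun M => by
      rw [abs_of_nonneg (by positivity)]
      exact add_le_add (hB M) (hB' M)
    exact ul_mono h3 h4 fun M => norm_add_le _ _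
  | cons a l ih =>
    intro l' hl v v' hv hv'
    cases l' with
    | nil => simp at hl
    | cons a' l' =>
      have hl' : l.length = l'.length := by simpa using hl
      obtain ⟨B, hB⟩ := id hv
      obtain ⟨B', hB'⟩ := id hv'
      have e : List.zipWith (· + ·) (a :: l) (a' :: l') = (a + a') :: List.zipWith (· + ·) l l' :=
        rfl
      rw [e, rho_cons, rho_cons, rho_cons]
      have h1 := rho_abs_step hx l hB a
      have h2 := rho_abs_step hx l' hB' a'
      rw [← ul_add h1 h2]
      have h3 := rho_abs_step hx (List.zipWith (· + ·) l l') (v := fun M => v M + v' M)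
        (B := B + B') (fun M => (norm_add_le _ _).trans (add_le_add (hB M) (hB' M))) (a + a')
      have h4 : ∀ n, |rho x l (fun M => v M + a • x M n) +
          rho x l' (fun M => v' M + a' • x M n)| ≤
          (B + |a| + asum l) + (B' + |a'| + asum l') := fun n =>
        (abs_add_le _ _).trans (add_le_add (h1 n) (h2 n))
      refine ul_mono h3 h4 fun n => ?_
      have h5 := ih l' hl' (hv.step hx a n) (hv'.step hx a' n)
      have e2 : (fun M => v M + a • x M n + (v' M + a' • x M n)) =
          fun M => v M + v' M + (a + a') • x M n := by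
        funext M
        rw [add_smul]
        abel
      rw [e2] at h5
      exact h5

theorem rho_smul (c : ℝ) (l : List ℝ) : ∀ {v : ℕ → E}, Bd v →
    rho x (l.map fun a => c * a) (fun M => c • v M) = |c| * rho x l v := by
  induction l with
  | nil =>
    intro v hv
    obtain ⟨B, hB⟩ := hv
    rw [List.map_nil, rho_nil, rho_nil,
      ← ul_mul |c| (u := fun M => ‖v M‖) (A := B) fun M => by rw [abs_norm]; exact hB M]
    congr 1
    funext M
    rw [norm_smul, Real.norm_eq_abs]
  | cons a l ih =>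
    intro v hv
    obtain ⟨B, hB⟩ := id hv
    rw [List.map_cons, rho_cons, rho_cons, ← ul_mul |c| (rho_abs_step hx l hB a)]
    congr 1
    funext n
    rw [← ih (hv.step hx a n)]
    congr 1
    funext M
    rw [smul_add, smul_smul]

/-- Halving a difference does not increase `rho`. -/
theorem rho_half (a : ℝ) (l : List ℝ) {v : ℕ → E} (hv : Bd v) :
    rho x (-(a / 2) :: (a / 2) :: l) v ≤ rho x (-a :: a :: l) v := by
  have h1 : rho x (-a :: a :: 0 :: l) v = rho x (-a :: a :: l) v :=
    rho_congr_filter (by simp [List.filter_cons]) v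
  have h2 : rho x (0 :: -a :: a :: l) v = rho x (-a :: a :: l) v := rho_zero_cons _ _
  have h3 := rho_add hx (-a :: a :: 0 :: l) (0 :: -a :: a :: l) (by simp) hv hv
  rw [h1, h2] at h3
  have h4 : rho x (List.zipWith (· + ·) (-a :: a :: 0 :: l) (0 :: -a :: a :: l))
      (fun M => v M + v M) = rho x (-a :: a :: l.map fun b => 2 * b) (fun M => (2 : ℝ) • v M) := by
    have e1 : (fun M => v M + v M) = fun M => (2 : ℝ) • v M := by
      funext M
      rw [two_smul]
    rw [e1]
    apply rho_congr_filter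
    have e2 : List.zipWith (· + ·) l l = l.map fun b => 2 * b := by
      rw [List.zipWith_self]
      congr 1
      funext b
      ring
    simp only [List.zipWith_cons_cons, e2, add_zero, add_neg_cancel, zero_add]
    simp [List.filter_cons]
  rw [h4] at h3
  have h5 := rho_smul hx 2 (-(a / 2) :: (a / 2) :: l) hv
  have e3 : ((-(a / 2) :: (a / 2) :: l).map fun b => 2 * b) = -a :: a :: l.map fun b => 2 * b := by
    simp only [List.map_cons]
    congr 1
    · ring
    · congr 1
      ring
  rw [e3] at h5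
  rw [h5, abs_of_pos (by norm_num : (0 : ℝ) < 2)] at h3
  linarith

theorem rho_half_pow (a : ℝ) (l : List ℝ) {v : ℕ → E} (hv : Bd v) (m : ℕ) :
    rho x (-(a / 2 ^ m) :: (a / 2 ^ m) :: l) v ≤ rho x (-a :: a :: l) v := by
  induction m with
  | zero => simp
  | succ m ih =>
    have h := rho_half hx (a / 2 ^ m) l hv
    have e : a / 2 ^ m / 2 = a / 2 ^ (m + 1) := by
      rw [pow_succ, div_div]
    rw [e] at h
    exact h.trans ih

/-- Suppressing a difference does not increase `rho`. -/
theorem rho_suppress (a : ℝ) (l : List ℝ) {v : ℕ → E} (hv : Bd v) :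
    rho x l v ≤ rho x (-a :: a :: l) v := by
  have key : ∀ m : ℕ, rho x l v ≤ rho x (-a :: a :: l) v + 2 * (|a| / 2 ^ m) := by
    intro m
    set b := a / 2 ^ m with hb
    have h1 := rho_add hx (-b :: b :: l) (b :: -b :: List.replicate l.length 0) (by simp) hv
      (Bd.zero : Bd (0 : ℕ → E))
    have e1 : List.zipWith (· + ·) (-b :: b :: l) (b :: -b :: List.replicate l.length 0) =
        0 :: 0 :: l := by
      have e2 : List.zipWith (· + ·) l (List.replicate l.length 0) = l := by
        clear h1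
        induction l with
        | nil => rfl
        | cons c l ih => simp [List.replicate_succ, ih]
      simp only [List.zipWith_cons_cons, e2, neg_add_cancel, add_neg_cancel]
    have e3 : (fun M => v M + (0 : ℕ → E) M) = v := by
      funext M
      simp
    rw [e1, e3, rho_zero_cons, rho_zero_cons] at h1
    have h2 := (rho_bound hx (b :: -b :: List.replicate l.length 0) (0 : ℕ → E) 0
      (fun M => by simp)).2
    have e4 : ∀ k : ℕ, asum (List.replicate k 0) = 0 := by
      intro k
      induction k with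
      | zero => rfl
      | succ k ih => rw [List.replicate_succ, asum_cons, ih]; simp
    rw [asum_cons, asum_cons, e4, abs_neg] at h2
    have h3 := rho_half_pow hx a l hv m
    rw [← hb] at h3
    have e5 : |b| = |a| / 2 ^ m := by
      rw [hb, abs_div, abs_of_pos (by positivity : (0 : ℝ) < 2 ^ m)]
    rw [← e5]
    linarith
  have hlim : Tendsto (fun m : ℕ => rho x (-a :: a :: l) v + 2 * (|a| / 2 ^ m)) atTop
      (𝓝 (rho x (-a :: a :: l) v + 2 * 0)) := by
    refine (Tendsto.const_mul 2 ?_).const_add _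
    exact tendsto_const_nhds.div_atTop (tendsto_pow_atTop_atTop_of_one_lt (by norm_num))
  rw [mul_zero, add_zero] at hlim
  exact ge_of_tendsto' hlim key

end

end Pool.Agent.LipSR
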