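import Pool.Agent.Lib.MP_327cb1_an_h41.Rho

/-!
# Differences in the spreading seminorm: suppression unconditionality and the `ℓ₁` alternative
-/

open Filter Topology

namespace Pool.Agent.LipSR

open Pool.Agent.LipL1

variable {E : Type*} [NormedAddCommGroup E] [NormedSpace ℝ E]

/-- The list of coefficients of `∑ a_i (x_{2i+1} - x_{2i})`. -/
def dbl : List ℝ → List ℝ
  | [] => []
  | a :: l => -a :: a :: dbl l

theorem dbl_append (l l' : List ℝ) : dbl (l ++ l') = dbl l ++ dbl l' := by
  induction l with
  | nil => rfl
  | cons a l ih => simp [dbl, ih]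

theorem dbl_length (l : List ℝ) : (dbl l).length = 2 * l.length := by
  induction l with
  | nil => rfl
  | cons a l ih => simp only [dbl, List.length_cons, ih]; ring

theorem dbl_zipWith (l : List ℝ) : ∀ l' : List ℝ,
    List.zipWith (· + ·) (dbl l) (dbl l') = dbl (List.zipWith (· + ·) l l') := by
  induction l with
  | nil => intro l'; simp [dbl]
  | cons a l ih =>
    intro l'
    cases l' with
    | nil => simp [dbl]
    | cons b l' =>
      simp only [dbl, List.zipWith_cons_cons, ih]
      congr 1
      ring

theorem dbl_map_mul (c : ℝ) (l : List ℝ) :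
    dbl (l.map fun a => c * a) = (dbl l).map fun a => c * a := by
  induction l with
  | nil => rfl
  | cons a l ih => simp [dbl, ih]

theorem dbl_filter (l : List ℝ) : ((dbl l).filter fun a => decide (a ≠ 0)) =
    dbl (l.filter fun a => decide (a ≠ 0)) := by
  induction l with
  | nil => rfl
  | cons a l ih =>
    by_cases ha : a = 0
    · subst ha
      simpa [dbl, List.filter_cons] using ih
    · rw [dbl, List.filter_cons_of_pos (by simpa using ha),
        List.filter_cons_of_pos (by simpa using ha),
        List.filter_cons_of_pos (by simpa using ha), ih]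
      rfl

/-- Repeat every coefficient `K` times. -/
def bl (K : ℕ) : List ℝ → List ℝ
  | [] => []
  | a :: l => List.replicate K a ++ bl K l

theorem bl_length (K : ℕ) (l : List ℝ) : (bl K l).length = K * l.length := by
  induction l with
  | nil => simp [bl]
  | cons a l ih => simp only [bl, List.length_append, List.length_replicate, ih, List.length_cons]; ring

theorem bl_map (K : ℕ) (f : ℝ → ℝ) (l : List ℝ) : bl K (l.map f) = (bl K l).map f := by
  induction l with
  | nil => rfl
  | cons a l ih => simp [bl, ih]

theorem bl_zipWith (K : ℕ) (l : List ℝ) : ∀ l' : List ℝ, l.length = l'.length →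
    List.zipWith (· + ·) (bl K l) (bl K l') = bl K (List.zipWith (· + ·) l l') := by
  induction l with
  | nil =>
    intro l' h
    have : l' = [] := by
      cases l' with
      | nil => rfl
      | cons _ _ => simp at h
    subst this
    rfl
  | cons a l ih =>
    intro l' h
    cases l' with
    | nil => simp at h
    | cons b l' =>
      have h' : l.length = l'.length := by simpa using h
      simp only [bl, List.zipWith_cons_cons]
      rw [List.zipWith_append (by simp), ih l' h', List.zipWith_replicate, min_self]

theorem bl_replicate (K n : ℕ) (a : ℝ) :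
    bl K (List.replicate n a) = List.replicate (n * K) a := by
  induction n with
  | zero => simp [bl]
  | succ n ih =>
    rw [List.replicate_succ, bl, ih, List.replicate_append_replicate]
    congr 1
    ring

variable (x : ℕ → ℕ → E)

/-- The spreading seminorm of `∑ a_i (e_{2i+1} - e_{2i})`. -/
noncomputable def tau (l : List ℝ) : ℝ := rho x (dbl l) (fun _ => 0)

/-- The value on `K` differences. -/
noncomputable def sig (K : ℕ) : ℝ := tau x (List.replicate K 1)

section

variable {x} (hx : ∀ M n, ‖x M n‖ ≤ 1)

omit [NormedSpace ℝ E] in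
theorem bd0 : Bd (fun _ : ℕ => (0 : E)) := ⟨0, fun M => by simp⟩

theorem tau_congr_filter {l l' : List ℝ}
    (h : (l.filter fun a => decide (a ≠ 0)) = l'.filter fun a => decide (a ≠ 0)) :
    tau x l = tau x l' := by
  apply rho_congr_filter
  rw [dbl_filter, dbl_filter, h]

include hx

theorem tau_nonneg (l : List ℝ) : 0 ≤ tau x l := rho_nonneg hx _ bd0

theorem sig_nonneg (K : ℕ) : 0 ≤ sig x K := tau_nonneg hx _

theorem tau_add {l l' : List ℝ} (h : l.length = l'.length) :
    tau x (List.zipWith (· + ·) l l') ≤ tau x l + tau x l' := by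
  have h1 := rho_add hx (dbl l) (dbl l') (by rw [dbl_length, dbl_length, h])
    (bd0 (E := E)) (bd0 (E := E))
  rw [dbl_zipWith] at h1
  unfold tau
  simpa only [add_zero] using h1

theorem tau_smul (c : ℝ) (l : List ℝ) : tau x (l.map fun a => c * a) = |c| * tau x l := by
  have h1 := rho_smul hx c (dbl l) (bd0 (E := E))
  unfold tau
  rw [dbl_map_mul, ← h1]
  simp only [smul_zero]

theorem tau_append_le (l l' : List ℝ) : tau x (l ++ l') ≤ tau x l + tau x l' := by
  have h1 := tau_add hx (l := l ++ List.replicate l'.length 0)
    (l' := List.replicate l.length 0 ++ l') (by simp)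
  have e1 : List.zipWith (· + ·) (l ++ List.replicate l'.length 0)
      (List.replicate l.length 0 ++ l') = l ++ l' := by
    rw [List.zipWith_append (by simp)]
    congr 1
    · clear h1
      induction l with
      | nil => rfl
      | cons c l ih => simp [List.replicate_succ, ih]
    · clear h1
      induction l' with
      | nil => rfl
      | cons c l ih => simp [List.replicate_succ, ih]
  have e2 : tau x (l ++ List.replicate l'.length 0) = tau x l :=
    tau_congr_filter (by simp [List.filter_append])
  have e3 : tau x (List.replicate l.length 0 ++ l') = tau x l' :=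
    tau_congr_filter (by simp [List.filter_append])
  rw [e1, e2, e3] at h1
  exact h1

theorem rho_map_le (f : ℝ → ℝ) (hf : ∀ a, f a = a ∨ f a = 0) (l : List ℝ) :
    ∀ v : ℕ → E, Bd v → rho x (dbl (l.map f)) v ≤ rho x (dbl l) v := by
  induction l with
  | nil => intro v hv; exact le_rfl
  | cons a l ih =>
    intro v hv
    rw [List.map_cons, dbl, dbl]
    rcases hf a with h | h
    · rw [h]
      exact rho_cons_mono hx (fun v hv => rho_cons_mono hx ih a hv) (-a) hv
    · rw [h, neg_zero, rho_zero_cons, rho_zero_cons]
      exact (ih v hv).trans (rho_suppress hx a (dbl l) hv)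

theorem tau_map_le (f : ℝ → ℝ) (hf : ∀ a, f a = a ∨ f a = 0) (l : List ℝ) :
    tau x (l.map f) ≤ tau x l := rho_map_le hx f hf l _ bd0

theorem tau_replicate (K : ℕ) (a : ℝ) : tau x (List.replicate K a) = |a| * sig x K := by
  unfold sig
  rw [← tau_smul hx]
  congr 1
  simp

theorem tau_bl_le (K : ℕ) (l : List ℝ) : tau x (bl K l) ≤ asum l * sig x K := by
  induction l with
  | nil =>
    rw [asum_nil, zero_mul, bl]
    have := tau_replicate hx 0 0
    simp only [List.replicate_zero, abs_zero, zero_mul] at this
    exact this.le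
  | cons a l ih =>
    rw [bl, asum_cons, add_mul]
    exact (tau_append_le hx _ _).trans (add_le_add (tau_replicate hx K a).le ih)

omit hx in
omit [NormedAddCommGroup E] [NormedSpace ℝ E] in
theorem asum_one_sub (l : List ℝ) (hl : ∀ a ∈ l, a ≤ 1) :
    asum (l.map fun a => 1 - a) = l.length - l.sum := by
  induction l with
  | nil => simp
  | cons a l ih =>
    rw [List.map_cons, asum_cons, ih fun b hb => hl b (List.mem_cons_of_mem _ hb),
      abs_of_nonneg (sub_nonneg.2 (hl a List.mem_cons_self)), List.length_cons, List.sum_cons]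
    push_cast
    ring

omit hx in
omit [NormedAddCommGroup E] [NormedSpace ℝ E] in
theorem zipWith_one_sub (l : List ℝ) :
    List.zipWith (· + ·) l (l.map fun a => 1 - a) = List.replicate l.length 1 := by
  induction l with
  | nil => rfl
  | cons a l ih => simp [List.replicate_succ, ih]

/-- Lower estimate on positive blocks, normalised. -/
theorem tau_bl_lower_one {c δ : ℝ} (hc : 0 ≤ c) (hδ : 0 ≤ δ) (hlow : ∀ K : ℕ, c * K ≤ sig x K)
    {K : ℕ} (hK : sig x K ≤ c * (1 + δ) * K) (l : List ℝ) (hl : ∀ a ∈ l, 0 ≤ a)
    (hsum : l.sum = 1) (hδ' : 2 * δ * l.length ≤ 1) : c * K / 2 ≤ tau x (bl K l) := by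
  have hle1 : ∀ a ∈ l, a ≤ 1 := fun a ha => by
    rw [← hsum]
    exact List.single_le_sum hl a ha
  have h1 := tau_add hx (l := bl K l) (l' := bl K (l.map fun a => 1 - a))
    (by rw [bl_length, bl_length, List.length_map])
  rw [bl_zipWith K l _ (by rw [List.length_map]), zipWith_one_sub, bl_replicate] at h1
  have h2 := tau_bl_le hx K (l.map fun a => 1 - a)
  rw [asum_one_sub l hle1, hsum] at h2
  have h3 := hlow (l.length * K)
  have h4 : c * (l.length * K : ℕ) ≤ tau x (bl K l) + (l.length - 1) * sig x K :=
    (h3.trans h1).trans (by linarith)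
  push_cast at h4
  have hlen : (1 : ℝ) ≤ l.length := by
    have : l ≠ [] := by
      rintro rfl
      simp at hsum
    exact_mod_cast List.length_pos_iff.2 this
  have h5 : ((l.length : ℝ) - 1) * sig x K ≤ (l.length - 1) * (c * (1 + δ) * K) :=
    mul_le_mul_of_nonneg_left hK (by linarith)
  have h6 : 0 ≤ c * K := by positivity
  have h7 : c * K * (δ * (l.length - 1)) ≤ c * K * (1 / 2) :=
    mul_le_mul_of_nonneg_left (by nlinarith) h6
  nlinarith

theorem tau_bl_lower_nonneg {c δ : ℝ} (hc : 0 ≤ c) (hδ : 0 ≤ δ)
    (hlow : ∀ K : ℕ, c * K ≤ sig x K) {K : ℕ} (hK : sig x K ≤ c * (1 + δ) * K) (l : List ℝ)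
    (hl : ∀ a ∈ l, 0 ≤ a) (hδ' : 2 * δ * l.length ≤ 1) :
    c * K / 2 * l.sum ≤ tau x (bl K l) := by
  rcases (List.sum_nonneg hl).eq_or_lt with h | h
  · rw [← h, mul_zero]
    exact tau_nonneg hx _
  · have h1 := tau_bl_lower_one hx hc hδ hlow hK (l.map fun a => l.sum⁻¹ * a)
      (by
        intro a ha
        rw [List.mem_map] at ha
        obtain ⟨b, hb, rfl⟩ := ha
        exact mul_nonneg (inv_nonneg.2 h.le) (hl b hb))
      (by
        rw [List.sum_map_mul_left, List.map_id', inv_mul_cancel₀ h.ne'])
      (by rw [List.length_map]; exact hδ')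
    rw [bl_map, tau_smul hx, abs_of_pos (inv_pos.2 h)] at h1
    rw [inv_mul_eq_div, le_div_iff₀ h] at h1
    exact h1

/-- Lower `ℓ₁` estimate on blocks. -/
theorem tau_bl_lower {c δ : ℝ} (hc : 0 ≤ c) (hδ : 0 ≤ δ)
    (hlow : ∀ K : ℕ, c * K ≤ sig x K) {K : ℕ} (hK : sig x K ≤ c * (1 + δ) * K) (l : List ℝ)
    (hδ' : 2 * δ * l.length ≤ 1) :
    c * K / 4 * asum l ≤ tau x (bl K l) := by
  have hf : ∀ a : ℝ, max a 0 = a ∨ max a 0 = 0 := fun a => by
    rcases le_total a 0 with h | h
    · right; exact max_eq_right h
    · left; exact max_eq_left h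
  have hpos : ∀ l' : List ℝ, l'.length = l.length →
      c * K / 2 * (l'.map fun a => max a 0).sum ≤ tau x (bl K l') := by
    intro l' hl'
    have h1 := tau_bl_lower_nonneg hx hc hδ hlow hK (l'.map fun a => max a 0)
      (by
        intro a ha
        rw [List.mem_map] at ha
        obtain ⟨b, _, rfl⟩ := ha
        exact le_max_right _ _)
      (by rw [List.length_map, hl']; exact hδ')
    rw [bl_map] at h1
    exact h1.trans (tau_map_le hx _ hf _)
  have h1 := hpos l rfl
  have h2 := hpos (l.map fun a => (-1) * a) (by rw [List.length_map])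
  rw [bl_map, tau_smul hx, abs_neg, abs_one, one_mul] at h2
  have h3 : asum l = (l.map fun a => max a 0).sum +
      ((l.map fun a => (-1) * a).map fun a => max a 0).sum := by
    clear hδ' hpos h1 h2
    induction l with
    | nil => simp
    | cons a l ih =>
      rw [asum_cons, ih]
      simp only [List.map_cons, List.sum_cons]
      have : |a| = max a 0 + max (-1 * a) 0 := by
        rcases le_total a 0 with h | h
        · rw [abs_of_nonpos h, max_eq_right h, max_eq_left (by linarith)]
          ring
        · rw [abs_of_nonneg h, max_eq_left h, max_eq_right (by linarith)]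
          ring
      rw [this]
      ring
  rw [h3]
  linarith

end

end Pool.Agent.LipSR
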